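import Pool.Agent.T2H44.RS.Defs
import Pool.Agent.W497.FS.Final

set_option autoImplicit false

/-!
# RS, package FS: flag homology spheres

`IsFlagSphere k d S` (starting library `Pool.Agent.W497.FS`, exactly the hypotheses of the frozen
statement of `MP_19e880_co`) for `S : Finset (Finset (Fin m))`. `stmA1` says that the faces of `S` are the cliques
`cl (skel S) (vert S)`, that `S` is Eulerian (`Eul`), and that faces have at most `d` vertices. `stmA2` says
`NP (skel S) d (vert S)` (normal pseudomanifold), which gives purity (`NP.lkF`, `NP.exists_facet`). The rest is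
transport along the injection `Fin m → ℕ`.
-/

namespace Pool.Agent.T2H44.RS

open Finset

/-- the complex `S` as a complex on the vertex set `{0, …, m - 1} ⊂ ℕ` -/
def toNat {m : ℕ} (S : Finset (Finset (Fin m))) : Cx := S.image fun σ => σ.map Fin.valEmbedding

theorem mem_toNat {m : ℕ} {S : Finset (Finset (Fin m))} {σ : Finset ℕ} :
    σ ∈ toNat S ↔ ∃ τ ∈ S, τ.map Fin.valEmbedding = σ := by
  simp [toNat]

theorem map_mem_toNat {m : ℕ} {S : Finset (Finset (Fin m))} {σ : Finset (Fin m)} :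
    σ.map Fin.valEmbedding ∈ toNat S ↔ σ ∈ S := by
  rw [mem_toNat]
  constructor
  · rintro ⟨τ, hτ, h⟩
    rwa [← Finset.map_injective _ h]
  · intro h
    exact ⟨σ, h, rfl⟩

theorem sphere_toNat (k : Type) [Field k] {m d : ℕ} {S : Finset (Finset (Fin m))}
    (hS : Pool.Agent.W497.FS.IsFlagSphere k d S) :
    IsPure d (toNat S) ∧ IsEul d (toNat S) ∧ IsFlag (toNat S) := by
  classical
  have hcl := hS.cl_eq
  have hnp := hS.np
  have heul := hS.eul
  obtain ⟨r, hdown, hflag, -, -⟩ := id hS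
  refine ⟨⟨?_, ?_, ?_, ?_⟩, ?_, ?_⟩
  · rw [mem_toNat]
    refine ⟨∅, ?_, by simp⟩
    rw [← hcl]
    exact Pool.Agent.W497.FS.empty_mem_cl
  · intro σ hσ τ hτσ
    obtain ⟨σ', hσ', rfl⟩ := mem_toNat.1 hσ
    obtain ⟨τ', hτ', rfl⟩ := Finset.subset_map_iff.1 hτσ
    exact map_mem_toNat.2 (hdown σ' hσ' τ' hτ')
  · intro σ hσ
    obtain ⟨σ', hσ', rfl⟩ := mem_toNat.1 hσ
    have hσc : σ' ∈ Pool.Agent.W497.FS.cl (Pool.Agent.W497.FS.skel S)
        (Pool.Agent.W497.FS.vert S) := by rw [hcl]; exact hσ'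
    obtain ⟨e, he, hN, -⟩ := hnp.lkF hσc
    obtain ⟨β, hβ, hβc, -⟩ := hN.exists_facet
    have hu := Pool.Agent.W497.FS.union_mem_cl hσc hβ
    have hdj := Pool.Agent.W497.FS.disjoint_of_mem_cl_lkF hβ
    rw [hcl] at hu
    refine ⟨(σ' ∪ β).map Fin.valEmbedding, map_mem_toNat.2 hu, ?_, ?_⟩
    · exact Finset.map_subset_map.2 subset_union_left
    · rw [card_map, card_union_of_disjoint hdj, hβc]; omega
  · intro σ hσ
    obtain ⟨σ', hσ', rfl⟩ := mem_toNat.1 hσ
    rw [card_map]
    exact hS.card_le σ' hσ'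
  · intro σ hσ
    obtain ⟨σ', hσ', rfl⟩ := mem_toNat.1 hσ
    have h1 : (toNat S).filter (fun τ => σ'.map Fin.valEmbedding ⊆ τ)
        = (S.filter (fun τ => σ' ⊆ τ)).image (fun σ => σ.map Fin.valEmbedding) := by
      ext τ
      simp only [mem_filter, mem_image]
      constructor
      · rintro ⟨h2, h3⟩
        obtain ⟨τ', hτ', rfl⟩ := mem_toNat.1 h2
        exact ⟨τ', ⟨hτ', Finset.map_subset_map.1 h3⟩, rfl⟩
      · rintro ⟨τ', ⟨h2, h3⟩, rfl⟩
        exact ⟨map_mem_toNat.2 h2, Finset.map_subset_map.2 h3⟩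
    rw [h1, sum_image (fun a _ b _ hab => Finset.map_injective _ hab)]
    simp only [card_map]
    have h2 := heul σ' (by rw [hcl]; exact hσ')
    rw [hcl] at h2
    rw [← h2]
    refine sum_congr ?_ fun _ _ => rfl
    ext τ
    simp only [mem_filter]
  · intro σ h
    have h1 : σ = (univ.filter (fun v : Fin m => v.val ∈ σ)).map Fin.valEmbedding := by
      ext a
      simp only [mem_map, mem_filter, mem_univ, true_and, Fin.valEmbedding_apply]
      constructor
      · intro ha
        obtain ⟨τ, -, hτ⟩ := mem_toNat.1 (h a ha a ha)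
        have h2 : a ∈ τ.map Fin.valEmbedding := by rw [hτ]; simp
        obtain ⟨v, -, hv⟩ := mem_map.1 h2
        exact ⟨v, by rw [show (v : ℕ) = a from hv]; exact ha, hv⟩
      · rintro ⟨v, hv, rfl⟩
        exact hv
    rw [h1, map_mem_toNat]
    refine hflag _ fun a ha b hb => ?_
    have ha' := (mem_filter.1 ha).2
    have hb' := (mem_filter.1 hb).2
    have h2 := h a ha' b hb'
    have h3 : ({(a : ℕ), (b : ℕ)} : Finset ℕ)
        = ({a, b} : Finset (Fin m)).map Fin.valEmbedding := by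
      simp [Finset.map_insert]
    rw [h3, map_mem_toNat] at h2
    exact h2

end Pool.Agent.T2H44.RS
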