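import Pool.Agent.T2H44.RS.Defs

set_option autoImplicit false

/-!
# RS, package C1: subdivisions of edges preserve purity and flagness

Notation: `w = fresh Δ` is larger than all vertices of `Δ` (`mem_lt_fresh`), so it belongs to no face.

`isPure_sub`: the members of `sub Δ e` are (i) `σ ∈ Δ` with `¬ e ⊆ σ`, (ii) `insert w ρ` with `ρ ∈ Δ`,
`¬ e ⊆ ρ`, `ρ ∪ e ∈ Δ`. Subsets: clear (a subset of `insert w ρ` is a subset of `ρ` or `insert w ρ'` with
`ρ' ⊆ ρ`, and `ρ' ∪ e ⊆ ρ ∪ e`). Facets: in case (i) let `σ ⊆ τ`, `τ` a facet; if `¬ e ⊆ τ` take `τ`, otherwise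
there is `x ∈ e`, `x ∉ σ`, and `insert w (τ.erase x)` is a member of type (ii) with `d` vertices that
contains `σ` (`τ.erase x ∪ e = τ`). In case (ii) let `ρ ∪ e ⊆ τ`, `x ∈ e`, `x ∉ ρ`, and take again
`insert w (τ.erase x)`. Cardinality of `insert w ρ`: `ρ` is a proper subset of `ρ ∪ e`, so it has at most
`d - 1` elements.

`isFlag_sub`: let all pairs in `σ'` (including `{a, a} = {a}`) be in `sub Δ e`. `e = {a, b}` is not in
`sub Δ e`, so `¬ e ⊆ σ'`. If `w ∉ σ'` all the pairs are in `Δ`, so `σ' ∈ Δ`. If `w ∈ σ'` let `σ = σ'.erase w`;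
`σ ∈ Δ`; for `x ∈ σ` the pair `{w, x}` is of type (ii), so `{x} ∪ e ∈ Δ`. Hence all pairs of `σ ∪ e` are in
`Δ`, `σ ∪ e ∈ Δ` and `σ' = insert w σ` is of type (ii). (For `σ' = {w}`: `σ = ∅`, `∅ ∪ e ∈ Δ`.)
-/

namespace Pool.Agent.T2H44.RS

open Finset

theorem mem_lt_fresh {Δ : Cx} {σ : Finset ℕ} (hσ : σ ∈ Δ) {x : ℕ} (hx : x ∈ σ) : x < fresh Δ := by
  unfold fresh
  have h1 : x ∈ Δ.sup id := by
    rw [Finset.mem_sup]
    exact ⟨σ, hσ, hx⟩
  have h2 : x ≤ (Δ.sup id).sup id := Finset.le_sup (f := id) h1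
  omega

theorem fresh_notMem {Δ : Cx} {σ : Finset ℕ} (hσ : σ ∈ Δ) : fresh Δ ∉ σ :=
  fun h => lt_irrefl _ (mem_lt_fresh hσ h)

theorem mem_sub {Δ : Cx} {e σ : Finset ℕ} : σ ∈ sub Δ e ↔
    (σ ∈ Δ ∧ ¬ e ⊆ σ) ∨ ∃ ρ ∈ Δ, (¬ e ⊆ ρ ∧ ρ ∪ e ∈ Δ) ∧ insert (fresh Δ) ρ = σ := by
  unfold sub
  rw [mem_union, mem_filter, mem_image]
  simp only [mem_filter]
  constructor
  · rintro (h | ⟨ρ, ⟨h1, h2⟩, h3⟩)
    · exact Or.inl h
    · exact Or.inr ⟨ρ, h1, h2, h3⟩
  · rintro (h | ⟨ρ, h1, h2, h3⟩)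
    · exact Or.inl h
    · exact Or.inr ⟨ρ, ⟨h1, h2⟩, h3⟩

theorem edge_card {Δ : Cx} {e : Finset ℕ} (he : e ∈ edges Δ) : e.card = 2 :=
  (mem_filter.1 he).2

theorem edge_mem {Δ : Cx} {e : Finset ℕ} (he : e ∈ edges Δ) : e ∈ Δ := (mem_filter.1 he).1

theorem isPure_sub {d : ℕ} {Δ : Cx} (h : IsPure d Δ) {e : Finset ℕ} (he : e ∈ edges Δ) :
    IsPure d (sub Δ e) := by
  have hec := edge_card he
  have hem := edge_mem he
  -- the new facets
  have key : ∀ τ ∈ Δ, e ⊆ τ → ∀ x ∈ e, insert (fresh Δ) (τ.erase x) ∈ sub Δ e ∧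
      (insert (fresh Δ) (τ.erase x)).card = τ.card := by
    intro τ hτ heτ x hx
    have h1 : τ.erase x ∈ Δ := h.down τ hτ _ (erase_subset _ _)
    constructor
    · refine mem_sub.2 (Or.inr ⟨τ.erase x, h1, ⟨?_, ?_⟩, rfl⟩)
      · intro h2
        exact notMem_erase x τ (h2 hx)
      · refine h.down τ hτ _ (union_subset (erase_subset _ _) heτ)
    · rw [card_insert_of_notMem (fresh_notMem h1), card_erase_of_mem (heτ hx)]
      have : 0 < τ.card := card_pos.2 ⟨x, heτ hx⟩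
      omega
  refine ⟨?_, ?_, ?_, ?_⟩
  · refine mem_sub.2 (Or.inl ⟨h.empty_mem, fun h1 => ?_⟩)
    rw [subset_empty.1 h1] at hec
    simp at hec
  · intro σ hσ τ hτ
    rcases mem_sub.1 hσ with ⟨h1, h2⟩ | ⟨ρ, h1, ⟨h2, h3⟩, rfl⟩
    · exact mem_sub.2 (Or.inl ⟨h.down σ h1 τ hτ, fun h3 => h2 (h3.trans hτ)⟩)
    · by_cases hw : fresh Δ ∈ τ
      · have h4 : τ.erase (fresh Δ) ⊆ ρ := by
          rw [← subset_insert_iff]
          exact hτ
        refine mem_sub.2 (Or.inr ⟨τ.erase (fresh Δ), h.down ρ h1 _ h4, ⟨fun h5 => h2 (h5.trans h4), ?_⟩,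
          insert_erase hw⟩)
        exact h.down _ h3 _ (union_subset_union_left h4)
      · have h4 : τ ⊆ ρ := (subset_insert_iff_of_notMem hw).1 hτ
        exact mem_sub.2 (Or.inl ⟨h.down ρ h1 _ h4, fun h5 => h2 (h5.trans h4)⟩)
  · intro σ hσ
    rcases mem_sub.1 hσ with ⟨h1, h2⟩ | ⟨ρ, h1, ⟨h2, h3⟩, rfl⟩
    · obtain ⟨τ, hτ, hστ, hc⟩ := h.facet σ h1
      by_cases heτ : e ⊆ τ
      · obtain ⟨x, hx, hxσ⟩ := not_subset.1 h2
        obtain ⟨h4, h5⟩ := key τ hτ heτ x hx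
        refine ⟨_, h4, ?_, h5.trans hc⟩
        intro y hy
        refine mem_insert_of_mem (mem_erase.2 ⟨?_, hστ hy⟩)
        rintro rfl
        exact hxσ hy
      · exact ⟨τ, mem_sub.2 (Or.inl ⟨hτ, heτ⟩), hστ, hc⟩
    · obtain ⟨τ, hτ, hρτ, hc⟩ := h.facet _ h3
      obtain ⟨x, hx, hxρ⟩ := not_subset.1 h2
      obtain ⟨h4, h5⟩ := key τ hτ (subset_union_right.trans hρτ) x hx
      refine ⟨_, h4, ?_, h5.trans hc⟩
      refine insert_subset_insert _ fun y hy => mem_erase.2 ⟨?_, hρτ (mem_union_left _ hy)⟩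
      rintro rfl
      exact hxρ hy
  · intro σ hσ
    rcases mem_sub.1 hσ with ⟨h1, h2⟩ | ⟨ρ, h1, ⟨h2, h3⟩, rfl⟩
    · exact h.card_le σ h1
    · rw [card_insert_of_notMem (fresh_notMem h1)]
      have h4 : ρ ⊂ ρ ∪ e := by
        refine Finset.ssubset_iff_subset_ne.2 ⟨subset_union_left, fun h5 => h2 ?_⟩
        rw [h5]
        exact subset_union_right
      have h5 := card_lt_card h4
      have h6 := h.card_le _ h3
      omega

theorem isFlag_sub {Δ : Cx} (hdown : ∀ σ ∈ Δ, ∀ τ : Finset ℕ, τ ⊆ σ → τ ∈ Δ) (h : IsFlag Δ)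
    {e : Finset ℕ} (he : e ∈ edges Δ) : IsFlag (sub Δ e) := by
  intro σ hσ
  have hec := edge_card he
  have hem := edge_mem he
  obtain ⟨a, b, hab, rfl⟩ := card_eq_two.1 hec
  -- a pair in the subdivision without the new vertex is in `Δ`
  have hpair : ∀ x y, x ≠ fresh Δ → y ≠ fresh Δ → ({x, y} : Finset ℕ) ∈ sub Δ {a, b} →
      ({x, y} : Finset ℕ) ∈ Δ := by
    intro x y hx hy h1
    rcases mem_sub.1 h1 with ⟨h2, _⟩ | ⟨ρ, h2, _, h3⟩
    · exact h2
    · have : fresh Δ ∈ ({x, y} : Finset ℕ) := by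
        rw [← h3]
        exact mem_insert_self _ _
      rw [mem_insert, mem_singleton] at this
      rcases this with h4 | h4
      · exact absurd h4.symm hx
      · exact absurd h4.symm hy
  have hwe : fresh Δ ∉ ({a, b} : Finset ℕ) := fresh_notMem hem
  have hne : ¬ ({a, b} : Finset ℕ) ⊆ σ := by
    intro h1
    have h2 := hσ a (h1 (by simp)) b (h1 (by simp))
    rcases mem_sub.1 h2 with ⟨_, h3⟩ | ⟨ρ, _, _, h3⟩
    · exact h3 subset_rfl
    · apply hwe
      rw [← h3]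
      exact mem_insert_self _ _
  -- the part without the new vertex
  have hσ' : σ.erase (fresh Δ) ∈ Δ := by
    refine h _ fun x hx y hy => ?_
    rw [mem_erase] at hx hy
    exact hpair x y hx.1 hy.1 (hσ x hx.2 y hy.2)
  by_cases hw : fresh Δ ∈ σ
  · refine mem_sub.2 (Or.inr ⟨σ.erase (fresh Δ), hσ',
      ⟨fun h1 => hne (h1.trans (erase_subset _ _)), ?_⟩, insert_erase hw⟩)
    -- all the vertices of `σ` are in the link of the edge
    have h1 : ∀ x ∈ σ.erase (fresh Δ), ({x} : Finset ℕ) ∪ {a, b} ∈ Δ := by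
      intro x hx
      rw [mem_erase] at hx
      have h2 := hσ _ hw x hx.2
      rcases mem_sub.1 h2 with ⟨h3, _⟩ | ⟨ρ, h3, ⟨h4, h5⟩, h6⟩
      · exact absurd (mem_insert_self _ _) (fresh_notMem h3)
      · refine hdown _ h5 _ (union_subset_union_left ?_)
        rw [singleton_subset_iff]
        have h7 : x ∈ insert (fresh Δ) ρ := by
          rw [h6]
          simp
        exact (mem_insert.1 h7).resolve_left hx.1
    refine h _ fun x hx y hy => ?_
    rw [mem_union] at hx hy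
    rcases hx with hx | hx <;> rcases hy with hy | hy
    · refine hdown _ hσ' _ ?_
      intro z hz
      rw [mem_insert, mem_singleton] at hz
      rcases hz with rfl | rfl
      · exact hx
      · exact hy
    · refine hdown _ (h1 x hx) _ ?_
      intro z hz
      rw [mem_insert, mem_singleton] at hz
      rcases hz with rfl | rfl
      · simp
      · exact mem_union_right _ hy
    · refine hdown _ (h1 y hy) _ ?_
      intro z hz
      rw [mem_insert, mem_singleton] at hz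
      rcases hz with rfl | rfl
      · exact mem_union_right _ hx
      · simp
    · refine hdown _ hem _ ?_
      intro z hz
      rw [mem_insert, mem_singleton] at hz
      rcases hz with rfl | rfl
      · exact hx
      · exact hy
  · rw [erase_eq_of_notMem hw] at hσ'
    exact mem_sub.2 (Or.inl ⟨hσ', hne⟩)

end Pool.Agent.T2H44.RS
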