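import Pool.Agent.T2H44.RS.E0
import Pool.Agent.T2H44.RS.C1

set_option autoImplicit false

/-!
# RS, package EX: random edges exist

`Ω = ℕ → Cx → Finset ℕ` with the product of the discrete probability measures `ν Δ` at `(n, Δ)`, the uniform
distribution on the edges of `Δ` if there are any (otherwise a Dirac measure). Define recursively `e n ω = ω n Δ_n(ω)`
if this is an edge of `Δ_n(ω)`, otherwise a fixed edge of `Δ_n(ω)` (this happens with probability zero),
`Δ_{n+1}(ω) = sub (Δ_n(ω)) (e n ω)`. The complexes `Δ_n(ω)` are pure (`isPure_sub`) and `d ≥ 2`, so they have edges.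
The event `e 0 = t 0, …, e (n-1) = t (n-1)` is the event that `pick (ω i) (run Δ₀ t i) = t i` for all `i < n`, so its
probability is a product (`Measure.infinitePi_pi`).
-/

namespace Pool.Agent.T2H44.RS

open Finset Filter Topology MeasureTheory

namespace EXp

/-- values of one step: a set for every complex -/
abbrev Vx : Type := Cx → Finset ℕ

/-- discrete σ-algebra -/
local instance mF : MeasurableSpace (Finset ℕ) := ⊤

local instance : DiscreteMeasurableSpace (Finset ℕ) := ⟨fun _ => trivial⟩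

/-- the uniform distribution on the edges -/
noncomputable def nu (Δ : Cx) : Measure (Finset ℕ) :=
  if h : (edges Δ).Nonempty then (PMF.uniformOfFinset (edges Δ) h).toMeasure else Measure.dirac ∅

instance nu_prob (Δ : Cx) : IsProbabilityMeasure (nu Δ) := by
  unfold nu
  split_ifs with h
  · infer_instance
  · infer_instance

/-- a fixed edge -/
noncomputable def dfl (Δ : Cx) : Finset ℕ := if h : (edges Δ).Nonempty then h.choose else ∅

theorem dfl_mem {Δ : Cx} (h : (edges Δ).Nonempty) : dfl Δ ∈ edges Δ := by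
  unfold dfl
  rw [dif_pos h]
  exact h.choose_spec

/-- the chosen edge -/
noncomputable def pick (v : Vx) (Δ : Cx) : Finset ℕ := if v Δ ∈ edges Δ then v Δ else dfl Δ

theorem pick_mem {Δ : Cx} (h : (edges Δ).Nonempty) (v : Vx) : pick v Δ ∈ edges Δ := by
  unfold pick
  split_ifs with h1
  · exact h1
  · exact dfl_mem h

/-- the distribution of one step -/
noncomputable def rho : Measure Vx := Measure.infinitePi nu

instance rho_prob : IsProbabilityMeasure rho := by unfold rho; infer_instance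

theorem pick_set (Δ : Cx) (a : Finset ℕ) : {v : Vx | pick v Δ = a} =
    (fun v : Vx => v Δ) ⁻¹' {b | (if b ∈ edges Δ then b else dfl Δ) = a} := rfl

theorem pick_meas (Δ : Cx) (a : Finset ℕ) : MeasurableSet {v : Vx | pick v Δ = a} := by
  rw [pick_set]
  exact (measurable_pi_apply Δ) (MeasurableSet.of_discrete)

theorem rho_pick {Δ : Cx} {a : Finset ℕ} (ha : a ∈ edges Δ) :
    rho {v : Vx | pick v Δ = a} = ((edges Δ).card : ENNReal)⁻¹ := by
  have hne : (edges Δ).Nonempty := ⟨a, ha⟩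
  have h1 : rho {v : Vx | pick v Δ = a} =
      nu Δ {b | (if b ∈ edges Δ then b else dfl Δ) = a} := by
    rw [pick_set, rho]
    exact (measurePreserving_eval_infinitePi nu Δ).measure_preimage
      (MeasurableSet.of_discrete).nullMeasurableSet
  rw [h1]
  unfold nu
  rw [dif_pos hne, PMF.toMeasure_uniformOfFinset_apply _ _ MeasurableSet.of_discrete]
  have h2 : ∀ I : DecidablePred fun x => x ∈ {b | (if b ∈ edges Δ then b else dfl Δ) = a},
      @Finset.filter _ (fun x => x ∈ {b | (if b ∈ edges Δ then b else dfl Δ) = a}) I (edges Δ) =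
        {a} := by
    intro I
    ext b
    rw [Finset.mem_filter, Finset.mem_singleton, Set.mem_ofPred_eq]
    constructor
    · rintro ⟨hb, h⟩
      rwa [if_pos hb] at h
    · rintro rfl
      exact ⟨ha, if_pos ha⟩
  rw [h2, Finset.card_singleton, Nat.cast_one, one_div]

/-- the complexes -/
noncomputable def Dn (Δ₀ : Cx) : ℕ → (ℕ → Vx) → Cx
  | 0, _ => Δ₀
  | n + 1, ω => sub (Dn Δ₀ n ω) (pick (ω n) (Dn Δ₀ n ω))

/-- the edges -/
noncomputable def en (Δ₀ : Cx) (n : ℕ) (ω : ℕ → Vx) : Finset ℕ := pick (ω n) (Dn Δ₀ n ω)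

theorem run_en (Δ₀ : Cx) (n : ℕ) (ω : ℕ → Vx) : run Δ₀ (fun i => en Δ₀ i ω) n = Dn Δ₀ n ω := by
  induction n with
  | zero => rfl
  | succ n ih =>
    rw [run, ih]
    rfl

theorem edges_nonempty {d : ℕ} (hd : 2 ≤ d) {Δ : Cx} (h : IsPure d Δ) : (edges Δ).Nonempty := by
  obtain ⟨τ, hτ, -, hc⟩ := h.facet ∅ h.empty_mem
  obtain ⟨ρ, hρ, hρc⟩ := Finset.exists_subset_card_eq (hc ▸ hd : 2 ≤ τ.card)
  exact ⟨ρ, Finset.mem_filter.2 ⟨h.down τ hτ ρ hρ, hρc⟩⟩

theorem Dn_pure {d : ℕ} (hd : 2 ≤ d) {Δ₀ : Cx} (h : IsPure d Δ₀) (n : ℕ) (ω : ℕ → Vx) :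
    IsPure d (Dn Δ₀ n ω) := by
  induction n with
  | zero => exact h
  | succ n ih => exact isPure_sub ih (pick_mem (edges_nonempty hd ih) _)

theorem run_congr (Δ₀ : Cx) {t t' : ℕ → Finset ℕ} : ∀ n : ℕ, (∀ i < n, t i = t' i) →
    run Δ₀ t n = run Δ₀ t' n
  | 0, _ => rfl
  | n + 1, h => by
    rw [run, run, run_congr Δ₀ n fun i hi => h i (Nat.lt_succ_of_lt hi), h n (Nat.lt_succ_self n)]

theorem Dn_meas (Δ₀ : Cx) (n : ℕ) : ∀ Δ : Cx, MeasurableSet {ω : ℕ → Vx | Dn Δ₀ n ω = Δ} := by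
  induction n with
  | zero =>
    intro Δ
    exact MeasurableSet.const (Δ₀ = Δ)
  | succ n ih =>
    intro Δ
    have h1 : {ω : ℕ → Vx | Dn Δ₀ (n + 1) ω = Δ} = ⋃ (Δ' : Cx) (a : Finset ℕ) (_ : sub Δ' a = Δ),
        ({ω : ℕ → Vx | Dn Δ₀ n ω = Δ'} ∩ (fun ω : ℕ → Vx => ω n) ⁻¹' {v | pick v Δ' = a}) := by
      ext ω
      simp only [Set.mem_iUnion, Set.mem_inter_iff, Set.mem_ofPred_eq, Set.mem_preimage, exists_prop]
      constructor
      · intro h
        exact ⟨Dn Δ₀ n ω, pick (ω n) (Dn Δ₀ n ω), h, rfl, rfl⟩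
      · rintro ⟨Δ', a, h, rfl, rfl⟩
        exact h
    rw [h1]
    exact MeasurableSet.iUnion fun Δ' => MeasurableSet.iUnion fun a => MeasurableSet.iUnion fun _ =>
      (ih Δ').inter ((measurable_pi_apply n) (pick_meas Δ' a))

theorem en_meas (Δ₀ : Cx) (n : ℕ) (a : Finset ℕ) : MeasurableSet {ω : ℕ → Vx | en Δ₀ n ω = a} := by
  have h1 : {ω : ℕ → Vx | en Δ₀ n ω = a} = ⋃ (Δ' : Cx),
      ({ω : ℕ → Vx | Dn Δ₀ n ω = Δ'} ∩ (fun ω : ℕ → Vx => ω n) ⁻¹' {v | pick v Δ' = a}) := by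
    ext ω
    simp only [Set.mem_iUnion, Set.mem_inter_iff, Set.mem_ofPred_eq, Set.mem_preimage]
    constructor
    · intro h
      exact ⟨Dn Δ₀ n ω, rfl, h⟩
    · rintro ⟨Δ', rfl, h⟩
      exact h
  rw [h1]
  exact MeasurableSet.iUnion fun Δ' => (Dn_meas Δ₀ n Δ').inter ((measurable_pi_apply n) (pick_meas Δ' a))

/-- cylinders -/
theorem cyl (Δ₀ : Cx) (t : ℕ → Finset ℕ) (n : ℕ) : {ω : ℕ → Vx | ∀ i < n, en Δ₀ i ω = t i} =
    (Finset.range n : Set ℕ).pi fun i => {v : Vx | pick v (run Δ₀ t i) = t i} := by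
  ext ω
  rw [Set.mem_ofPred_eq, Set.mem_pi]
  have key : ∀ i, (∀ j < i, en Δ₀ j ω = t j) → Dn Δ₀ i ω = run Δ₀ t i := fun i h => by
    rw [← run_en, run_congr Δ₀ i h]
  constructor
  · intro h i hi
    rw [Finset.mem_coe, Finset.mem_range] at hi
    rw [Set.mem_ofPred_eq, ← key i fun j hj => h j (hj.trans hi)]
    exact h i hi
  · intro h i
    induction i using Nat.strong_induction_on with
    | _ i ih =>
      intro hi
      have h1 := h i (Finset.mem_coe.2 (Finset.mem_range.2 hi))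
      rw [Set.mem_ofPred_eq, ← key i fun j hj => ih j hj (hj.trans hi)] at h1
      exact h1

theorem exists_random' {d : ℕ} (hd : 2 ≤ d) {Δ₀ : Cx} (h : IsPure d Δ₀) :
    ∃ (Ω : Type) (mΩ : MeasurableSpace Ω) (μ : Measure Ω) (e : ℕ → Ω → Finset ℕ),
      IsProbabilityMeasure μ ∧ RandomEdges μ Δ₀ e := by
  refine ⟨ℕ → Vx, inferInstance, Measure.infinitePi fun _ : ℕ => rho, en Δ₀, inferInstance,
    en_meas Δ₀, fun n ω => ?_, fun n t a ha => ?_⟩
  · rw [run_en]
    exact pick_mem (edges_nonempty hd (Dn_pure hd h n ω)) _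
  · obtain ⟨t', ht'⟩ : ∃ t' : ℕ → Finset ℕ, t' = Function.update t n a := ⟨_, rfl⟩
    have ht1 : ∀ i < n, t' i = t i := fun i hi => by
      rw [ht', Function.update_of_ne hi.ne]
    have ht2 : t' n = a := by rw [ht', Function.update_self]
    have h1 : {ω : ℕ → Vx | (∀ i < n, en Δ₀ i ω = t i) ∧ en Δ₀ n ω = a} =
        {ω : ℕ → Vx | ∀ i < n + 1, en Δ₀ i ω = t' i} := by
      ext ω
      rw [Set.mem_ofPred_eq, Set.mem_ofPred_eq]
      constructor
      · rintro ⟨h2, h3⟩ i hi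
        rcases Nat.lt_succ_iff_lt_or_eq.1 hi with hi | rfl
        · rw [h2 i hi, ht1 i hi]
        · rw [h3, ht2]
      · intro h2
        refine ⟨fun i hi => ?_, ?_⟩
        · rw [h2 i (Nat.lt_succ_of_lt hi), ht1 i hi]
        · rw [h2 n (Nat.lt_succ_self n), ht2]
    rw [h1, cyl, cyl, Measure.infinitePi_pi _ fun i _ => pick_meas _ _,
      Measure.infinitePi_pi _ fun i _ => pick_meas _ _, Finset.prod_range_succ]
    have h2 : ∏ i ∈ Finset.range n, rho {v : Vx | pick v (run Δ₀ t' i) = t' i} =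
        ∏ i ∈ Finset.range n, rho {v : Vx | pick v (run Δ₀ t i) = t i} := by
      refine Finset.prod_congr rfl fun i hi => ?_
      rw [Finset.mem_range] at hi
      rw [ht1 i hi, run_congr Δ₀ i fun j hj => ht1 j (hj.trans hi)]
    rw [h2, ht2, run_congr Δ₀ n ht1, rho_pick ha, ENNReal.div_eq_inv_mul, mul_comm]

end EXp

theorem exists_random {d : ℕ} (hd : 2 ≤ d) {Δ₀ : Cx} (h : IsPure d Δ₀) :
    ∃ (Ω : Type) (mΩ : MeasurableSpace Ω) (μ : Measure Ω) (e : ℕ → Ω → Finset ℕ),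
      IsProbabilityMeasure μ ∧ RandomEdges μ Δ₀ e :=
  EXp.exists_random' hd h

end Pool.Agent.T2H44.RS
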