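import Pool.Agent.T2H44.RS.P0

set_option autoImplicit false

/-!
# RS, packages A1 and A2: common lemmas (helper70)
-/

namespace Pool.Agent.T2H44.RS

open Finset Filter Topology MeasureTheory

theorem int_of_bdd {Ω : Type} {mΩ : MeasurableSpace Ω} {μ : Measure Ω} [IsProbabilityMeasure μ]
    {m : MeasurableSpace Ω} (hm : m ≤ mΩ) {f : Ω → ℝ} (hf : StronglyMeasurable[m] f)
    (hb : ∃ B : ℝ, ∀ ω, |f ω| ≤ B) : Integrable f μ := by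
  obtain ⟨B, hB⟩ := hb
  exact Integrable.of_bound (hf.mono hm).aestronglyMeasurable B
    (ae_of_all _ fun ω => by simpa using hB ω)

theorem pull {Ω : Type} {mΩ : MeasurableSpace Ω} {μ : Measure Ω} [IsProbabilityMeasure μ]
    {m : MeasurableSpace Ω} (hm : m ≤ mΩ) {W X : Ω → ℝ} (hW : StronglyMeasurable[m] W)
    (hb : ∃ B : ℝ, ∀ ω, |W ω| ≤ B) (hX : Integrable X μ) :
    μ[fun ω => W ω * X ω | m] =ᵐ[μ] fun ω => W ω * (μ[X | m]) ω := by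
  obtain ⟨B, hB⟩ := hb
  exact condExp_stronglyMeasurable_mul_of_bound hm hW hX B
    (ae_of_all μ fun ω => by simpa using hB ω)

theorem bdd_mul {Ω : Type} {f g : Ω → ℝ} (hf : ∃ B : ℝ, ∀ ω, |f ω| ≤ B)
    (hg : ∃ B : ℝ, ∀ ω, |g ω| ≤ B) : ∃ B : ℝ, ∀ ω, |f ω * g ω| ≤ B := by
  obtain ⟨B, hB⟩ := hf
  obtain ⟨B', hB'⟩ := hg
  refine ⟨B * B', fun ω => ?_⟩
  rw [abs_mul]
  exact mul_le_mul (hB ω) (hB' ω) (abs_nonneg _) ((abs_nonneg _).trans (hB ω))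

theorem bdd_add {Ω : Type} {f g : Ω → ℝ} (hf : ∃ B : ℝ, ∀ ω, |f ω| ≤ B)
    (hg : ∃ B : ℝ, ∀ ω, |g ω| ≤ B) : ∃ B : ℝ, ∀ ω, |f ω + g ω| ≤ B := by
  obtain ⟨B, hB⟩ := hf
  obtain ⟨B', hB'⟩ := hg
  exact ⟨B + B', fun ω => (abs_add_le _ _).trans (add_le_add (hB ω) (hB' ω))⟩

theorem bdd_sub {Ω : Type} {f g : Ω → ℝ} (hf : ∃ B : ℝ, ∀ ω, |f ω| ≤ B)
    (hg : ∃ B : ℝ, ∀ ω, |g ω| ≤ B) : ∃ B : ℝ, ∀ ω, |f ω - g ω| ≤ B := by
  obtain ⟨B, hB⟩ := hf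
  obtain ⟨B', hB'⟩ := hg
  exact ⟨B + B', fun ω => (abs_sub _ _).trans (add_le_add (hB ω) (hB' ω))⟩

theorem bdd_div {Ω : Type} {f g : Ω → ℝ} (hf : ∃ B : ℝ, ∀ ω, |f ω| ≤ B)
    (hg : ∀ ω, 1 ≤ g ω) : ∃ B : ℝ, ∀ ω, |f ω / g ω| ≤ B := by
  obtain ⟨B, hB⟩ := hf
  refine ⟨B, fun ω => ?_⟩
  have h1 := hg ω
  rw [abs_div, abs_of_pos (by linarith : 0 < g ω), div_le_iff₀ (by linarith)]
  have h2 := hB ω
  nlinarith [abs_nonneg (f ω)]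

section
variable {Ω : Type} {mΩ : MeasurableSpace Ω} {d : ℕ} {μ : Measure Ω}
    {ℱ : Filtration ℕ mΩ} {F : ℕ → ℕ → Ω → ℝ} {H V : ℕ → Ω → ℝ} {C : ℝ}

theorem Sys.F_bdd (h : Sys d μ ℱ F H V C) (i n : ℕ) : ∃ B : ℝ, ∀ ω, |F i n ω| ≤ B := by
  obtain ⟨B, hB⟩ := h.bdd n
  exact ⟨B, fun ω => (hB ω).1 i⟩

theorem Sys.H_bdd (h : Sys d μ ℱ F H V C) (n : ℕ) : ∃ B : ℝ, ∀ ω, |H n ω| ≤ B := by
  obtain ⟨B, hB⟩ := h.bdd n
  exact ⟨B, fun ω => (hB ω).2.1⟩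

theorem Sys.V_bdd (h : Sys d μ ℱ F H V C) (n : ℕ) : ∃ B : ℝ, ∀ ω, |V n ω| ≤ B := by
  obtain ⟨B, hB⟩ := h.bdd n
  exact ⟨B, fun ω => (hB ω).2.2⟩

theorem Sys.E_ge (h : Sys d μ ℱ F H V C) (hd : 2 ≤ d) (n : ℕ) (ω : Ω) : 1 ≤ F 2 n ω :=
  h.one_le 2 (by norm_num) hd n ω

theorem Pr_succ (n : ℕ) (ω : Ω) :
    Pr d F (n + 1) ω = Pr d F n ω * (1 + (d.choose 2 : ℝ) / F 2 n ω) := by
  unfold Pr
  rw [prod_range_succ]

theorem Pr_zero (ω : Ω) : Pr d F 0 ω = 1 := by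
  simp [Pr]

theorem Sys.one_le_factor (h : Sys d μ ℱ F H V C) (hd : 2 ≤ d) (n : ℕ) (ω : Ω) :
    1 ≤ 1 + (d.choose 2 : ℝ) / F 2 n ω := by
  have h1 := h.E_ge hd n ω
  have : 0 ≤ (d.choose 2 : ℝ) / F 2 n ω := div_nonneg (Nat.cast_nonneg _) (by linarith)
  linarith

theorem Sys.one_le_Pr (h : Sys d μ ℱ F H V C) (hd : 2 ≤ d) (n : ℕ) (ω : Ω) :
    1 ≤ Pr d F n ω := by
  induction n with
  | zero => rw [Pr_zero]
  | succ n ih =>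
    rw [Pr_succ]
    have := h.one_le_factor hd n ω
    nlinarith

theorem Sys.Pr_meas (h : Sys d μ ℱ F H V C) {n m : ℕ} (hnm : n ≤ m + 1) :
    StronglyMeasurable[ℱ m] (Pr d F n) := by
  have h1 : Measurable[ℱ m] (Pr d F n) := by
    unfold Pr
    refine Finset.measurable_fun_prod _ fun j hj => ?_
    have hj' : j ≤ m := by have := mem_range.1 hj; omega
    have h2 : Measurable[ℱ m] (F 2 j) := ((h.adF 2 j).mono (ℱ.mono hj')).measurable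
    exact (h2.const_div _).const_add _
  exact h1.stronglyMeasurable

theorem stronglyMeasurable_div' {m : MeasurableSpace Ω} {f g : Ω → ℝ}
    (hf : StronglyMeasurable[m] f) (hg : StronglyMeasurable[m] g) :
    StronglyMeasurable[m] (fun ω => f ω / g ω) :=
  (hf.measurable.div hg.measurable).stronglyMeasurable

theorem choose_two_cast : (d : ℝ) * (d - 1) = 2 * (d.choose 2 : ℝ) := by
  rw [Nat.cast_choose_two]; ring

/-- one step of the normalised Lyapunov function -/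
theorem Sys.step (h : Sys d μ ℱ F H V C) [IsProbabilityMeasure μ] (hd : 2 ≤ d) (n : ℕ) :
    μ[fun ω => V (n + 1) ω / Pr d F (n + 1) ω ^ 2 | ℱ n] ≤ᵐ[μ] fun ω =>
      V n ω / Pr d F n ω ^ 2 - H n ω / (F 2 n ω * Pr d F (n + 1) ω ^ 2) := by
  have hP1 := h.one_le_Pr hd (n + 1)
  have hWm : StronglyMeasurable[ℱ n] (fun ω => 1 / Pr d F (n + 1) ω ^ 2) :=
    stronglyMeasurable_div' stronglyMeasurable_const ((h.Pr_meas le_rfl).pow 2)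
  have hWb : ∃ B : ℝ, ∀ ω, |1 / Pr d F (n + 1) ω ^ 2| ≤ B :=
    bdd_div (f := fun _ => (1 : ℝ)) (g := fun ω => Pr d F (n + 1) ω ^ 2)
      ⟨1, fun ω => by simp⟩ fun ω => one_le_pow₀ (hP1 ω)
  have hVi : Integrable (V (n + 1)) μ := int_of_bdd (ℱ.le _) (h.adV (n + 1)) (h.V_bdd (n + 1))
  have h1 := pull (ℱ.le n) hWm hWb hVi
  have h2 : (fun ω => V (n + 1) ω / Pr d F (n + 1) ω ^ 2)
      = fun ω => 1 / Pr d F (n + 1) ω ^ 2 * V (n + 1) ω := by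
    funext ω; ring
  rw [h2]
  filter_upwards [h1, h.Vstep n] with ω h3 h4
  rw [h3]
  have hE := h.E_ge hd n ω
  have hE0 : 0 < F 2 n ω := by linarith
  have hc : (0 : ℝ) ≤ (d.choose 2 : ℝ) := Nat.cast_nonneg _
  have hP := h.one_le_Pr hd n ω
  have hP0 : 0 < Pr d F n ω := by linarith
  have hPs := Pr_succ (d := d) (F := F) n ω
  have hf0 : 0 < 1 + (d.choose 2 : ℝ) / F 2 n ω := by linarith [h.one_le_factor hd n ω]
  have hV0 : 0 ≤ V n ω := (sq_nonneg _).trans (h.V_ge n ω)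
  rw [choose_two_cast] at h4
  have h5 : (1 + 2 * (d.choose 2 : ℝ) / F 2 n ω) * V n ω
      ≤ (1 + (d.choose 2 : ℝ) / F 2 n ω) ^ 2 * V n ω := by
    refine mul_le_mul_of_nonneg_right ?_ hV0
    have h6 : (1 + (d.choose 2 : ℝ) / F 2 n ω) ^ 2
        = 1 + 2 * (d.choose 2 : ℝ) / F 2 n ω + ((d.choose 2 : ℝ) / F 2 n ω) ^ 2 := by ring
    rw [h6]
    linarith [sq_nonneg ((d.choose 2 : ℝ) / F 2 n ω)]
  calc 1 / Pr d F (n + 1) ω ^ 2 * (μ[V (n + 1) | ℱ n]) ω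
      ≤ 1 / Pr d F (n + 1) ω ^ 2 *
        ((1 + (d.choose 2 : ℝ) / F 2 n ω) ^ 2 * V n ω - H n ω / F 2 n ω) := by
        refine mul_le_mul_of_nonneg_left (h4.trans (by linarith)) (by positivity)
    _ = V n ω / Pr d F n ω ^ 2 - H n ω / (F 2 n ω * Pr d F (n + 1) ω ^ 2) := by
        rw [hPs]
        have hf0' : F 2 n ω + (d.choose 2 : ℝ) ≠ 0 := by positivity
        field_simp

end

end Pool.Agent.T2H44.RS
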