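import Mathlib

set_option autoImplicit false

/-!
# RS, package POS: a positive martingale whose limit is positive

Proof. `E Z n = E Z 0`, so `Z` converges a.e. to `Z∞ = ℱ.limitProcess Z μ`. We may assume `C ≥ 1`. For `m ≤ n` and
`B ∈ ℱ m`: `∫_B Z m Z n = ∫_B Z m ^ 2`, `∫_B Z n ^ 2 ≤ C ∫_B Z m ^ 2`, and pointwise
`2 Z m Z n ≤ Z n ^ 2 / C + Z m min (C Z m, 2 Z n)`. So `∫_B Z m ^ 2 ≤ ∫_B Z m min (C Z m, 2 Z n)`, and by dominated
convergence `∫_B Z m ^ 2 ≤ ∫_B Z m min (C Z m, 2 Z∞) ≤ C ∫_B Z m ^ 2 1_A` with `A = {Z∞ > 0}`. Hence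
`μ[1_A | ℱ m] ≥ 1 / C` a.e., and by Lévy's upward theorem `1_A ≥ 1 / C` a.e.
-/

namespace Pool.Agent.T2H44.RS

open Finset Filter Topology MeasureTheory

theorem pos_limit {Ω : Type} {mΩ : MeasurableSpace Ω} (μ : Measure Ω) [IsProbabilityMeasure μ]
    (ℱ : Filtration ℕ mΩ) (Z : ℕ → Ω → ℝ) (hZ : Martingale Z ℱ μ) (hpos : ∀ n ω, 0 < Z n ω)
    (hb : ∀ n, ∃ B : ℝ, ∀ ω, Z n ω ≤ B) (C : ℝ)
    (hC : ∀ m n, m ≤ n → μ[fun ω => Z n ω ^ 2 | ℱ m] ≤ᵐ[μ] fun ω => C * Z m ω ^ 2) :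
    ∀ᵐ ω ∂μ, ∃ z, 0 < z ∧ Tendsto (fun n => Z n ω) atTop (𝓝 z) := by
  have hbint : ∀ f : Ω → ℝ, AEStronglyMeasurable f μ → (∃ B : ℝ, ∀ ω, |f ω| ≤ B) →
      Integrable f μ := by
    rintro f hf ⟨B, hB⟩
    exact Integrable.of_bound hf B (ae_of_all _ fun ω => by simpa using hB ω)
  have hme : ∀ n, AEStronglyMeasurable (Z n) μ := fun n =>
    ((hZ.stronglyMeasurable n).mono (ℱ.le n)).aestronglyMeasurable
  have hint : ∀ n, Integrable (Z n) μ := fun n => hZ.integrable n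
  obtain ⟨D, hD0, hD⟩ : ∃ D : ℝ, 0 < D ∧ C ≤ D := ⟨max C 1, by positivity, le_max_left _ _⟩
  have hC' : ∀ m n, m ≤ n → μ[fun ω => Z n ω ^ 2 | ℱ m] ≤ᵐ[μ] fun ω => D * Z m ω ^ 2 := by
    intro m n hmn
    filter_upwards [hC m n hmn] with ω hω
    exact hω.trans (mul_le_mul_of_nonneg_right hD (sq_nonneg _))
  choose Bd hBd using hb
  have habs : ∀ n ω, |Z n ω| ≤ Bd n := fun n ω => by rw [abs_of_pos (hpos n ω)]; exact hBd n ω
  have hBd0 : ∀ n ω, 0 ≤ Bd n := fun n ω => (abs_nonneg _).trans (habs n ω)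
  have hmulint : ∀ m n, Integrable (fun ω => Z m ω * Z n ω) μ := by
    intro m n
    refine hbint _ ((hme m).mul (hme n)) ⟨Bd m * Bd n, fun ω => ?_⟩
    rw [abs_mul]
    exact mul_le_mul (habs m ω) (habs n ω) (abs_nonneg _) (hBd0 m ω)
  have hsqint : ∀ n, Integrable (fun ω => Z n ω ^ 2) μ := by
    intro n
    simpa [sq] using hmulint n n
  -- convergence
  have hR : ∀ n, eLpNorm (Z n) 1 μ ≤ (Real.toNNReal (∫ ω, Z 0 ω ∂μ) : NNReal) := by
    intro n
    rw [eLpNorm_one_eq_lintegral_enorm, ← ofReal_integral_norm_eq_lintegral_enorm (hint n)]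
    rw [ENNReal.ofReal]
    refine ENNReal.coe_le_coe.2 (Real.toNNReal_le_toNNReal ?_)
    have h1 : ∫ ω, ‖Z n ω‖ ∂μ = ∫ ω, Z n ω ∂μ :=
      integral_congr_ae (ae_of_all _ fun ω => by simp [abs_of_pos (hpos n ω)])
    have h2 := hZ.setIntegral_eq (Nat.zero_le n) (MeasurableSet.univ (m := ℱ 0))
    rw [setIntegral_univ, setIntegral_univ] at h2
    rw [h1, h2]
  have hlim := hZ.submartingale.ae_tendsto_limitProcess hR
  have hYm : StronglyMeasurable[⨆ n, ℱ n] (ℱ.limitProcess Z μ) :=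
    Filtration.stronglyMeasurable_limitProcess
  set Y : Ω → ℝ := ℱ.limitProcess Z μ with hYdef
  have hsup : (⨆ n, ℱ n) ≤ mΩ := iSup_le fun n => ℱ.le n
  set A : Set Ω := {ω | 0 < Y ω} with hA
  have hAm : MeasurableSet[⨆ n, ℱ n] A := by
    have := hYm.measurable (measurableSet_Ioi (a := (0 : ℝ)))
    exact this
  set g : Ω → ℝ := A.indicator (fun _ => (1 : ℝ)) with hg
  have hgm : StronglyMeasurable[⨆ n, ℱ n] g := stronglyMeasurable_const.indicator hAm
  have hgb : ∀ ω, |g ω| ≤ 1 := by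
    intro ω
    by_cases h : ω ∈ A
    · simp [hg, h]
    · simp [hg, h]
  have hgint : Integrable g μ := hbint _ (hgm.mono hsup).aestronglyMeasurable ⟨1, hgb⟩
  -- the main estimate
  have hmain : ∀ m, ∀ B : Set Ω, MeasurableSet[ℱ m] B →
      ∫ ω in B, Z m ω ^ 2 ∂μ ≤ ∫ ω in B, D * Z m ω ^ 2 * g ω ∂μ := by
    intro m B hB
    have hBm : MeasurableSet B := ℱ.le m _ hB
    have hminint : ∀ f : Ω → ℝ, AEStronglyMeasurable f μ → (∀ᵐ ω ∂μ, 0 ≤ f ω) →
        Integrable (fun ω => Z m ω * min (D * Z m ω) (2 * f ω)) μ := by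
      intro f hf hf0
      refine Integrable.of_bound ((hme m).mul (((hme m).const_mul D).inf (hf.const_mul 2)))
        (Bd m * (D * Bd m)) ?_
      filter_upwards [hf0] with ω hω
      have h1 : 0 ≤ min (D * Z m ω) (2 * f ω) :=
        le_min (mul_nonneg hD0.le (hpos m ω).le) (by linarith)
      rw [Real.norm_eq_abs, abs_mul, abs_of_nonneg h1]
      exact mul_le_mul (habs m ω) ((min_le_left _ _).trans
        (mul_le_mul_of_nonneg_left (hBd m ω) hD0.le)) h1 (hBd0 m ω)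
    have hstep : ∀ n, m ≤ n → ∫ ω in B, Z m ω ^ 2 ∂μ ≤
        ∫ ω in B, Z m ω * min (D * Z m ω) (2 * Z n ω) ∂μ := by
      intro n hmn
      have h1 : ∫ ω in B, Z m ω * Z n ω ∂μ = ∫ ω in B, Z m ω ^ 2 ∂μ := by
        have h2 := condExp_stronglyMeasurable_mul_of_bound (ℱ.le m) (hZ.stronglyMeasurable m)
          (hint n) (Bd m) (ae_of_all μ fun ω => by simpa using habs m ω)
        have h3 : ∫ ω in B, (μ[Z m * Z n | ℱ m]) ω ∂μ = ∫ ω in B, (Z m * Z n) ω ∂μ :=
          setIntegral_condExp (ℱ.le m) (hmulint m n) hB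
        have h4 : ∫ ω in B, (μ[Z m * Z n | ℱ m]) ω ∂μ = ∫ ω in B, Z m ω ^ 2 ∂μ := by
          refine setIntegral_congr_ae hBm ?_
          filter_upwards [h2, hZ.condExp_ae_eq hmn] with ω h5 h6 _
          rw [h5, Pi.mul_apply, h6, sq]
        rw [← h4, h3]; rfl
      have h2 : ∫ ω in B, Z n ω ^ 2 ∂μ ≤ D * ∫ ω in B, Z m ω ^ 2 ∂μ := by
        rw [← setIntegral_condExp (ℱ.le m) (hsqint n) hB, ← integral_const_mul]
        refine setIntegral_mono_ae integrable_condExp.integrableOn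
          ((hsqint m).const_mul D).integrableOn ?_
        exact hC' m n hmn
      have h3 : ∫ ω in B, 2 * (Z m ω * Z n ω) ∂μ ≤
          ∫ ω in B, (D⁻¹ * Z n ω ^ 2 + Z m ω * min (D * Z m ω) (2 * Z n ω)) ∂μ := by
        refine setIntegral_mono ((hmulint m n).const_mul 2).integrableOn
          (((hsqint n).const_mul D⁻¹).add (hminint _ (hme n)
            (ae_of_all _ fun ω => (hpos n ω).le))).integrableOn fun ω => ?_
        change 2 * (Z m ω * Z n ω) ≤ D⁻¹ * Z n ω ^ 2 + Z m ω * min (D * Z m ω) (2 * Z n ω)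
        have hw := hpos m ω
        have hz := hpos n ω
        rcases min_choice (D * Z m ω) (2 * Z n ω) with h | h
        · rw [h]
          have h4 : D⁻¹ * Z n ω ^ 2 + Z m ω * (D * Z m ω) - 2 * (Z m ω * Z n ω)
              = D⁻¹ * (Z n ω - D * Z m ω) ^ 2 := by field_simp; ring
          have h5 : 0 ≤ D⁻¹ * (Z n ω - D * Z m ω) ^ 2 := by positivity
          linarith
        · rw [h]
          have h5 : 0 ≤ D⁻¹ * Z n ω ^ 2 := by positivity
          nlinarith
      rw [integral_const_mul, h1, integral_add ((hsqint n).const_mul D⁻¹).integrableOn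
        (hminint _ (hme n) (ae_of_all _ fun ω => (hpos n ω).le)).integrableOn,
        integral_const_mul] at h3
      have h6 : D⁻¹ * ∫ ω in B, Z n ω ^ 2 ∂μ ≤ ∫ ω in B, Z m ω ^ 2 ∂μ := by
        rw [inv_mul_le_iff₀ hD0]; exact h2
      linarith
    have hY0 : ∀ᵐ ω ∂μ, 0 ≤ Y ω := by
      filter_upwards [hlim] with ω hω
      exact ge_of_tendsto' hω fun n => (hpos n ω).le
    have hYme : AEStronglyMeasurable Y μ := (hYm.mono hsup).aestronglyMeasurable
    have htend : Tendsto (fun n => ∫ ω in B, Z m ω * min (D * Z m ω) (2 * Z n ω) ∂μ) atTop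
        (𝓝 (∫ ω in B, Z m ω * min (D * Z m ω) (2 * Y ω) ∂μ)) := by
      refine tendsto_integral_of_dominated_convergence (fun _ => Bd m * (D * Bd m))
        (fun n => (hminint _ (hme n)
          (ae_of_all _ fun ω => (hpos n ω).le)).integrableOn.aestronglyMeasurable)
        (integrable_const _) (fun n => ae_of_all _ fun ω => ?_) ?_
      · have h1 : 0 ≤ min (D * Z m ω) (2 * Z n ω) :=
          le_min (mul_nonneg hD0.le (hpos m ω).le) (by linarith [hpos n ω])
        rw [Real.norm_eq_abs, abs_mul, abs_of_nonneg h1]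
        exact mul_le_mul (habs m ω) ((min_le_left _ _).trans
          (mul_le_mul_of_nonneg_left (hBd m ω) hD0.le)) h1 (hBd0 m ω)
      · filter_upwards [ae_restrict_of_ae hlim] with ω hω
        exact (tendsto_const_nhds.min (hω.const_mul 2)).const_mul _
    have h1 : ∫ ω in B, Z m ω ^ 2 ∂μ ≤ ∫ ω in B, Z m ω * min (D * Z m ω) (2 * Y ω) ∂μ :=
      ge_of_tendsto htend (eventually_atTop.2 ⟨m, fun n hn => hstep n hn⟩)
    refine h1.trans ?_
    refine setIntegral_mono (hminint _ hYme hY0).integrableOn ?_ fun ω => ?_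
    · refine (hbint _ (((hsqint m).const_mul D).aestronglyMeasurable.mul
        hgint.aestronglyMeasurable) ⟨D * (Bd m) ^ 2, fun ω => ?_⟩).integrableOn
      rw [Pi.mul_apply, abs_mul, abs_mul, abs_of_pos hD0, abs_pow]
      calc D * |Z m ω| ^ 2 * |g ω| ≤ D * |Z m ω| ^ 2 * 1 :=
            mul_le_mul_of_nonneg_left (hgb ω) (by positivity)
        _ ≤ D * Bd m ^ 2 := by
            rw [mul_one]
            exact mul_le_mul_of_nonneg_left (pow_le_pow_left₀ (abs_nonneg _) (habs m ω) 2) hD0.le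
    · change Z m ω * min (D * Z m ω) (2 * Y ω) ≤ D * Z m ω ^ 2 * g ω
      have hw := hpos m ω
      by_cases h : ω ∈ A
      · have h2 : g ω = 1 := by simp [hg, h]
        rw [h2, mul_one]
        calc Z m ω * min (D * Z m ω) (2 * Y ω) ≤ Z m ω * (D * Z m ω) :=
              mul_le_mul_of_nonneg_left (min_le_left _ _) hw.le
          _ = D * Z m ω ^ 2 := by ring
      · have h2 : g ω = 0 := by simp [hg, h]
        rw [h2, mul_zero]
        have h3 : Y ω ≤ 0 := not_lt.1 h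
        exact mul_nonpos_of_nonneg_of_nonpos hw.le ((min_le_right _ _).trans (by linarith))
  -- the conditional probabilities
  have hce : ∀ m, ∀ᵐ ω ∂μ, D⁻¹ ≤ (μ[g | ℱ m]) ω := by
    intro m
    set B : Set Ω := {ω | (μ[g | ℱ m]) ω < D⁻¹} with hBdef
    have hB : MeasurableSet[ℱ m] B := by
      have := (stronglyMeasurable_condExp (f := g) (μ := μ) (m := ℱ m)).measurable
        (measurableSet_Iio (a := D⁻¹))
      exact this
    have hBm : MeasurableSet B := ℱ.le m _ hB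
    have hgi : Integrable (fun ω => D * Z m ω ^ 2 * g ω) μ := by
      refine hbint _ (((hsqint m).const_mul D).aestronglyMeasurable.mul
        hgint.aestronglyMeasurable) ⟨D * (Bd m) ^ 2, fun ω => ?_⟩
      rw [abs_mul, abs_mul, abs_of_pos hD0, abs_pow]
      calc D * |Z m ω| ^ 2 * |g ω| ≤ D * |Z m ω| ^ 2 * 1 :=
            mul_le_mul_of_nonneg_left (hgb ω) (by positivity)
        _ ≤ D * Bd m ^ 2 := by
            rw [mul_one]
            exact mul_le_mul_of_nonneg_left (pow_le_pow_left₀ (abs_nonneg _) (habs m ω) 2) hD0.le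
    have hpull := condExp_stronglyMeasurable_mul_of_bound (ℱ.le m)
      (((hZ.stronglyMeasurable m).pow 2).const_mul D) hgint (D * Bd m ^ 2)
      (ae_of_all μ fun ω => by
        simp only [Pi.pow_apply]
        rw [Real.norm_eq_abs, abs_mul, abs_of_pos hD0, abs_pow]
        exact mul_le_mul_of_nonneg_left (pow_le_pow_left₀ (abs_nonneg _) (habs m ω) 2) hD0.le)
    have h1 : ∫ ω in B, D * Z m ω ^ 2 * g ω ∂μ = ∫ ω in B, D * Z m ω ^ 2 * (μ[g | ℱ m]) ω ∂μ := by
      have h2 := setIntegral_condExp (ℱ.le m) (f := (fun ω => D * (Z m ^ 2) ω) * g) hgi hB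
      have h3 : ∫ ω in B, (μ[(fun ω => D * (Z m ^ 2) ω) * g | ℱ m]) ω ∂μ
          = ∫ ω in B, D * Z m ω ^ 2 * (μ[g | ℱ m]) ω ∂μ := by
        refine setIntegral_congr_ae hBm ?_
        filter_upwards [hpull] with ω h5 _
        rw [h5]; rfl
      rw [← h3, h2]; rfl
    have hci : Integrable (fun ω => D * Z m ω ^ 2 * (μ[g | ℱ m]) ω) μ := by
      have h2 : Integrable (μ[(fun ω => D * (Z m ^ 2) ω) * g | ℱ m]) μ := integrable_condExp
      exact h2.congr hpull
    have h2 := hmain m B hB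
    rw [h1] at h2
    have h3 : ∫ ω in B, (Z m ω ^ 2 - D * Z m ω ^ 2 * (μ[g | ℱ m]) ω) ∂μ ≤ 0 := by
      rw [integral_sub (hsqint m).integrableOn hci.integrableOn]; linarith
    have hposB : ∀ ω ∈ B, 0 < Z m ω ^ 2 - D * Z m ω ^ 2 * (μ[g | ℱ m]) ω := by
      intro ω hω
      have h4 : (μ[g | ℱ m]) ω < D⁻¹ := hω
      have h5 : 0 < Z m ω ^ 2 := pow_pos (hpos m ω) 2
      have h6 : D * (μ[g | ℱ m]) ω < 1 := by
        calc D * (μ[g | ℱ m]) ω < D * D⁻¹ := mul_lt_mul_of_pos_left h4 hD0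
          _ = 1 := mul_inv_cancel₀ hD0.ne'
      have h7 : Z m ω ^ 2 - D * Z m ω ^ 2 * (μ[g | ℱ m]) ω
          = Z m ω ^ 2 * (1 - D * (μ[g | ℱ m]) ω) := by ring
      rw [h7]
      exact mul_pos h5 (by linarith)
    have h4 : ¬ 0 < μ (Function.support (fun ω => Z m ω ^ 2 - D * Z m ω ^ 2 * (μ[g | ℱ m]) ω) ∩ B) := by
      rw [← setIntegral_pos_iff_support_of_nonneg_ae ?_ ?_]
      · exact not_lt.2 h3
      · filter_upwards [ae_restrict_mem hBm] with ω hω
        exact (hposB ω hω).le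
      · exact ((hsqint m).sub hci).integrableOn
    have h5 : μ B = 0 := by
      have h6 : B ⊆ Function.support (fun ω => Z m ω ^ 2 - D * Z m ω ^ 2 * (μ[g | ℱ m]) ω) ∩ B :=
        fun ω hω => ⟨(hposB ω hω).ne', hω⟩
      exact measure_mono_null h6 (by simpa using h4)
    rw [ae_iff]
    simpa [hBdef] using h5
  have hlevy := hgint.tendsto_ae_condExp (ℱ := ℱ) hgm
  filter_upwards [hlim, hlevy, ae_all_iff.2 hce] with ω h1 h2 h3
  have h4 : D⁻¹ ≤ g ω := ge_of_tendsto' h2 h3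
  have h5 : ω ∈ A := by
    by_contra h
    have h6 : g ω = 0 := by simp [hg, h]
    rw [h6] at h4
    exact absurd h4 (not_le.2 (inv_pos.2 hD0))
  exact ⟨Y ω, h5, h1⟩

end Pool.Agent.T2H44.RS
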