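import Pool.Agent.T2H44.RS.A0
import Pool.Agent.T2H44.RS.POS

set_option autoImplicit false

/-!
# RS, package A1: the normalised number of facets converges to a positive limit

Let `c = C(d, 2) = d (d - 1) / 2`, `E n = F 2 n ≥ 1`, `P n = Pr d F n`, `Z n = F d n / P n`. `P (n+1) = P n (1 + c / E n)` is
`ℱ n`-measurable, `1 ≤ P n`. By `mean` and `top` (`F (d+1) = 0`): `μ[F d (n+1) | ℱ n] = F d n (1 + c / E n)`, so
`μ[Z (n+1) | ℱ n] = Z n` (pull out the bounded `ℱ n`-measurable factor `1 / P (n+1)`), and `Z` is a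
martingale (`martingale_nat`).
`U n = V n / P n ^ 2` is a supermartingale: by `Vstep`, `d (d - 1) = 2 c`, and
`1 + 2 c / E ≤ (1 + c / E)^2`, `μ[V (n+1) | ℱ n] ≤ (1 + c / E n)^2 V n` (`H, V ≥ 0`). Hence for `m ≤ n`
`μ[Z n ^ 2 | ℱ m] ≤ μ[U n | ℱ m] ≤ U m ≤ C Z m ^ 2`. Apply `pos_limit`.
-/

namespace Pool.Agent.T2H44.RS

open Finset Filter Topology MeasureTheory

theorem top_limit {Ω : Type} {mΩ : MeasurableSpace Ω} {d : ℕ} {μ : Measure Ω}
    [IsProbabilityMeasure μ] {ℱ : Filtration ℕ mΩ} {F : ℕ → ℕ → Ω → ℝ} {H V : ℕ → Ω → ℝ} {C : ℝ}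
    (hd : 2 ≤ d) (h : Sys d μ ℱ F H V C) :
    ∀ᵐ ω ∂μ, ∃ z, 0 < z ∧ Tendsto (fun n => F d n ω / Pr d F n ω) atTop (𝓝 z) := by
  set Z : ℕ → Ω → ℝ := fun n ω => F d n ω / Pr d F n ω with hZ
  set U : ℕ → Ω → ℝ := fun n ω => V n ω / Pr d F n ω ^ 2 with hU
  have hFd : ∀ n ω, 1 ≤ F d n ω := fun n ω => h.one_le d (by omega) le_rfl n ω
  have hP1 := fun n ω => h.one_le_Pr hd n ω
  have hP0 : ∀ n ω, 0 < Pr d F n ω := fun n ω => by linarith [hP1 n ω]
  have hZm : ∀ n, StronglyMeasurable[ℱ n] (Z n) := fun n =>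
    stronglyMeasurable_div' (h.adF d n) (h.Pr_meas (Nat.le_succ n))
  have hUm : ∀ n, StronglyMeasurable[ℱ n] (U n) := fun n =>
    stronglyMeasurable_div' (h.adV n) ((h.Pr_meas (Nat.le_succ n)).pow 2)
  have hZb : ∀ n, ∃ B : ℝ, ∀ ω, |Z n ω| ≤ B := fun n => bdd_div (h.F_bdd d n) (hP1 n)
  have hUb : ∀ n, ∃ B : ℝ, ∀ ω, |U n ω| ≤ B := fun n =>
    bdd_div (g := fun ω => Pr d F n ω ^ 2) (h.V_bdd n) fun ω => one_le_pow₀ (hP1 n ω)
  have hZi : ∀ n, Integrable (Z n) μ := fun n => int_of_bdd (ℱ.le n) (hZm n) (hZb n)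
  have hUi : ∀ n, Integrable (U n) μ := fun n => int_of_bdd (ℱ.le n) (hUm n) (hUb n)
  have hZ0 : ∀ n ω, 0 < Z n ω := fun n ω => div_pos (by linarith [hFd n ω]) (hP0 n ω)
  have hmart : Martingale Z ℱ μ := by
    refine martingale_nat hZm hZi fun n => ?_
    have hWm : StronglyMeasurable[ℱ n] (fun ω => 1 / Pr d F (n + 1) ω) :=
      stronglyMeasurable_div' stronglyMeasurable_const (h.Pr_meas le_rfl)
    have hWb : ∃ B : ℝ, ∀ ω, |1 / Pr d F (n + 1) ω| ≤ B :=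
      bdd_div (f := fun _ => (1 : ℝ)) ⟨1, fun ω => by simp⟩ (hP1 (n + 1))
    have hFi : Integrable (F d (n + 1)) μ :=
      int_of_bdd (ℱ.le _) (h.adF d (n + 1)) (h.F_bdd d (n + 1))
    have h1 := pull (ℱ.le n) hWm hWb hFi
    have h2 : Z (n + 1) = fun ω => 1 / Pr d F (n + 1) ω * F d (n + 1) ω := by
      funext ω; simp only [hZ]; ring
    rw [h2]
    filter_upwards [h1, h.mean d (by omega) n] with ω h3 h4
    rw [h3, h4, h.top (d + 1) (by omega), Pr_succ]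
    have hE0 : 0 < F 2 n ω := by linarith [h.E_ge hd n ω]
    have hc : (0 : ℝ) ≤ (d.choose 2 : ℝ) := Nat.cast_nonneg _
    have hP := hP0 n ω
    have hs : F 2 n ω + (d.choose 2 : ℝ) ≠ 0 := by positivity
    simp only [hZ]
    rw [mul_zero, add_zero]
    field_simp
  have hsuper : Supermartingale U ℱ μ := by
    refine supermartingale_nat hUm hUi fun n => ?_
    filter_upwards [h.step hd n] with ω h1
    refine h1.trans ?_
    have h2 : 0 ≤ H n ω / (F 2 n ω * Pr d F (n + 1) ω ^ 2) := by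
      have := h.H_nonneg n ω
      have hE0 : 0 < F 2 n ω := by linarith [h.E_ge hd n ω]
      have := hP0 (n + 1) ω
      positivity
    change V n ω / Pr d F n ω ^ 2 - _ ≤ V n ω / Pr d F n ω ^ 2
    linarith
  refine pos_limit μ ℱ Z hmart hZ0 (fun n => ?_) C fun m n hmn => ?_
  · obtain ⟨B, hB⟩ := hZb n
    exact ⟨B, fun ω => (le_abs_self _).trans (hB ω)⟩
  · have hZ2 : Integrable (fun ω => Z n ω ^ 2) μ := by
      have := int_of_bdd (ℱ.le n) ((hZm n).mul (hZm n)) (bdd_mul (hZb n) (hZb n)) (μ := μ)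
      refine this.congr (ae_of_all _ fun ω => ?_)
      change Z n ω * Z n ω = Z n ω ^ 2
      ring
    have h1 : μ[fun ω => Z n ω ^ 2 | ℱ m] ≤ᵐ[μ] μ[U n | ℱ m] := by
      refine condExp_mono hZ2 (hUi n) (ae_of_all _ fun ω => ?_)
      change (F d n ω / Pr d F n ω) ^ 2 ≤ V n ω / Pr d F n ω ^ 2
      rw [div_pow]
      exact div_le_div_of_nonneg_right (h.V_ge n ω) (by positivity)
    filter_upwards [h1, hsuper.condExp_ae_le hmn] with ω h2 h3
    refine (h2.trans h3).trans ?_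
    change V m ω / Pr d F m ω ^ 2 ≤ C * (F d m ω / Pr d F m ω) ^ 2
    rw [div_pow, ← mul_div_assoc]
    exact div_le_div_of_nonneg_right (h.V_le m ω) (by positivity)

end Pool.Agent.T2H44.RS
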