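import Mathlib

set_option autoImplicit false

/-!
# RS, package L2C: convergence of sums of martingale differences

`M n = ∑_{j < n} m j` is a martingale, `E M n ^ 2 = ∑_{j < n} E (m j) ^ 2 ≤ K` (orthogonality: by induction,
`E (M n · m n) = E (M n · E[m n | ℱ n]) = 0`; all functions are bounded), so `E |M n| ≤ 1 + K`, and the
a.e. martingale convergence theorem `Submartingale.exists_ae_tendsto_of_bdd` applies.
-/

namespace Pool.Agent.T2H44.RS

open Finset Filter Topology MeasureTheory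

theorem l2c {Ω : Type} {mΩ : MeasurableSpace Ω} (μ : Measure Ω) [IsProbabilityMeasure μ]
    (ℱ : Filtration ℕ mΩ) (m : ℕ → Ω → ℝ) (hm : ∀ n, StronglyMeasurable[ℱ (n + 1)] (m n))
    (hb : ∀ n, ∃ B : ℝ, ∀ ω, |m n ω| ≤ B) (h0 : ∀ n, μ[m n | ℱ n] =ᵐ[μ] 0) (K : ℝ)
    (hK : ∀ n, ∑ j ∈ range n, ∫ ω, (m j ω) ^ 2 ∂μ ≤ K) :
    ∀ᵐ ω ∂μ, ∃ l, Tendsto (fun n => ∑ j ∈ range n, m j ω) atTop (𝓝 l) := by
  have hbint : ∀ f : Ω → ℝ, AEStronglyMeasurable f μ → (∃ B : ℝ, ∀ ω, |f ω| ≤ B) →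
      Integrable f μ := by
    rintro f hf ⟨B, hB⟩
    exact Integrable.of_bound hf B (ae_of_all _ fun ω => by simpa using hB ω)
  have hme : ∀ n, AEStronglyMeasurable (m n) μ := fun n =>
    ((hm n).mono (ℱ.le _)).aestronglyMeasurable
  have hint : ∀ n, Integrable (m n) μ := fun n => hbint _ (hme n) (hb n)
  set M : ℕ → Ω → ℝ := fun n ω => ∑ j ∈ range n, m j ω with hMdef
  have hMs : ∀ n, M (n + 1) = M n + m n := by
    intro n; funext ω; simp [hMdef, sum_range_succ]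
  have hMm : ∀ n, StronglyMeasurable[ℱ n] (M n) := by
    intro n
    induction n with
    | zero =>
      have : M 0 = fun _ => 0 := by funext ω; simp [hMdef]
      rw [this]; exact stronglyMeasurable_const
    | succ n ih =>
      rw [hMs]
      exact (ih.mono (ℱ.mono (Nat.le_succ n))).add (hm n)
  have hMb : ∀ n, ∃ B : ℝ, ∀ ω, |M n ω| ≤ B := by
    intro n
    induction n with
    | zero => exact ⟨0, fun ω => by simp [hMdef]⟩
    | succ n ih =>
      obtain ⟨B, hB⟩ := ih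
      obtain ⟨B', hB'⟩ := hb n
      refine ⟨B + B', fun ω => ?_⟩
      rw [hMs]
      exact (abs_add_le _ _).trans (add_le_add (hB ω) (hB' ω))
  have hMme : ∀ n, AEStronglyMeasurable (M n) μ := fun n =>
    ((hMm n).mono (ℱ.le _)).aestronglyMeasurable
  have hMint : ∀ n, Integrable (M n) μ := fun n => hbint _ (hMme n) (hMb n)
  have hmart : Martingale M ℱ μ := by
    refine martingale_nat hMm hMint fun i => ?_
    rw [hMs]
    have h1 := condExp_add (hMint i) (hint i) (ℱ i)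
    have h2 : μ[M i | ℱ i] = M i := condExp_of_stronglyMeasurable (ℱ.le i) (hMm i) (hMint i)
    filter_upwards [h1, h0 i] with ω h3 h4
    rw [h3, Pi.add_apply, h2, h4]; simp
  have hcross : ∀ n, ∫ ω, M n ω * m n ω ∂μ = 0 := by
    intro n
    obtain ⟨B, hB⟩ := hMb n
    have h1 := condExp_stronglyMeasurable_mul_of_bound (ℱ.le n) (hMm n) (hint n) B
      (ae_of_all μ fun ω => by simpa using hB ω)
    have h2 : ∫ ω, (μ[M n * m n | ℱ n]) ω ∂μ = ∫ ω, (M n * m n) ω ∂μ := integral_condExp (ℱ.le n)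
    have h3 : ∫ ω, (μ[M n * m n | ℱ n]) ω ∂μ = ∫ ω, (0 : ℝ) ∂μ := by
      refine integral_congr_ae ?_
      filter_upwards [h1, h0 n] with ω h4 h5
      rw [h4, Pi.mul_apply, h5]; simp
    rw [h2] at h3
    simpa using h3
  have hsqint : ∀ f : Ω → ℝ, AEStronglyMeasurable f μ → (∃ B : ℝ, ∀ ω, |f ω| ≤ B) →
      Integrable (fun ω => f ω ^ 2) μ := by
    rintro f hf ⟨B, hB⟩
    refine hbint _ (hf.pow 2) ⟨B ^ 2, fun ω => ?_⟩
    rw [abs_pow]
    exact pow_le_pow_left₀ (abs_nonneg _) (hB ω) 2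
  have hmulint : ∀ n, Integrable (fun ω => M n ω * m n ω) μ := by
    intro n
    obtain ⟨B, hB⟩ := hMb n
    obtain ⟨B', hB'⟩ := hb n
    refine hbint _ ((hMme n).mul (hme n)) ⟨B * B', fun ω => ?_⟩
    rw [abs_mul]
    exact mul_le_mul (hB ω) (hB' ω) (abs_nonneg _) ((abs_nonneg _).trans (hB ω))
  have hsq : ∀ n, ∫ ω, M n ω ^ 2 ∂μ = ∑ j ∈ range n, ∫ ω, (m j ω) ^ 2 ∂μ := by
    intro n
    induction n with
    | zero => simp [hMdef]
    | succ n ih =>
      rw [sum_range_succ, ← ih]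
      have h1 : (fun ω => M (n + 1) ω ^ 2)
          = fun ω => (M n ω ^ 2 + 2 * (M n ω * m n ω)) + m n ω ^ 2 := by
        funext ω; rw [hMs, Pi.add_apply]; ring
      have h2 : Integrable (fun ω => M n ω ^ 2 + 2 * (M n ω * m n ω)) μ :=
        (hsqint _ (hMme n) (hMb n)).add ((hmulint n).const_mul 2)
      rw [h1, integral_add h2 (hsqint _ (hme n) (hb n)), integral_add (hsqint _ (hMme n) (hMb n))
        ((hmulint n).const_mul 2), integral_const_mul, hcross]
      ring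
  have hR : ∀ n, eLpNorm (M n) 1 μ ≤ (Real.toNNReal (1 + K) : NNReal) := by
    intro n
    rw [eLpNorm_one_eq_lintegral_enorm, ← ofReal_integral_norm_eq_lintegral_enorm (hMint n)]
    rw [ENNReal.ofReal]
    refine ENNReal.coe_le_coe.2 (Real.toNNReal_le_toNNReal ?_)
    calc ∫ ω, ‖M n ω‖ ∂μ ≤ ∫ ω, (1 + M n ω ^ 2) ∂μ := by
          refine integral_mono (hMint n).norm
            ((integrable_const 1).add (hsqint _ (hMme n) (hMb n))) fun ω => ?_
          change ‖M n ω‖ ≤ 1 + M n ω ^ 2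
          rw [Real.norm_eq_abs, ← sq_abs (M n ω)]
          nlinarith [sq_nonneg (|M n ω| - 1), sq_nonneg (|M n ω|)]
      _ = 1 + ∫ ω, M n ω ^ 2 ∂μ := by
          rw [integral_add (integrable_const 1) (hsqint _ (hMme n) (hMb n))]; simp
      _ ≤ 1 + K := by rw [hsq]; linarith [hK n]
  exact hmart.submartingale.exists_ae_tendsto_of_bdd hR

end Pool.Agent.T2H44.RS
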