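import Pool.Agent.T2H44.RS.A0
import Pool.Agent.T2H44.RS.L2C

set_option autoImplicit false

/-!
# RS, package A2: convergence of the noise

Notation as in `A1.lean`. `noise d F i n` is `ℱ (n+1)`-measurable and bounded, with conditional
expectation `0` given `ℱ n` (by `mean`; `1 / P (n+1)` is `ℱ n`-measurable and bounded). Its conditional second
moment is at most `μ[(F i (n+1) - F i n)^2 | ℱ n] / P (n+1)^2 ≤ C H n / (E n P (n+1)^2)` (a variance is at most the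
second moment; `var`). By `Vstep` and `1 + 2 c / E ≤ (1 + c / E)^2`:
`μ[V (n+1) / P (n+1)^2 | ℱ n] ≤ V n / P n ^ 2 - H n / (E n P (n+1)^2)`, so (taking integrals and summing)
`∑_{j < n} ∫ H j / (E j P (j+1)^2) ≤ ∫ V 0`. Apply `l2c` with `K = |C| ∫ V 0` (`C ≥ 0`: `1 ≤ F d ≤ C F d`).
-/

namespace Pool.Agent.T2H44.RS

open Finset Filter Topology MeasureTheory

theorem noise_limit {Ω : Type} {mΩ : MeasurableSpace Ω} {d : ℕ} {μ : Measure Ω}
    [IsProbabilityMeasure μ] {ℱ : Filtration ℕ mΩ} {F : ℕ → ℕ → Ω → ℝ} {H V : ℕ → Ω → ℝ} {C : ℝ}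
    (hd : 2 ≤ d) (h : Sys d μ ℱ F H V C) (i : ℕ) (hi : 1 ≤ i) :
    ∀ᵐ ω ∂μ, ∃ l, Tendsto (fun n => ∑ j ∈ range n, noise d F i j ω) atTop (𝓝 l) := by
  have hP1 := fun n ω => h.one_le_Pr hd n ω
  have hP0 : ∀ n ω, 0 < Pr d F n ω := fun n ω => by linarith [hP1 n ω]
  -- the conditional mean of the increment
  set G : ℕ → Ω → ℝ := fun n ω =>
    ((i.choose 2 : ℝ) * F i n ω + ((i + 1).choose 2 : ℝ) * F (i + 1) n ω) / F 2 n ω with hG
  set D : ℕ → Ω → ℝ := fun n ω => F i (n + 1) ω - F i n ω with hD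
  set W : ℕ → Ω → ℝ := fun n ω => 1 / Pr d F (n + 1) ω with hW
  have hGm : ∀ n, StronglyMeasurable[ℱ n] (G n) := fun n =>
    stronglyMeasurable_div' (((h.adF i n).const_mul _).add ((h.adF (i + 1) n).const_mul _))
      (h.adF 2 n)
  have hcb : ∀ c : ℝ, ∃ B : ℝ, ∀ _ω : Ω, |c| ≤ B := fun c => ⟨|c|, fun _ => le_rfl⟩
  have hGb : ∀ n, ∃ B : ℝ, ∀ ω, |G n ω| ≤ B := fun n =>
    bdd_div (bdd_add (bdd_mul (hcb _) (h.F_bdd i n)) (bdd_mul (hcb _) (h.F_bdd (i + 1) n)))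
      (h.E_ge hd n)
  have hDm : ∀ n, StronglyMeasurable[ℱ (n + 1)] (D n) := fun n =>
    (h.adF i (n + 1)).sub ((h.adF i n).mono (ℱ.mono (Nat.le_succ n)))
  have hDb : ∀ n, ∃ B : ℝ, ∀ ω, |D n ω| ≤ B := fun n =>
    bdd_sub (h.F_bdd i (n + 1)) (h.F_bdd i n)
  have hWm : ∀ n, StronglyMeasurable[ℱ n] (W n) := fun n =>
    stronglyMeasurable_div' stronglyMeasurable_const (h.Pr_meas le_rfl)
  have hWb : ∀ n, ∃ B : ℝ, ∀ ω, |W n ω| ≤ B := fun n =>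
    bdd_div (f := fun _ => (1 : ℝ)) ⟨1, fun ω => by simp⟩ (hP1 (n + 1))
  have hle : ∀ n, ℱ n ≤ ℱ (n + 1) := fun n => ℱ.mono (Nat.le_succ n)
  have hnoise : ∀ n, noise d F i n = fun ω => W n ω * (D n ω - G n ω) := by
    intro n; funext ω; simp only [noise, hW, hD, hG]; ring
  have hm : ∀ n, StronglyMeasurable[ℱ (n + 1)] (noise d F i n) := by
    intro n
    rw [hnoise]
    exact ((hWm n).mono (hle n)).mul ((hDm n).sub ((hGm n).mono (hle n)))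
  have hb : ∀ n, ∃ B : ℝ, ∀ ω, |noise d F i n ω| ≤ B := by
    intro n
    rw [hnoise]
    exact bdd_mul (hWb n) (bdd_sub (hDb n) (hGb n))
  have hDi : ∀ n, Integrable (D n) μ := fun n => int_of_bdd (ℱ.le _) (hDm n) (hDb n)
  have hGi : ∀ n, Integrable (G n) μ := fun n => int_of_bdd (ℱ.le _) (hGm n) (hGb n)
  have hDc : ∀ n, μ[D n | ℱ n] =ᵐ[μ] G n := by
    intro n
    have hFi : Integrable (F i (n + 1)) μ :=
      int_of_bdd (ℱ.le _) (h.adF i (n + 1)) (h.F_bdd i (n + 1))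
    have hFi' : Integrable (F i n) μ := int_of_bdd (ℱ.le _) (h.adF i n) (h.F_bdd i n)
    have h1 := condExp_sub hFi hFi' (ℱ n)
    have h2 : μ[F i n | ℱ n] = F i n := condExp_of_stronglyMeasurable (ℱ.le n) (h.adF i n) hFi'
    filter_upwards [h1, h.mean i hi n] with ω h3 h4
    have h5 : (μ[D n | ℱ n]) ω = (μ[F i (n + 1) - F i n | ℱ n]) ω := rfl
    rw [h5, h3, Pi.sub_apply, h4, h2]
    simp only [hG]; ring
  have h0 : ∀ n, μ[noise d F i n | ℱ n] =ᵐ[μ] 0 := by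
    intro n
    rw [hnoise]
    have h1 := pull (ℱ.le n) (hWm n) (hWb n) ((hDi n).sub (hGi n))
    have h2 := condExp_sub (hDi n) (hGi n) (ℱ n)
    have h3 : μ[G n | ℱ n] = G n := condExp_of_stronglyMeasurable (ℱ.le n) (hGm n) (hGi n)
    filter_upwards [h1, h2, hDc n] with ω h4 h5 h6
    have h7 : (μ[fun ω => W n ω * (D n ω - G n ω) | ℱ n]) ω
        = (μ[fun ω => W n ω * (D n - G n) ω | ℱ n]) ω := rfl
    rw [h7, h4, h5, Pi.sub_apply, h6, h3]; simp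
  -- the second moments
  set h' : ℕ → Ω → ℝ := fun n ω => H n ω / (F 2 n ω * Pr d F (n + 1) ω ^ 2) with hh'
  set U : ℕ → Ω → ℝ := fun n ω => V n ω / Pr d F n ω ^ 2 with hU
  have hUm : ∀ n, StronglyMeasurable[ℱ n] (U n) := fun n =>
    stronglyMeasurable_div' (h.adV n) ((h.Pr_meas (Nat.le_succ n)).pow 2)
  have hUb : ∀ n, ∃ B : ℝ, ∀ ω, |U n ω| ≤ B := fun n =>
    bdd_div (g := fun ω => Pr d F n ω ^ 2) (h.V_bdd n) fun ω => one_le_pow₀ (hP1 n ω)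
  have hUi : ∀ n, Integrable (U n) μ := fun n => int_of_bdd (ℱ.le n) (hUm n) (hUb n)
  have hh'm : ∀ n, StronglyMeasurable[ℱ n] (h' n) := fun n =>
    stronglyMeasurable_div' (h.adH n) ((h.adF 2 n).mul ((h.Pr_meas le_rfl).pow 2))
  have hden : ∀ n ω, 1 ≤ F 2 n ω * Pr d F (n + 1) ω ^ 2 := fun n ω => by
    have h1 := h.E_ge hd n ω
    have h2 : 1 ≤ Pr d F (n + 1) ω ^ 2 := one_le_pow₀ (hP1 (n + 1) ω)
    nlinarith
  have hh'b : ∀ n, ∃ B : ℝ, ∀ ω, |h' n ω| ≤ B := fun n => bdd_div (h.H_bdd n) (hden n)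
  have hh'i : ∀ n, Integrable (h' n) μ := fun n => int_of_bdd (ℱ.le n) (hh'm n) (hh'b n)
  have hh'0 : ∀ n, 0 ≤ ∫ ω, h' n ω ∂μ := fun n => integral_nonneg fun ω =>
    div_nonneg (h.H_nonneg n ω) (by linarith [hden n ω])
  have hU0 : ∀ n, 0 ≤ ∫ ω, U n ω ∂μ := fun n => integral_nonneg fun ω =>
    div_nonneg ((sq_nonneg _).trans (h.V_ge n ω)) (by have := hP0 n ω; positivity)
  have hstep : ∀ n, ∫ ω, U (n + 1) ω ∂μ ≤ ∫ ω, U n ω ∂μ - ∫ ω, h' n ω ∂μ := by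
    intro n
    rw [← integral_sub (hUi n) (hh'i n), ← integral_condExp (ℱ.le n) (f := U (n + 1))]
    exact integral_mono_ae integrable_condExp ((hUi n).sub (hh'i n)) (h.step hd n)
  have hsum : ∀ n, ∑ j ∈ range n, ∫ ω, h' j ω ∂μ ≤ ∫ ω, U 0 ω ∂μ - ∫ ω, U n ω ∂μ := by
    intro n
    induction n with
    | zero => simp
    | succ n ih =>
      rw [sum_range_succ]
      linarith [hstep n]
  -- the second moment of the noise
  have hD2m : ∀ n, StronglyMeasurable[ℱ (n + 1)] (fun ω => D n ω ^ 2) := fun n => (hDm n).pow 2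
  have hsqb : ∀ f : Ω → ℝ, (∃ B : ℝ, ∀ ω, |f ω| ≤ B) → ∃ B : ℝ, ∀ ω, |f ω ^ 2| ≤ B := by
    intro f hf
    obtain ⟨B, hB⟩ := bdd_mul hf hf
    exact ⟨B, fun ω => by rw [sq]; exact hB ω⟩
  have hD2i : ∀ n, Integrable (fun ω => D n ω ^ 2) μ := fun n =>
    int_of_bdd (ℱ.le _) (hD2m n) (hsqb _ (hDb n))
  have hsec : ∀ n, ∫ ω, (noise d F i n ω) ^ 2 ∂μ ≤ |C| * ∫ ω, h' n ω ∂μ := by
    intro n
    -- `∫ W^2 D^2 ≤ C ∫ h'`
    have hW2m : StronglyMeasurable[ℱ n] (fun ω => W n ω ^ 2) := (hWm n).pow 2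
    have hW2b := hsqb _ (hWb n)
    have hWGm : StronglyMeasurable[ℱ n] (fun ω => W n ω ^ 2 * G n ω) := hW2m.mul (hGm n)
    have hWGb := bdd_mul hW2b (hGb n)
    have hWG2m : StronglyMeasurable[ℱ n] (fun ω => W n ω ^ 2 * G n ω ^ 2) :=
      hW2m.mul ((hGm n).pow 2)
    have hWG2b := bdd_mul hW2b (hsqb _ (hGb n))
    have i1 : Integrable (fun ω => W n ω ^ 2 * D n ω ^ 2) μ :=
      int_of_bdd (ℱ.le _) ((hW2m.mono (hle n)).mul (hD2m n)) (bdd_mul hW2b (hsqb _ (hDb n)))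
    have i2 : Integrable (fun ω => W n ω ^ 2 * G n ω * D n ω) μ :=
      int_of_bdd (ℱ.le _) ((hWGm.mono (hle n)).mul (hDm n)) (bdd_mul hWGb (hDb n))
    have i3 : Integrable (fun ω => W n ω ^ 2 * G n ω ^ 2) μ :=
      int_of_bdd (ℱ.le _) hWG2m hWG2b
    have e1 : ∫ ω, W n ω ^ 2 * D n ω ^ 2 ∂μ ≤ ∫ ω, C * h' n ω ∂μ := by
      rw [← integral_condExp (ℱ.le n) (f := fun ω => W n ω ^ 2 * D n ω ^ 2)]
      refine integral_mono_ae integrable_condExp ((hh'i n).const_mul C) ?_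
      filter_upwards [pull (ℱ.le n) hW2m hW2b (hD2i n), h.var i hi n] with ω h1 h2
      rw [h1]
      have hE0 : 0 < F 2 n ω := by linarith [h.E_ge hd n ω]
      have hp := hP0 (n + 1) ω
      calc W n ω ^ 2 * (μ[fun ω => D n ω ^ 2 | ℱ n]) ω ≤ W n ω ^ 2 * (C * H n ω / F 2 n ω) :=
            mul_le_mul_of_nonneg_left h2 (sq_nonneg _)
        _ = C * h' n ω := by
            simp only [hW, hh']
            field_simp
    have e2 : ∫ ω, W n ω ^ 2 * G n ω * D n ω ∂μ = ∫ ω, W n ω ^ 2 * G n ω ^ 2 ∂μ := by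
      rw [← integral_condExp (ℱ.le n) (f := fun ω => W n ω ^ 2 * G n ω * D n ω)]
      refine integral_congr_ae ?_
      filter_upwards [pull (ℱ.le n) hWGm hWGb (hDi n), hDc n] with ω h1 h2
      rw [h1, h2]; ring
    have e3 : 0 ≤ ∫ ω, W n ω ^ 2 * G n ω ^ 2 ∂μ := integral_nonneg fun ω => by positivity
    have e4 : (fun ω => noise d F i n ω ^ 2) = fun ω =>
        W n ω ^ 2 * D n ω ^ 2 - 2 * (W n ω ^ 2 * G n ω * D n ω) + W n ω ^ 2 * G n ω ^ 2 := by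
      funext ω; rw [hnoise]; ring
    have i4 : Integrable (fun ω => W n ω ^ 2 * D n ω ^ 2 - 2 * (W n ω ^ 2 * G n ω * D n ω)) μ :=
      i1.sub (i2.const_mul 2)
    rw [e4, integral_add i4 i3, integral_sub i1 (i2.const_mul 2), integral_const_mul, e2]
    rw [integral_const_mul] at e1
    have e5 : C * ∫ ω, h' n ω ∂μ ≤ |C| * ∫ ω, h' n ω ∂μ :=
      mul_le_mul_of_nonneg_right (le_abs_self C) (hh'0 n)
    linarith
  refine l2c μ ℱ (noise d F i) hm hb h0 (|C| * ∫ ω, U 0 ω ∂μ) fun n => ?_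
  calc ∑ j ∈ range n, ∫ ω, (noise d F i j ω) ^ 2 ∂μ
      ≤ ∑ j ∈ range n, |C| * ∫ ω, h' j ω ∂μ := sum_le_sum fun j _ => hsec j
    _ = |C| * ∑ j ∈ range n, ∫ ω, h' j ω ∂μ := by rw [mul_sum]
    _ ≤ |C| * ∫ ω, U 0 ω ∂μ := by
        refine mul_le_mul_of_nonneg_left ?_ (abs_nonneg C)
        linarith [hsum n, hU0 n]

end Pool.Agent.T2H44.RS
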