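import Mathlib

set_option autoImplicit false

/-!
# RS, package RL: a linear recursion with vanishing noise

Proof. Let `l` be the limit of `S n = ∑_{j < n} m j` and `y n = x n + (l - S n)`. Then
`y (n+1) = (1 - κ δ n) y n + δ n (b n + κ (l - S n))`, and `b' n = b n + κ (l - S n) → β`. Let `z n = y n - β / κ`:
`z (n+1) = (1 - κ δ n) z n + κ δ n ε n` with `ε n = (b' n - β) / κ → 0`. Given `ε > 0` let `|ε n| ≤ ε` for `n ≥ N`; then
`max (|z (n+1)| - ε) 0 ≤ (1 - κ δ n) max (|z n| - ε) 0`, and `∏ (1 - κ δ n) → 0` as `∑ δ n = ∞`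
(`1 - t ≤ exp (-t)`). So `limsup |z n| ≤ ε`.
-/

namespace Pool.Agent.T2H44.RS

open Finset Filter Topology

theorem rl (κ : ℝ) (hκ : 0 < κ) (δ : ℕ → ℝ) (hδ : ∀ n, 0 < δ n) (hδ1 : ∀ n, κ * δ n ≤ 1)
    (hsum : ¬ Summable δ) (x b m : ℕ → ℝ) (β : ℝ) (hb : Tendsto b atTop (𝓝 β))
    (hm : ∃ l, Tendsto (fun n => ∑ j ∈ range n, m j) atTop (𝓝 l))
    (hx : ∀ n, x (n + 1) = (1 - κ * δ n) * x n + δ n * b n + m n) :
    Tendsto x atTop (𝓝 (β / κ)) := by
  obtain ⟨l, hl⟩ := hm
  have hD : Tendsto (fun n => ∑ j ∈ range n, δ j) atTop atTop :=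
    (not_summable_iff_tendsto_nat_atTop_of_nonneg (fun n => (hδ n).le)).1 hsum
  set S : ℕ → ℝ := fun n => ∑ j ∈ range n, m j with hS
  have hSn : ∀ n, S (n + 1) = S n + m n := fun n => by simp only [hS]; rw [sum_range_succ]
  have hlS : Tendsto (fun n => l - S n) atTop (𝓝 0) := by
    have := hl.const_sub l
    rwa [sub_self] at this
  set z : ℕ → ℝ := fun n => x n + (l - S n) - β / κ with hz
  set e : ℕ → ℝ := fun n => b n + κ * (l - S n) - β with he
  have he0 : Tendsto e atTop (𝓝 0) := by
    have := (hb.add (hlS.const_mul κ)).sub_const β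
    simpa using this
  have hrec : ∀ n, z (n + 1) = (1 - κ * δ n) * z n + δ n * e n := by
    intro n
    simp only [hz, he]
    rw [hx, hSn]
    field_simp
    ring
  have hz0 : Tendsto z atTop (𝓝 0) := by
    rw [Metric.tendsto_atTop]
    intro ε hε
    obtain ⟨N, hN⟩ := (Metric.tendsto_atTop.1 he0) (κ * (ε / 2)) (by positivity)
    have hN' : ∀ n, N ≤ n → |e n| ≤ κ * (ε / 2) := by
      intro n hn
      have := hN n hn
      rw [Real.dist_eq, sub_zero] at this
      exact this.le
    set u : ℕ → ℝ := fun n => max (|z n| - ε / 2) 0 with hu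
    have hu0 : ∀ n, 0 ≤ u n := fun n => le_max_right _ _
    have hstep : ∀ n, N ≤ n → u (n + 1) ≤ (1 - κ * δ n) * u n := by
      intro n hn
      have h1 : 0 ≤ 1 - κ * δ n := by linarith [hδ1 n]
      have h2 : |z (n + 1)| ≤ (1 - κ * δ n) * |z n| + δ n * (κ * (ε / 2)) := by
        rw [hrec]
        refine (abs_add_le _ _).trans ?_
        rw [abs_mul, abs_mul, abs_of_nonneg h1, abs_of_pos (hδ n)]
        have := hN' n hn
        have := (hδ n).le
        gcongr
      have h3 : |z n| - ε / 2 ≤ u n := le_max_left _ _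
      refine max_le ?_ (mul_nonneg h1 (hu0 n))
      have h4 : (1 - κ * δ n) * (|z n| - ε / 2) ≤ (1 - κ * δ n) * u n :=
        mul_le_mul_of_nonneg_left h3 h1
      linarith
    have hbd : ∀ k, u (N + k) ≤ u N * Real.exp (-(κ * ∑ j ∈ range k, δ (N + j))) := by
      intro k
      induction k with
      | zero => simp
      | succ k ih =>
        have h1 := hstep (N + k) (Nat.le_add_right _ _)
        have h2 : 1 - κ * δ (N + k) ≤ Real.exp (-(κ * δ (N + k))) := by
          have := Real.add_one_le_exp (-(κ * δ (N + k)))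
          linarith
        have h3 : Real.exp (-(κ * ∑ j ∈ range (k + 1), δ (N + j))) =
            Real.exp (-(κ * δ (N + k))) * Real.exp (-(κ * ∑ j ∈ range k, δ (N + j))) := by
          rw [← Real.exp_add, sum_range_succ]
          congr 1
          ring
        rw [h3]
        have h4 : 0 ≤ 1 - κ * δ (N + k) := by linarith [hδ1 (N + k)]
        calc u (N + (k + 1)) ≤ (1 - κ * δ (N + k)) * u (N + k) := h1
          _ ≤ Real.exp (-(κ * δ (N + k))) *
              (u N * Real.exp (-(κ * ∑ j ∈ range k, δ (N + j)))) := by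
            have := hu0 (N + k)
            gcongr
          _ = _ := by ring
    have hDN : Tendsto (fun k => ∑ j ∈ range k, δ (N + j)) atTop atTop := by
      have h1 : Tendsto (fun k => ∑ j ∈ range (N + k), δ j) atTop atTop :=
        hD.comp (tendsto_add_atTop_iff_nat N |>.2 tendsto_id |>.congr fun k => by
          simp [add_comm])
      have h2 : ∀ k, ∑ j ∈ range (N + k), δ j = ∑ j ∈ range N, δ j + ∑ j ∈ range k, δ (N + j) :=
        fun k => sum_range_add _ _ _
      have h3 : (fun k => ∑ j ∈ range k, δ (N + j)) =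
          fun k => -(∑ j ∈ range N, δ j) + ∑ j ∈ range (N + k), δ j := by
        funext k
        rw [h2]
        ring
      rw [h3]
      exact tendsto_atTop_add_const_left _ _ h1
    have hlim : Tendsto (fun k => u N * Real.exp (-(κ * ∑ j ∈ range k, δ (N + j)))) atTop (𝓝 0) := by
      have h1 : Tendsto (fun k => -(κ * ∑ j ∈ range k, δ (N + j))) atTop atBot :=
        tendsto_neg_atTop_atBot.comp (hDN.const_mul_atTop hκ)
      have := (Real.tendsto_exp_atBot.comp h1).const_mul (u N)
      simpa using this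
    have hev := hlim.eventually (gt_mem_nhds (show (0 : ℝ) < ε / 2 by positivity))
    obtain ⟨k₀, hk₀⟩ := eventually_atTop.1 hev
    refine ⟨N + k₀, fun n hn => ?_⟩
    obtain ⟨k, rfl⟩ : ∃ k, n = N + k := ⟨n - N, by omega⟩
    have h1 := (hbd k).trans_lt (hk₀ k (by omega))
    have h2 : |z (N + k)| - ε / 2 ≤ u (N + k) := le_max_left _ _
    rw [Real.dist_eq, sub_zero]
    linarith
  have hfin : x = fun n => z n - (l - S n) + β / κ := by
    funext n
    simp only [hz]
    ring
  rw [hfin]
  have := (hz0.sub hlS).add_const (β / κ)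
  simpa using this

end Pool.Agent.T2H44.RS
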