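import Pool.Agent.T2H44.RS.P0
import Pool.Agent.T2H44.RS.RL

set_option autoImplicit false

/-!
# RS, package A3: the deterministic end of the proof

Everything is for one sequence: `F i n` real numbers, `c = C(d, 2)`, `P n = ∏_{j < n} (1 + c / F 2 j)` (this is `Pr` with
`Ω` a point), `x i n = F i n / P n`. From the definition of the noise `m i n` and `P (n+1) = P n (F 2 n + c) / F 2 n`:
`x i (n+1) = (1 - (c - a_i) δ n) x i n + b_i δ n x (i+1) n + m i n`, `δ n = 1 / (F 2 n + c)`, `a_i = C(i, 2)`,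
`b_i = C(i+1, 2)`.
`∑ δ n = ∞`: otherwise `∑ 1 / F 2 j < ∞` (`F 2 ≥ 1`), so `P n` is bounded, and so is
`F 2 n ≤ C F d n = C x d n P n` (`x d n → z`): contradiction.
By downward induction from `i = d` (`x d n → z`) and `rl` (`κ = c - a_i > 0` for `1 ≤ i < d`, and
`κ δ n ≤ c / (F 2 n + c) ≤ 1`): `x i n → z ξ_i` with `ξ_d = 1`, `ξ_i = b_i ξ_{i+1} / (c - a_i)`, all `ξ_i > 0`. Now
`x 1 n = (F 1 0 + n) / P n → z ξ_1 > 0`, so `F i n / n = (x i n / x 1 n) (F 1 0 + n) / n → ξ_i / ξ_1`, which is `phi d i`: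
`phi d 1 = 1`, `phi d (i+1) · i (i+1) = (d-i)(d+i-1) phi d i`, and `b_i = i (i+1) / 2`,
`c - a_i = (d-i)(d+i-1) / 2`.
-/

namespace Pool.Agent.T2H44.RS

open Finset Filter Topology

namespace PkgA3

theorem phi_succ {d i : ℕ} (hi : 1 ≤ i) (hid : i < d) :
    phi d (i + 1) * ((i : ℝ) * (i + 1)) = ((d : ℝ) - i) * (d + i - 1) * phi d i := by
  obtain ⟨k, rfl⟩ : ∃ k, i = k + 1 := ⟨i - 1, by omega⟩
  obtain ⟨l, rfl⟩ : ∃ l, d = k + l + 2 := ⟨d - k - 2, by omega⟩
  unfold phi
  rw [if_neg (by omega), if_neg (by omega)]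
  have e1 : k + l + 2 + (k + 1 + 1) - 2 = 2 * k + l + 1 + 1 := by omega
  have e2 : k + l + 2 - (k + 1 + 1) = l := by omega
  have e3 : k + 1 + 1 - 1 = k + 1 := by omega
  have e4 : k + l + 2 + (k + 1) - 2 = 2 * k + l + 1 := by omega
  have e5 : k + l + 2 - (k + 1) = l + 1 := by omega
  have e6 : k + 1 - 1 = k := by omega
  rw [e1, e2, e3, e4, e5, e6, Nat.factorial_succ (2 * k + l + 1), Nat.factorial_succ (k + 1),
    Nat.factorial_succ l, Nat.factorial_succ k]
  push_cast
  have h1 : (Nat.factorial k : ℝ) ≠ 0 := by exact_mod_cast Nat.factorial_ne_zero k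
  have h2 : (Nat.factorial l : ℝ) ≠ 0 := by exact_mod_cast Nat.factorial_ne_zero l
  have h3 : (k : ℝ) + 1 ≠ 0 := by positivity
  have h4 : (k : ℝ) + 1 + 1 ≠ 0 := by positivity
  have h5 : (l : ℝ) + 1 ≠ 0 := by positivity
  field_simp
  ring

theorem phi_one {d : ℕ} (hd : 1 ≤ d) : phi d 1 = 1 := by
  unfold phi
  rw [if_neg (by omega)]
  have e1 : d + 1 - 2 = d - 1 := by omega
  rw [e1]
  have h1 : (Nat.factorial (d - 1) : ℝ) ≠ 0 := by exact_mod_cast Nat.factorial_ne_zero _
  simp [h1]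

theorem phi_pos {d i : ℕ} (hi : 1 ≤ i) : 0 < phi d i := by
  unfold phi
  rw [if_neg (by omega)]
  positivity

theorem kappa {d i : ℕ} :
    (d.choose 2 : ℝ) - (i.choose 2 : ℝ) = ((d : ℝ) - i) * (d + i - 1) / 2 := by
  rw [Nat.cast_choose_two, Nat.cast_choose_two]
  ring

theorem kappa_pos {d i : ℕ} (hi : 1 ≤ i) (hid : i < d) :
    0 < (d.choose 2 : ℝ) - (i.choose 2 : ℝ) := by
  rw [kappa]
  have h1 : (1 : ℝ) ≤ i := by exact_mod_cast hi
  have h2 : (i : ℝ) < d := by exact_mod_cast hid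
  have h3 : 0 < (d : ℝ) - i := by linarith
  have h4 : 0 < (d : ℝ) + i - 1 := by linarith
  positivity

theorem phi_rec {d i : ℕ} (hi : 1 ≤ i) (hid : i < d) :
    ((i + 1).choose 2 : ℝ) * phi d (i + 1) = ((d.choose 2 : ℝ) - (i.choose 2 : ℝ)) * phi d i := by
  rw [kappa, Nat.cast_choose_two]
  have := phi_succ hi hid
  push_cast
  linear_combination this / 2

/-- the sum of the `δ n` diverges -/
theorem not_summable (c : ℝ) (hc : 0 ≤ c) (G T : ℕ → ℝ) (C z : ℝ) (hG : ∀ n, 1 ≤ G n)
    (hT : ∀ n, 0 ≤ T n) (hle : ∀ n, G n ≤ C * T n)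
    (hlim : Tendsto (fun n => T n / ∏ j ∈ range n, (1 + c / G j)) atTop (𝓝 z)) :
    ¬ Summable (fun n => 1 / (G n + c)) := by
  intro hs
  have hG0 : ∀ n, 0 < G n := fun n => by linarith [hG n]
  have hs2 : Summable (fun n => c / G n) := by
    refine Summable.of_nonneg_of_le (fun n => ?_) (fun n => ?_) (hs.mul_left (c * (1 + c)))
    · have := hG0 n
      positivity
    · have h0 := hG0 n
      rw [mul_one_div, div_le_div_iff₀ h0 (by positivity)]
      have h1 : G n + c ≤ (1 + c) * G n := by nlinarith [hG n]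
      calc c * (G n + c) ≤ c * ((1 + c) * G n) := by gcongr
        _ = _ := by ring
  have hPb : ∀ n, ∏ j ∈ range n, (1 + c / G j) ≤ Real.exp (∑' j, c / G j) := by
    intro n
    calc ∏ j ∈ range n, (1 + c / G j) ≤ ∏ j ∈ range n, Real.exp (c / G j) := by
          refine Finset.prod_le_prod (fun j _ => ?_) fun j _ => ?_
          · have := hG0 j
            positivity
          · have := Real.add_one_le_exp (c / G j)
            linarith
      _ = Real.exp (∑ j ∈ range n, c / G j) := (Real.exp_sum _ _).symm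
      _ ≤ Real.exp (∑' j, c / G j) := by
          apply Real.exp_le_exp.2
          exact hs2.sum_le_tsum _ fun j _ => by
            have := hG0 j
            positivity
  have hP0 : ∀ n, 0 < ∏ j ∈ range n, (1 + c / G j) := fun n =>
    Finset.prod_pos fun j _ => by
      have := hG0 j
      positivity
  obtain ⟨B, hB⟩ := hlim.bddAbove_range
  have hTb : ∀ n, T n ≤ B * Real.exp (∑' j, c / G j) := by
    intro n
    have h1 : T n / ∏ j ∈ range n, (1 + c / G j) ≤ B := hB ⟨n, rfl⟩
    have h0 : 0 ≤ T n / ∏ j ∈ range n, (1 + c / G j) := div_nonneg (hT n) (hP0 n).le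
    have h2 : T n = T n / (∏ j ∈ range n, (1 + c / G j)) * ∏ j ∈ range n, (1 + c / G j) := by
      have := (hP0 n).ne'
      field_simp
    rw [h2]
    exact mul_le_mul h1 (hPb n) (hP0 n).le (h0.trans h1)
  have hC : 0 ≤ C := by
    by_contra h
    have h1 := hle 0
    have h2 := hG 0
    have h3 := hT 0
    nlinarith
  set B' : ℝ := C * (B * Real.exp (∑' j, c / G j)) with hB'
  have hGb : ∀ n, G n ≤ B' := fun n => (hle n).trans (mul_le_mul_of_nonneg_left (hTb n) hC)
  have hB1 : 1 ≤ B' := (hG 0).trans (hGb 0)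
  have ht := hs.tendsto_atTop_zero
  have h1 : (1 : ℝ) / (B' + c) ≤ 0 := by
    refine ge_of_tendsto' ht fun n => ?_
    have h2 := hG0 n
    have h3 := hGb n
    apply one_div_le_one_div_of_le (by positivity)
    linarith
  have h2 : (0 : ℝ) < 1 / (B' + c) := by positivity
  linarith

end PkgA3

open PkgA3

theorem final_limit {d : ℕ} (hd : 2 ≤ d) (F : ℕ → ℕ → ℝ) (C z : ℝ) (hz : 0 < z)
    (hone : ∀ i, 1 ≤ i → i ≤ d → ∀ n, 1 ≤ F i n) (htop : ∀ i, d < i → ∀ n, F i n = 0)
    (hvert : ∀ n : ℕ, F 1 n = F 1 0 + n) (hle : ∀ i n, F i n ≤ C * F d n)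
    (hlim : Tendsto (fun n => F d n / ∏ j ∈ range n, (1 + (d.choose 2 : ℝ) / F 2 j)) atTop (𝓝 z))
    (hnoise : ∀ i, 1 ≤ i → i < d → ∃ l, Tendsto (fun n => ∑ j ∈ range n,
      (F i (j + 1) - F i j - ((i.choose 2 : ℝ) * F i j + ((i + 1).choose 2 : ℝ) * F (i + 1) j) /
        F 2 j) / ∏ k ∈ range (j + 1), (1 + (d.choose 2 : ℝ) / F 2 k)) atTop (𝓝 l)) :
    ∀ i, 1 ≤ i → i ≤ d → Tendsto (fun n : ℕ => F i n / n) atTop (𝓝 (phi d i)) := by
  set c : ℝ := (d.choose 2 : ℝ) with hc
  have hc0 : 0 ≤ c := by positivity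
  set P : ℕ → ℝ := fun n => ∏ j ∈ range n, (1 + c / F 2 j) with hP
  have hF2 : ∀ n, 1 ≤ F 2 n := hone 2 (by norm_num) hd
  have hF20 : ∀ n, 0 < F 2 n := fun n => by linarith [hF2 n]
  have hP0 : ∀ n, 0 < P n := fun n => Finset.prod_pos fun j _ => by
    have := hF20 j
    positivity
  have hPs : ∀ n, P (n + 1) = P n * (1 + c / F 2 n) := fun n => prod_range_succ _ _
  have hpd : 0 < phi d d := phi_pos (by omega)
  set δ : ℕ → ℝ := fun n => 1 / (F 2 n + c) with hδ
  have hδ0 : ∀ n, 0 < δ n := fun n => by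
    have := hF20 n
    simp only [hδ]
    positivity
  have hns : ¬ Summable δ := PkgA3.not_summable c hc0 (F 2) (F d) C z hF2
    (fun n => by linarith [hone d (by omega) le_rfl n]) (fun n => hle 2 n) hlim
  -- the normalised sequences
  have key : ∀ k : ℕ, k < d → Tendsto (fun n => F (d - k) n / P n) atTop
      (𝓝 (z * phi d (d - k) / phi d d)) := by
    intro k
    induction k with
    | zero =>
      intro _
      rw [Nat.sub_zero, mul_div_assoc, div_self hpd.ne', mul_one]
      exact hlim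
    | succ k ih =>
      intro hk
      have ih' := ih (by omega)
      obtain ⟨i, hi⟩ : ∃ i, i = d - (k + 1) := ⟨_, rfl⟩
      have hi1 : d - k = i + 1 := by omega
      have hi0 : 1 ≤ i := by omega
      have hid : i < d := by omega
      rw [← hi]
      rw [hi1] at ih'
      have hκ : 0 < c - (i.choose 2 : ℝ) := kappa_pos hi0 hid
      have hβ := ih'.const_mul ((i + 1).choose 2 : ℝ)
      have hr := rl (c - (i.choose 2 : ℝ)) hκ δ hδ0 (fun n => ?_) hns
        (fun n => F i n / P n) (fun n => ((i + 1).choose 2 : ℝ) * (F (i + 1) n / P n))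
        (fun j => (F i (j + 1) - F i j - ((i.choose 2 : ℝ) * F i j +
          ((i + 1).choose 2 : ℝ) * F (i + 1) j) / F 2 j) / P (j + 1)) _ hβ (hnoise i hi0 hid)
        (fun n => ?_)
      · convert hr using 2
        rw [eq_div_iff hκ.ne']
        have h1 := phi_rec hi0 hid
        rw [← hc] at h1
        field_simp
        linear_combination (-1 : ℝ) * h1
      · simp only [hδ]
        have h2 := hF20 n
        rw [mul_one_div, div_le_one (by positivity)]
        have h3 : (0 : ℝ) ≤ (i.choose 2 : ℝ) := by positivity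
        linarith
      · simp only [hδ]
        have h2 := (hF20 n).ne'
        have h3 := (hP0 n).ne'
        have h4 : F 2 n + c ≠ 0 := by
          have := hF20 n
          positivity
        have h5 : P (n + 1) = P n * (F 2 n + c) / F 2 n := by
          rw [hPs]
          field_simp
        rw [h5]
        field_simp
        ring
  have key' : ∀ i, 1 ≤ i → i ≤ d → Tendsto (fun n => F i n / P n) atTop
      (𝓝 (z * phi d i / phi d d)) := by
    intro i h1 h2
    have := key (d - i) (by omega)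
    rwa [show d - (d - i) = i by omega] at this
  have h1 := key' 1 le_rfl (by omega)
  rw [phi_one (by omega), mul_one] at h1
  have hz1 : z / phi d d ≠ 0 := (div_pos hz hpd).ne'
  intro i hi hid
  have h2 := (key' i hi hid).div h1 hz1
  have h3 : Tendsto (fun n : ℕ => (F 1 0 + n) / (n : ℝ)) atTop (𝓝 1) := by
    have h4 : Tendsto (fun n : ℕ => F 1 0 / (n : ℝ) + 1) atTop (𝓝 (0 + 1)) :=
      (tendsto_const_div_atTop_nhds_zero_nat _).add_const 1
    rw [zero_add] at h4
    refine h4.congr' ?_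
    filter_upwards [eventually_gt_atTop 0] with n hn
    have : (n : ℝ) ≠ 0 := by positivity
    field_simp
  have h5 := h2.mul h3
  have h6 : z * phi d i / phi d d / (z / phi d d) * 1 = phi d i := by
    field_simp
  rw [h6] at h5
  refine h5.congr fun n => ?_
  have h7 := (hP0 n).ne'
  have h8 : F 1 n ≠ 0 := by linarith [hone 1 le_rfl (by omega) n]
  rw [← hvert]
  simp only [Pi.div_apply]
  rcases Nat.eq_zero_or_pos n with h0 | h0
  · subst h0
    simp
  · have h9 : (n : ℝ) ≠ 0 := by positivity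
    field_simp

end Pool.Agent.T2H44.RS
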