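import Pool.Agent.T2H44.RS.C1

set_option autoImplicit false

/-!
# RS, package C2: the face numbers of a subdivision

`nf_succ_sub`: with `w = fresh Δ` (in no face of `Δ`), the members of `sub Δ e` with `i + 1` elements are the
`σ ∈ Δ` with `|σ| = i + 1`, `¬ e ⊆ σ` (there are `nf (i+1) Δ - up (i+1) Δ e`), and the `insert w ρ`, `|ρ| = i`,
`¬ e ⊆ ρ`, `ρ ∪ e ∈ Δ` (`ρ ↦ insert w ρ` is injective on them). For `e = {a, b}` the latter `ρ` correspond to the
pairs `(τ, K)`, `τ = ρ ∪ e ⊇ e`, `K = e \ ρ ∈ {{a}, {b}, {a, b}}`, `ρ = τ \ K`: for `K = {a}` and `K = {b}` there are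
`up (i+1) Δ e` of them each, for `K = {a, b}` there are `up (i+2) Δ e`. In total
`nf - up (i+1) + 2 up (i+1) + up (i+2)`.

`sum_up`: double counting of the pairs `e ⊆ σ`, `|σ| = i`, `|e| = 2` (`e ∈ Δ` because `Δ` is closed under
subsets): `∑_σ |powersetCard 2 σ|`.
-/

namespace Pool.Agent.T2H44.RS

open Finset

theorem nf_zero_sub {d : ℕ} {Δ : Cx} (h : IsPure d Δ) {e : Finset ℕ} (he : e ∈ edges Δ) :
    nf 0 (sub Δ e) = 1 := by
  have he2 : e.card = 2 := (mem_filter.1 he).2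
  have h0 : ∅ ∈ sub Δ e := by
    rw [mem_sub]
    refine Or.inl ⟨h.empty_mem, fun hs => ?_⟩
    have := card_le_card hs
    rw [he2, card_empty] at this
    omega
  have h1 : (sub Δ e).filter (fun σ => σ.card = 0) = {∅} := by
    ext σ
    rw [mem_filter, mem_singleton, card_eq_zero]
    constructor
    · exact fun h => h.2
    · rintro rfl
      exact ⟨h0, rfl⟩
  unfold nf
  rw [h1, card_singleton]

namespace PkgC2

/-- the `ρ` with `a ∉ ρ`, `b ∈ ρ` -/
theorem card_one {Δ : Cx} {d : ℕ} (h : IsPure d Δ) {a b : ℕ} (hab : a ≠ b) (i : ℕ) :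
    (Δ.filter fun ρ => ρ.card = i ∧ (a ∉ ρ ∧ b ∈ ρ) ∧ ρ ∪ {a, b} ∈ Δ).card =
      up (i + 1) Δ {a, b} := by
  unfold up
  refine card_nbij' (fun ρ => insert a ρ) (fun τ => τ.erase a) ?_ ?_ ?_ ?_
  · intro ρ hρ
    rw [mem_coe, mem_filter] at hρ
    obtain ⟨_, h1, ⟨h2, h3⟩, h4⟩ := hρ
    have e : ρ ∪ {a, b} = insert a ρ := by
      ext x
      simp only [mem_union, mem_insert, mem_singleton]
      constructor
      · rintro (h | h | h)
        · exact Or.inr h
        · exact Or.inl h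
        · exact Or.inr (h ▸ h3)
      · rintro (h | h)
        · exact Or.inr (Or.inl h)
        · exact Or.inl h
    rw [mem_coe, mem_filter]
    rw [e] at h4
    refine ⟨h4, by rw [card_insert_of_notMem h2, h1], ?_⟩
    intro x hx
    rw [mem_insert, mem_singleton] at hx
    rcases hx with rfl | rfl
    · exact mem_insert_self _ _
    · exact mem_insert_of_mem h3
  · intro τ hτ
    rw [mem_coe, mem_filter] at hτ
    obtain ⟨h0, h1, h2⟩ := hτ
    have ha : a ∈ τ := h2 (by simp)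
    have hb : b ∈ τ := h2 (by simp)
    rw [mem_coe, mem_filter]
    refine ⟨h.down τ h0 _ (erase_subset _ _), by rw [card_erase_of_mem ha, h1]; rfl,
      ⟨notMem_erase _ _, mem_erase.2 ⟨hab.symm, hb⟩⟩, ?_⟩
    refine h.down τ h0 _ (union_subset (erase_subset _ _) h2)
  · intro ρ hρ
    rw [mem_coe, mem_filter] at hρ
    exact erase_insert hρ.2.2.1.1
  · intro τ hτ
    rw [mem_coe, mem_filter] at hτ
    exact insert_erase (hτ.2.2 (by simp))

/-- the `ρ` with `a ∉ ρ`, `b ∉ ρ` -/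
theorem card_two {Δ : Cx} {d : ℕ} (h : IsPure d Δ) {a b : ℕ} (hab : a ≠ b) (i : ℕ) :
    (Δ.filter fun ρ => ρ.card = i ∧ (a ∉ ρ ∧ b ∉ ρ) ∧ ρ ∪ {a, b} ∈ Δ).card =
      up (i + 2) Δ {a, b} := by
  unfold up
  refine card_nbij' (fun ρ => insert a (insert b ρ)) (fun τ => (τ.erase a).erase b) ?_ ?_ ?_ ?_
  · intro ρ hρ
    rw [mem_coe, mem_filter] at hρ
    obtain ⟨_, h1, ⟨h2, h3⟩, h4⟩ := hρ
    have e : ρ ∪ {a, b} = insert a (insert b ρ) := by
      ext x
      simp only [mem_union, mem_insert, mem_singleton]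
      tauto
    have h5 : a ∉ insert b ρ := by
      rw [mem_insert]
      rintro (h | h)
      · exact hab h
      · exact h2 h
    rw [mem_coe, mem_filter]
    rw [e] at h4
    refine ⟨h4, by rw [card_insert_of_notMem h5, card_insert_of_notMem h3, h1], ?_⟩
    intro x hx
    rw [mem_insert, mem_singleton] at hx
    rcases hx with rfl | rfl
    · exact mem_insert_self _ _
    · exact mem_insert_of_mem (mem_insert_self _ _)
  · intro τ hτ
    rw [mem_coe, mem_filter] at hτ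
    obtain ⟨h0, h1, h2⟩ := hτ
    have ha : a ∈ τ := h2 (by simp)
    have hb : b ∈ τ := h2 (by simp)
    have hb' : b ∈ τ.erase a := mem_erase.2 ⟨hab.symm, hb⟩
    rw [mem_coe, mem_filter]
    refine ⟨h.down τ h0 _ ((erase_subset _ _).trans (erase_subset _ _)),
      by rw [card_erase_of_mem hb', card_erase_of_mem ha, h1]; rfl,
      ⟨fun h => notMem_erase a τ (mem_of_mem_erase h), notMem_erase _ _⟩, ?_⟩
    refine h.down τ h0 _ (union_subset ((erase_subset _ _).trans (erase_subset _ _)) h2)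
  · intro ρ hρ
    rw [mem_coe, mem_filter] at hρ
    obtain ⟨_, h1, ⟨h2, h3⟩, h4⟩ := hρ
    have h5 : a ∉ insert b ρ := by
      rw [mem_insert]
      rintro (h | h)
      · exact hab h
      · exact h2 h
    show ((insert a (insert b ρ)).erase a).erase b = ρ
    rw [erase_insert h5, erase_insert h3]
  · intro τ hτ
    rw [mem_coe, mem_filter] at hτ
    have ha : a ∈ τ := hτ.2.2 (by simp)
    have hb : b ∈ τ := hτ.2.2 (by simp)
    have hb' : b ∈ τ.erase a := mem_erase.2 ⟨hab.symm, hb⟩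
    show insert a (insert b ((τ.erase a).erase b)) = τ
    rw [insert_erase hb', insert_erase ha]

theorem card_three {Δ : Cx} {d : ℕ} (h : IsPure d Δ) {a b : ℕ} (hab : a ≠ b) (i : ℕ) :
    (Δ.filter fun ρ => ρ.card = i ∧ ¬ ({a, b} : Finset ℕ) ⊆ ρ ∧ ρ ∪ {a, b} ∈ Δ).card =
      2 * up (i + 1) Δ {a, b} + up (i + 2) Δ {a, b} := by
  have h1 := card_one h hab i
  have h2 := card_one h hab.symm i
  have h3 := card_two h hab i
  have hba : ({b, a} : Finset ℕ) = {a, b} := pair_comm b a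
  rw [hba] at h2
  have e : (Δ.filter fun ρ => ρ.card = i ∧ ¬ ({a, b} : Finset ℕ) ⊆ ρ ∧ ρ ∪ {a, b} ∈ Δ) =
      ((Δ.filter fun ρ => ρ.card = i ∧ (a ∉ ρ ∧ b ∈ ρ) ∧ ρ ∪ {a, b} ∈ Δ) ∪
        (Δ.filter fun ρ => ρ.card = i ∧ (b ∉ ρ ∧ a ∈ ρ) ∧ ρ ∪ {a, b} ∈ Δ)) ∪
        (Δ.filter fun ρ => ρ.card = i ∧ (a ∉ ρ ∧ b ∉ ρ) ∧ ρ ∪ {a, b} ∈ Δ) := by
    rw [← filter_or, ← filter_or]
    refine filter_congr fun ρ _ => ?_
    have hs : ({a, b} : Finset ℕ) ⊆ ρ ↔ a ∈ ρ ∧ b ∈ ρ := by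
      rw [insert_subset_iff, singleton_subset_iff]
    rw [hs]
    tauto
  rw [e, card_union_of_disjoint, card_union_of_disjoint, h1, h2, h3]
  · ring
  · rw [disjoint_filter]
    intro ρ _ h1 h2
    exact h1.2.1.1 h2.2.1.2
  · rw [disjoint_union_left, disjoint_filter, disjoint_filter]
    constructor
    · intro ρ _ h1 h2
      exact h2.2.1.2 h1.2.1.2
    · intro ρ _ h1 h2
      exact h2.2.1.1 h1.2.1.2

end PkgC2

theorem nf_succ_sub {d : ℕ} {Δ : Cx} (h : IsPure d Δ) {e : Finset ℕ} (he : e ∈ edges Δ) (i : ℕ) :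
    nf (i + 1) (sub Δ e) = nf (i + 1) Δ + up (i + 1) Δ e + up (i + 2) Δ e := by
  have he2 : e.card = 2 := (mem_filter.1 he).2
  obtain ⟨a, b, hab, rfl⟩ := card_eq_two.1 he2
  have h3 := PkgC2.card_three h hab i
  set e : Finset ℕ := {a, b} with hedef
  have hA : ((Δ.filter fun σ => ¬ e ⊆ σ).filter fun σ => σ.card = i + 1).card +
      up (i + 1) Δ e = nf (i + 1) Δ := by
    unfold up nf
    rw [filter_filter]
    have e1 : Δ.filter (fun σ => ¬ e ⊆ σ ∧ σ.card = i + 1) =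
        (Δ.filter fun σ => σ.card = i + 1).filter fun σ => ¬ e ⊆ σ := by
      rw [filter_filter]
      exact filter_congr fun σ _ => and_comm
    have e2 : Δ.filter (fun σ => σ.card = i + 1 ∧ e ⊆ σ) =
        (Δ.filter fun σ => σ.card = i + 1).filter fun σ => e ⊆ σ := by
      rw [filter_filter]
    rw [e1, e2, add_comm]
    exact card_filter_add_card_filter_not _
  have hB : (((Δ.filter fun σ => ¬ e ⊆ σ ∧ σ ∪ e ∈ Δ).image (insert (fresh Δ))).filter
      fun σ => σ.card = i + 1).card =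
      (Δ.filter fun ρ => ρ.card = i ∧ ¬ e ⊆ ρ ∧ ρ ∪ e ∈ Δ).card := by
    have e1 : ((Δ.filter fun σ => ¬ e ⊆ σ ∧ σ ∪ e ∈ Δ).image (insert (fresh Δ))).filter
        (fun σ => σ.card = i + 1) =
        (Δ.filter fun ρ => ρ.card = i ∧ ¬ e ⊆ ρ ∧ ρ ∪ e ∈ Δ).image (insert (fresh Δ)) := by
      ext σ
      simp only [mem_filter, mem_image]
      constructor
      · rintro ⟨⟨ρ, ⟨h1, h2⟩, rfl⟩, h4⟩
        rw [card_insert_of_notMem (fresh_notMem h1)] at h4
        exact ⟨ρ, ⟨h1, by omega, h2⟩, rfl⟩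
      · rintro ⟨ρ, ⟨h1, h2, h3⟩, rfl⟩
        refine ⟨⟨ρ, ⟨h1, h3⟩, rfl⟩, ?_⟩
        rw [card_insert_of_notMem (fresh_notMem h1), h2]
    rw [e1, card_image_of_injOn]
    intro ρ hρ ρ' hρ' hh
    rw [mem_coe, mem_filter] at hρ hρ'
    have := congrArg (fun s => s.erase (fresh Δ)) hh
    simp only [erase_insert (fresh_notMem hρ.1), erase_insert (fresh_notMem hρ'.1)] at this
    exact this
  have hd : Disjoint ((Δ.filter fun σ => ¬ e ⊆ σ).filter fun σ => σ.card = i + 1)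
      (((Δ.filter fun σ => ¬ e ⊆ σ ∧ σ ∪ e ∈ Δ).image (insert (fresh Δ))).filter
        fun σ => σ.card = i + 1) := by
    rw [Finset.disjoint_left]
    intro σ h1 h2
    rw [mem_filter, mem_filter] at h1
    rw [mem_filter, mem_image] at h2
    obtain ⟨⟨ρ, _, rfl⟩, _⟩ := h2
    exact fresh_notMem h1.1.1 (mem_insert_self _ _)
  have hnf : nf (i + 1) (sub Δ e) =
      ((Δ.filter fun σ => ¬ e ⊆ σ).filter fun σ => σ.card = i + 1).card +
      (((Δ.filter fun σ => ¬ e ⊆ σ ∧ σ ∪ e ∈ Δ).image (insert (fresh Δ))).filter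
        fun σ => σ.card = i + 1).card := by
    unfold nf sub
    rw [filter_union, card_union_of_disjoint hd]
  rw [hnf, hB, h3]
  omega

theorem sum_up {d : ℕ} {Δ : Cx} (h : IsPure d Δ) (i : ℕ) :
    ∑ e ∈ edges Δ, up i Δ e = i.choose 2 * nf i Δ := by
  have h1 := sum_card_bipartiteAbove_eq_sum_card_bipartiteBelow (s := edges Δ)
    (t := Δ.filter fun σ => σ.card = i) (fun e σ => e ⊆ σ)
  have h2 : ∀ e ∈ edges Δ, up i Δ e =
      ((Δ.filter fun σ => σ.card = i).bipartiteAbove (fun e σ => e ⊆ σ) e).card := by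
    intro e _
    unfold up bipartiteAbove
    rw [filter_filter]
  rw [sum_congr rfl h2, h1]
  have h3 : ∀ σ ∈ Δ.filter (fun σ => σ.card = i),
      ((edges Δ).bipartiteBelow (fun e σ => e ⊆ σ) σ).card = i.choose 2 := by
    intro σ hσ
    rw [mem_filter] at hσ
    unfold bipartiteBelow
    have e1 : (edges Δ).filter (fun e => e ⊆ σ) = powersetCard 2 σ := by
      ext e
      rw [mem_filter, edges, mem_filter, mem_powersetCard]
      constructor
      · exact fun h => ⟨h.2, h.1.2⟩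
      · exact fun g => ⟨⟨h.down σ hσ.1 e g.1, g.2⟩, g.1⟩
    rw [e1, card_powersetCard, hσ.2]
  rw [sum_congr rfl h3, sum_const, smul_eq_mul, mul_comm]
  rfl

end Pool.Agent.T2H44.RS
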