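import Pool.Agent.T2H44.RS.Defs

set_option autoImplicit false

/-!
# RS, package C3: simple bounds

`up_le`: every face `σ ⊇ e` with `i` vertices is contained in a facet `τ ⊇ e`, and a facet has `2 ^ d` subsets.
`nf_le` is the case `e = ∅`. `one_le_nf`: a facet (which exists because `∅ ∈ Δ`) has subsets with `i` elements.
`sum_up_sq`: `∑_e up(e)^2` is the sum over the pairs of facets `(τ, τ')` of the number of edges
`e ⊆ τ ∩ τ'`, which is `m (m - 1) / 2 ≤ wt d m`, `m = |τ ∩ τ'|` (`wt d m = (4 d^2)^m` for `m ≥ 2`, and both are `0`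
for `m ≤ 1`). `Hq_le`: `wt d m ≤ (4 d^2)^d` for `m ≤ d`.
-/

namespace Pool.Agent.T2H44.RS

open Finset

theorem up_le {d : ℕ} {Δ : Cx} (h : IsPure d Δ) (e : Finset ℕ) (i : ℕ) :
    up i Δ e ≤ 2 ^ d * up d Δ e := by
  unfold up
  have h1 : Δ.filter (fun σ => σ.card = i ∧ e ⊆ σ) ⊆
      (Δ.filter (fun σ => σ.card = d ∧ e ⊆ σ)).biUnion fun τ => τ.powerset := by
    intro σ hσ
    rw [mem_filter] at hσ
    obtain ⟨τ, hτ, hst, hc⟩ := h.facet σ hσ.1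
    rw [mem_biUnion]
    exact ⟨τ, mem_filter.2 ⟨hτ, hc, hσ.2.2.trans hst⟩, mem_powerset.2 hst⟩
  refine (card_le_card h1).trans (card_biUnion_le.trans ?_)
  rw [mul_comm, ← smul_eq_mul]
  refine sum_le_card_nsmul _ _ _ fun τ hτ => ?_
  rw [mem_filter] at hτ
  rw [card_powerset, hτ.2.1]

theorem nf_eq_up (i : ℕ) (Δ : Cx) : nf i Δ = up i Δ ∅ := by
  unfold nf up
  congr 1
  refine filter_congr fun σ _ => ?_
  simp

theorem nf_le {d : ℕ} {Δ : Cx} (h : IsPure d Δ) (i : ℕ) : nf i Δ ≤ 2 ^ d * nf d Δ := by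
  rw [nf_eq_up, nf_eq_up]
  exact up_le h ∅ i

theorem one_le_nf {d : ℕ} {Δ : Cx} (h : IsPure d Δ) {i : ℕ} (hi : i ≤ d) : 1 ≤ nf i Δ := by
  obtain ⟨τ, hτ, _, hc⟩ := h.facet ∅ h.empty_mem
  obtain ⟨σ, hσ, hσc⟩ := exists_subset_card_eq (s := τ) (n := i) (by omega)
  exact card_pos.2 ⟨σ, mem_filter.2 ⟨h.down τ hτ σ hσ, hσc⟩⟩

theorem nf_eq_zero {d : ℕ} {Δ : Cx} (h : IsPure d Δ) {i : ℕ} (hi : d < i) : nf i Δ = 0 := by
  unfold nf
  rw [card_eq_zero, filter_eq_empty_iff]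
  intro σ hσ hc
  have := h.card_le σ hσ
  omega

theorem up_eq_zero {d : ℕ} {Δ : Cx} (h : IsPure d Δ) {e : Finset ℕ} {i : ℕ} (hi : d < i) :
    up i Δ e = 0 := by
  unfold up
  rw [card_eq_zero, filter_eq_empty_iff]
  intro σ hσ hc
  have := h.card_le σ hσ
  omega

theorem wt_nonneg (d m : ℕ) : 0 ≤ wt d m := by
  unfold wt
  split_ifs
  · positivity
  · exact le_rfl

theorem choose_le_wt {d m : ℕ} (hmd : m ≤ d) : ((m.choose 2 : ℕ) : ℝ) ≤ wt d m := by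
  unfold wt
  split_ifs with hm
  · have hd : (1 : ℝ) ≤ d := by exact_mod_cast (by omega : 1 ≤ d)
    have hd2 : (1 : ℝ) ≤ 4 * (d : ℝ) ^ 2 := by nlinarith
    have hmr : (m : ℝ) ≤ d := by exact_mod_cast hmd
    have hm0 : (0 : ℝ) ≤ m := by positivity
    calc ((m.choose 2 : ℕ) : ℝ) = m * (m - 1) / 2 := Nat.cast_choose_two ℝ m
      _ ≤ 4 * (d : ℝ) ^ 2 := by nlinarith
      _ = (4 * (d : ℝ) ^ 2) ^ 1 := (pow_one _).symm
      _ ≤ (4 * (d : ℝ) ^ 2) ^ m := pow_le_pow_right₀ hd2 (by omega)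
  · have : m.choose 2 = 0 := Nat.choose_eq_zero_of_lt (by omega)
    rw [this, Nat.cast_zero]

theorem up_cast (d : ℕ) (Δ : Cx) (e : Finset ℕ) :
    (up d Δ e : ℝ) = ∑ τ ∈ facets d Δ, if e ⊆ τ then (1 : ℝ) else 0 := by
  unfold up facets
  rw [← filter_filter, card_filter]
  push_cast
  rfl

theorem sum_up_sq {d : ℕ} {Δ : Cx} (h : IsPure d Δ) (hd : 2 ≤ d) :
    ∑ e ∈ edges Δ, (up d Δ e : ℝ) ^ 2 ≤ Hq d Δ := by
  have h1 : ∀ e ∈ edges Δ, (up d Δ e : ℝ) ^ 2 =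
      ∑ τ ∈ facets d Δ, ∑ τ' ∈ facets d Δ, if e ⊆ τ ∩ τ' then (1 : ℝ) else 0 := by
    intro e _
    rw [up_cast, sq, sum_mul_sum]
    refine sum_congr rfl fun τ _ => sum_congr rfl fun τ' _ => ?_
    by_cases h1 : e ⊆ τ <;> by_cases h2 : e ⊆ τ' <;> simp [h1, h2, subset_inter_iff]
  rw [sum_congr rfl h1, sum_comm]
  unfold Hq
  refine sum_le_sum fun τ hτ => ?_
  rw [sum_comm]
  refine sum_le_sum fun τ' _ => ?_
  have h2 : (∑ e ∈ edges Δ, if e ⊆ τ ∩ τ' then (1 : ℝ) else 0) =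
      (((edges Δ).filter fun e => e ⊆ τ ∩ τ').card : ℝ) := by
    rw [card_filter]
    push_cast
    rfl
  rw [h2]
  have h3 : ((edges Δ).filter fun e => e ⊆ τ ∩ τ').card ≤ ((τ ∩ τ').card).choose 2 := by
    rw [← card_powersetCard]
    refine card_le_card fun e he => ?_
    rw [mem_filter, edges, mem_filter] at he
    exact mem_powersetCard.2 ⟨he.2, he.1.2⟩
  have h4 : (τ ∩ τ').card ≤ d := by
    rw [facets, mem_filter] at hτ
    exact (card_le_card inter_subset_left).trans hτ.2.le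
  exact le_trans (by exact_mod_cast h3) (choose_le_wt h4)

theorem Hq_nonneg (d : ℕ) (Δ : Cx) : 0 ≤ Hq d Δ :=
  sum_nonneg fun _ _ => sum_nonneg fun _ _ => wt_nonneg _ _

theorem Hq_le {d : ℕ} {Δ : Cx} (h : IsPure d Δ) (hd : 2 ≤ d) :
    Hq d Δ ≤ (4 * (d : ℝ) ^ 2) ^ d * (nf d Δ : ℝ) ^ 2 := by
  have hd1 : (1 : ℝ) ≤ d := by exact_mod_cast (by omega : 1 ≤ d)
  have hd2 : (1 : ℝ) ≤ 4 * (d : ℝ) ^ 2 := by nlinarith
  have h1 : ∀ τ ∈ facets d Δ, ∀ τ' ∈ facets d Δ, wt d (τ ∩ τ').card ≤ (4 * (d : ℝ) ^ 2) ^ d := by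
    intro τ hτ τ' _
    have h4 : (τ ∩ τ').card ≤ d := by
      rw [facets, mem_filter] at hτ
      exact (card_le_card inter_subset_left).trans hτ.2.le
    unfold wt
    split_ifs
    · exact pow_le_pow_right₀ hd2 h4
    · positivity
  have h2 : ((facets d Δ).card : ℝ) = nf d Δ := rfl
  unfold Hq
  calc ∑ τ ∈ facets d Δ, ∑ τ' ∈ facets d Δ, wt d (τ ∩ τ').card
      ≤ ∑ τ ∈ facets d Δ, ∑ _τ' ∈ facets d Δ, (4 * (d : ℝ) ^ 2) ^ d :=
        sum_le_sum fun τ hτ => sum_le_sum fun τ' hτ' => h1 τ hτ τ' hτ'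
    _ = (4 * (d : ℝ) ^ 2) ^ d * (nf d Δ : ℝ) ^ 2 := by
        simp only [sum_const, nsmul_eq_mul, h2]
        ring

end Pool.Agent.T2H44.RS
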