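import Pool.Agent.T2H44.RS.C1

set_option autoImplicit false

/-!
# RS, package C4 (parts C4A and C4B): the drift of the quadratic functional `Hq`

`Kq d e τ τ'` is the contribution of the pair `(τ, τ')` of facets of `Δ` to `Hq d (sub Δ e)`.

**C4A** `Hq_sub`. Let `e = {a, b}`, `w = fresh Δ`. The facets of `sub Δ e` are the facets `τ` of `Δ` with `¬ e ⊆ τ`, and for
every facet `τ ⊇ e` the two sets `insert w (τ.erase a)`, `insert w (τ.erase b)`. (If `insert w ρ` is in
`sub Δ e` with `|ρ| = d - 1`, then `ρ ∪ e ∈ Δ` has exactly `d` elements, so `ρ = (ρ ∪ e).erase x`, `x ∈ e`.)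
So with `spl τ = if e ⊆ τ then {insert w (τ.erase a), insert w (τ.erase b)} else {τ}` (two elements resp. one,
disjoint for different `τ`: `τ` is recovered as `(σ.erase w) ∪ e` resp. `σ`) the facets of `sub Δ e` are the
disjoint union of the `spl τ`, and `Hq d (sub Δ e) = ∑_τ ∑_τ' ∑_{σ ∈ spl τ} ∑_{σ' ∈ spl τ'} wt d |σ ∩ σ'|`. The inner
sum is `Kq d e τ τ'`: with `m = |τ ∩ τ'|`
* `e ⊆ τ`, `e ⊆ τ'`: `|σ_a ∩ σ'_a| = |σ_b ∩ σ'_b| = m`, `|σ_a ∩ σ'_b| = |σ_b ∩ σ'_a| = m - 1`;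
* `e ⊆ τ`, `e ∩ τ' = ∅`: both intersections have `m` elements;
* `e ⊆ τ`, `e ∩ τ' = {a}`: `|σ_b ∩ τ'| = m`, `|σ_a ∩ τ'| = m - 1` (`σ_x = insert w (τ.erase x)`).

**C4B** `sum_Kq`. Let `m = |τ ∩ τ'|`. The edges with `¬ e ⊆ τ`, `¬ e ⊆ τ'` contribute `wt d m` each. There are
`C(d - m, 2)` pairs `e ⊆ τ \ τ'` (contribution `wt d m + wt d m`) and as many `e ⊆ τ' \ τ`, `m (d - m)` pairs `e ⊆ τ`
with exactly one element in `τ'` (contribution `wt d m + wt d (m - 1)`), as many with `τ, τ'` exchanged, and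
`C(m, 2)` pairs `e ⊆ τ ∩ τ'` (contribution `wt d m + (wt d m + 2 wt d (m - 1))`). So
`∑_e Kq - E · wt d m = (2 C(d - m, 2) + C(m, 2)) wt d m + (2 m (d - m) + m (m - 1)) wt d (m - 1)`.
For `m ≤ 1` both sides of the claim are zero. For `m = 2`: `wt d 1 = 0` and
`(d - 2)(d - 3) + 1 ≤ d (d - 1) - 1`. For `m ≥ 3`: `wt d (m - 1) = wt d m / (4 d^2)`,
`2 m (d - m) + m (m - 1) ≤ 2 d^2`, and `2 C(d - m, 2) + C(m, 2) = d (d - 1) - 2 m (d - m) - m (m - 1) / 2 ≤ d (d - 1) - 1`.
-/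

namespace Pool.Agent.T2H44.RS

open Finset

/-- the contribution of a pair of facets to `Hq d (sub Δ e)` -/
def Kq (d : ℕ) (e τ τ' : Finset ℕ) : ℝ :=
  if e ⊆ τ then
    if e ⊆ τ' then 2 * wt d (τ ∩ τ').card + 2 * wt d ((τ ∩ τ').card - 1)
    else if e ∩ τ' = ∅ then 2 * wt d (τ ∩ τ').card
    else wt d (τ ∩ τ').card + wt d ((τ ∩ τ').card - 1)
  else
    if e ⊆ τ' then
      if e ∩ τ = ∅ then 2 * wt d (τ ∩ τ').card
      else wt d (τ ∩ τ').card + wt d ((τ ∩ τ').card - 1)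
    else wt d (τ ∩ τ').card

namespace C4A

/-- the two facets which replace a facet -/
def f (Δ : Cx) (a : ℕ) (τ : Finset ℕ) : Finset ℕ := insert (fresh Δ) (τ.erase a)

lemma facets_sub {d : ℕ} {Δ : Cx} (h : IsPure d Δ) {a b : ℕ} (hab : a ≠ b)
    (he : ({a, b} : Finset ℕ) ∈ Δ) : facets d (sub Δ {a, b}) =
      (facets d Δ).filter (fun τ => ¬ {a, b} ⊆ τ) ∪
        (((facets d Δ).filter fun τ => {a, b} ⊆ τ).image (f Δ a) ∪
          ((facets d Δ).filter fun τ => {a, b} ⊆ τ).image (f Δ b)) := by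
  ext σ
  simp only [facets, mem_union, mem_filter, mem_image, mem_sub]
  constructor
  · rintro ⟨h1 | ⟨ρ, hρ, ⟨h2, h3⟩, rfl⟩, h4⟩
    · exact Or.inl ⟨⟨h1.1, h4⟩, h1.2⟩
    · right
      have hw : fresh Δ ∉ ρ := fresh_notMem hρ
      rw [card_insert_of_notMem hw] at h4
      have h5 : ρ.card < (ρ ∪ {a, b}).card := by
        apply card_lt_card
        refine ⟨subset_union_left, fun h => h2 (subset_union_right.trans h)⟩
      have h6 := h.card_le _ h3
      have h7 : (ρ ∪ {a, b}).card = d := by omega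
      by_cases ha : a ∈ ρ
      · have hb : b ∉ ρ := by
          intro hb
          exact h2 (by intro x hx; simp only [mem_insert, mem_singleton] at hx; rcases hx with rfl | rfl <;> assumption)
        right
        refine ⟨ρ ∪ {a, b}, ⟨⟨h3, h7⟩, subset_union_right⟩, ?_⟩
        unfold f
        congr 1
        ext x
        simp only [mem_erase, mem_union, mem_insert, mem_singleton]
        constructor
        · rintro ⟨hx, hx' | rfl | rfl⟩
          · exact hx'
          · exact ha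
          · exact absurd rfl hx
        · intro hx
          exact ⟨fun hxb => hb (hxb ▸ hx), Or.inl hx⟩
      · left
        refine ⟨ρ ∪ {a, b}, ⟨⟨h3, h7⟩, subset_union_right⟩, ?_⟩
        -- then `b ∈ ρ`
        have hb : b ∈ ρ := by
          by_contra hb
          have h8 : Disjoint ρ {a, b} := by
            rw [Finset.disjoint_left]
            intro x hx hx'
            simp only [mem_insert, mem_singleton] at hx'
            rcases hx' with rfl | rfl
            · exact ha hx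
            · exact hb hx
          rw [card_union_of_disjoint h8, card_pair hab] at h7
          omega
        unfold f
        congr 1
        ext x
        simp only [mem_erase, mem_union, mem_insert, mem_singleton]
        constructor
        · rintro ⟨hx, hx' | rfl | rfl⟩
          · exact hx'
          · exact absurd rfl hx
          · exact hb
        · intro hx
          exact ⟨fun hxb => ha (hxb ▸ hx), Or.inl hx⟩
  · rintro (⟨⟨h1, h2⟩, h3⟩ | ⟨τ, ⟨⟨h1, h2⟩, h3⟩, rfl⟩ | ⟨τ, ⟨⟨h1, h2⟩, h3⟩, rfl⟩)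
    · exact ⟨Or.inl ⟨h1, h3⟩, h2⟩
    · have ha : a ∈ τ := h3 (by simp)
      have hb : b ∈ τ := h3 (by simp)
      refine ⟨Or.inr ⟨τ.erase a, h.down _ h1 _ (erase_subset _ _), ⟨?_, ?_⟩, rfl⟩, ?_⟩
      · intro hh
        have : a ∈ τ.erase a := hh (by simp)
        simp at this
      · have : τ.erase a ∪ {a, b} = τ := by
          ext x
          simp only [mem_erase, mem_union, mem_insert, mem_singleton]
          constructor
          · rintro (hx | rfl | rfl)
            · exact hx.2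
            · exact ha
            · exact hb
          · intro hx
            by_cases hxa : x = a
            · exact Or.inr (Or.inl hxa)
            · exact Or.inl ⟨hxa, hx⟩
        rw [this]; exact h1
      · unfold f
        rw [card_insert_of_notMem (fun hh => fresh_notMem h1 (mem_of_mem_erase hh)),
          card_erase_of_mem ha, h2]
        have : 0 < τ.card := card_pos.2 ⟨a, ha⟩
        omega
    · have ha : a ∈ τ := h3 (by simp)
      have hb : b ∈ τ := h3 (by simp)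
      refine ⟨Or.inr ⟨τ.erase b, h.down _ h1 _ (erase_subset _ _), ⟨?_, ?_⟩, rfl⟩, ?_⟩
      · intro hh
        have : b ∈ τ.erase b := hh (by simp)
        simp at this
      · have : τ.erase b ∪ {a, b} = τ := by
          ext x
          simp only [mem_erase, mem_union, mem_insert, mem_singleton]
          constructor
          · rintro (hx | rfl | rfl)
            · exact hx.2
            · exact ha
            · exact hb
          · intro hx
            by_cases hxa : x = b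
            · exact Or.inr (Or.inr hxa)
            · exact Or.inl ⟨hxa, hx⟩
        rw [this]; exact h1
      · unfold f
        rw [card_insert_of_notMem (fun hh => fresh_notMem h1 (mem_of_mem_erase hh)),
          card_erase_of_mem hb, h2]
        have : 0 < τ.card := card_pos.2 ⟨b, hb⟩
        omega

lemma f_inj {Δ : Cx} {a : ℕ} {τ τ' : Finset ℕ} (h1 : τ ∈ Δ) (h2 : τ' ∈ Δ) (ha : a ∈ τ) (ha' : a ∈ τ')
    (h : f Δ a τ = f Δ a τ') : τ = τ' := by
  have e1 : (f Δ a τ).erase (fresh Δ) = τ.erase a :=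
    erase_insert (fun hh => fresh_notMem h1 (mem_of_mem_erase hh))
  have e2 : (f Δ a τ').erase (fresh Δ) = τ'.erase a :=
    erase_insert (fun hh => fresh_notMem h2 (mem_of_mem_erase hh))
  rw [← insert_erase ha, ← insert_erase ha', ← e1, ← e2, h]

lemma sum_facets {d : ℕ} {Δ : Cx} (h : IsPure d Δ) {a b : ℕ} (hab : a ≠ b)
    (he : ({a, b} : Finset ℕ) ∈ Δ) (F : Finset ℕ → ℝ) :
    ∑ σ ∈ facets d (sub Δ {a, b}), F σ =
      ∑ τ ∈ facets d Δ, if {a, b} ⊆ τ then F (f Δ a τ) + F (f Δ b τ) else F τ := by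
  have hmem : ∀ τ, τ ∈ (facets d Δ).filter (fun τ => {a, b} ⊆ τ) → τ ∈ Δ ∧ a ∈ τ ∧ b ∈ τ := by
    intro τ hτ
    simp only [facets, mem_filter] at hτ
    exact ⟨hτ.1.1, hτ.2 (by simp), hτ.2 (by simp)⟩
  rw [facets_sub h hab he, sum_union, sum_union, sum_image, sum_image, Finset.sum_ite, sum_add_distrib,
    add_comm]
  · intro τ hτ τ' hτ' heq
    obtain ⟨h1, -, h2⟩ := hmem τ hτ
    obtain ⟨h3, -, h4⟩ := hmem τ' hτ'
    exact f_inj h1 h3 h2 h4 heq
  · intro τ hτ τ' hτ' heq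
    obtain ⟨h1, h2, -⟩ := hmem τ hτ
    obtain ⟨h3, h4, -⟩ := hmem τ' hτ'
    exact f_inj h1 h3 h2 h4 heq
  · rw [Finset.disjoint_left]
    intro σ hσ hσ'
    obtain ⟨τ, hτ, rfl⟩ := mem_image.1 hσ
    obtain ⟨τ', hτ', heq⟩ := mem_image.1 hσ'
    obtain ⟨h1, h2, h2'⟩ := hmem τ hτ
    obtain ⟨h3, h4, h4'⟩ := hmem τ' hτ'
    have hw : a ≠ fresh Δ := (mem_lt_fresh h1 h2).ne
    have : a ∈ f Δ b τ' := by
      unfold f
      exact mem_insert_of_mem (mem_erase.2 ⟨hab, h4⟩)
    rw [heq] at this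
    unfold f at this
    rw [mem_insert, mem_erase] at this
    rcases this with hh | hh
    · exact hw hh
    · exact hh.1 rfl
  · rw [Finset.disjoint_left]
    intro σ hσ hσ'
    have h1 : fresh Δ ∉ σ := by
      simp only [facets, mem_filter] at hσ
      exact fresh_notMem hσ.1.1
    rw [mem_union, mem_image, mem_image] at hσ'
    rcases hσ' with ⟨τ, -, rfl⟩ | ⟨τ, -, rfl⟩ <;> exact h1 (mem_insert_self _ _)

/-- intersections -/
lemma card_same {Δ : Cx} {a : ℕ} {τ τ' : Finset ℕ} (h1 : τ ∈ Δ) (ha : a ∈ τ)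
    (ha' : a ∈ τ') : (f Δ a τ ∩ f Δ a τ').card = (τ ∩ τ').card := by
  have : f Δ a τ ∩ f Δ a τ' = insert (fresh Δ) ((τ ∩ τ').erase a) := by
    unfold f
    ext x
    simp only [mem_inter, mem_insert, mem_erase]
    tauto
  rw [this, card_insert_of_notMem, card_erase_of_mem (mem_inter.2 ⟨ha, ha'⟩)]
  · have : 0 < (τ ∩ τ').card := card_pos.2 ⟨a, mem_inter.2 ⟨ha, ha'⟩⟩
    omega
  · intro hh
    exact fresh_notMem h1 (mem_inter.1 (mem_of_mem_erase hh)).1

lemma card_diff {Δ : Cx} {a b : ℕ} (hab : a ≠ b) {τ τ' : Finset ℕ} (h1 : τ ∈ Δ)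
    (ha : a ∈ τ) (ha' : a ∈ τ') (hb : b ∈ τ) (hb' : b ∈ τ') :
    (f Δ a τ ∩ f Δ b τ').card = (τ ∩ τ').card - 1 := by
  have : f Δ a τ ∩ f Δ b τ' = insert (fresh Δ) (((τ ∩ τ').erase a).erase b) := by
    unfold f
    ext x
    simp only [mem_inter, mem_insert, mem_erase]
    tauto
  have hbm : b ∈ (τ ∩ τ').erase a := mem_erase.2 ⟨hab.symm, mem_inter.2 ⟨hb, hb'⟩⟩
  rw [this, card_insert_of_notMem, card_erase_of_mem hbm,
    card_erase_of_mem (mem_inter.2 ⟨ha, ha'⟩)]
  · have : 0 < ((τ ∩ τ').erase a).card := card_pos.2 ⟨b, hbm⟩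
    rw [card_erase_of_mem (mem_inter.2 ⟨ha, ha'⟩)] at this
    omega
  · intro hh
    exact fresh_notMem h1 (mem_inter.1 (mem_of_mem_erase (mem_of_mem_erase hh))).1

lemma inter_old {Δ : Cx} {a : ℕ} {τ τ' : Finset ℕ} (h2 : τ' ∈ Δ) :
    f Δ a τ ∩ τ' = (τ ∩ τ').erase a := by
  have hw := fresh_notMem h2
  unfold f
  ext x
  simp only [mem_inter, mem_insert, mem_erase]
  constructor
  · rintro ⟨rfl | h, h'⟩
    · exact absurd h' hw
    · exact ⟨h.1, h.2, h'⟩
  · rintro ⟨h, h', h''⟩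
    exact ⟨Or.inr ⟨h, h'⟩, h''⟩

/-- one facet is subdivided, the other one not -/
lemma one (d : ℕ) {Δ : Cx} {a b : ℕ} (hab : a ≠ b) {τ τ' : Finset ℕ} (h2 : τ' ∈ Δ)
    (hτ : {a, b} ⊆ τ) (hτ' : ¬ {a, b} ⊆ τ') :
    wt d (f Δ a τ ∩ τ').card + wt d (f Δ b τ ∩ τ').card =
      if {a, b} ∩ τ' = ∅ then 2 * wt d (τ ∩ τ').card
      else wt d (τ ∩ τ').card + wt d ((τ ∩ τ').card - 1) := by
  have ha : a ∈ τ := hτ (by simp)
  have hb : b ∈ τ := hτ (by simp)
  have hor : a ∉ τ' ∨ b ∉ τ' := by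
    by_contra hh
    push Not at hh
    apply hτ'
    intro x hx
    simp only [mem_insert, mem_singleton] at hx
    rcases hx with rfl | rfl
    · exact hh.1
    · exact hh.2
  have hemp : ({a, b} : Finset ℕ) ∩ τ' = ∅ ↔ a ∉ τ' ∧ b ∉ τ' := by
    rw [← Finset.disjoint_iff_inter_eq_empty, Finset.disjoint_left]
    simp
  rw [inter_old h2, inter_old h2]
  by_cases ha' : a ∈ τ'
  · have hb' : b ∉ τ' := by tauto
    rw [if_neg (by rw [hemp]; tauto), card_erase_of_mem (mem_inter.2 ⟨ha, ha'⟩),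
      erase_eq_of_notMem (a := b) (fun hh => hb' (mem_inter.1 hh).2), add_comm]
  · rw [erase_eq_of_notMem (a := a) (fun hh => ha' (mem_inter.1 hh).2)]
    by_cases hb' : b ∈ τ'
    · rw [if_neg (by rw [hemp]; tauto), card_erase_of_mem (mem_inter.2 ⟨hb, hb'⟩)]
    · rw [if_pos (by rw [hemp]; tauto), erase_eq_of_notMem (a := b) (fun hh => hb' (mem_inter.1 hh).2)]
      ring

end C4A

/-- C4A -/
theorem Hq_sub {d : ℕ} {Δ : Cx} (h : IsPure d Δ) (hd : 2 ≤ d) {e : Finset ℕ} (he : e ∈ edges Δ) :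
    Hq d (sub Δ e) = ∑ τ ∈ facets d Δ, ∑ τ' ∈ facets d Δ, Kq d e τ τ' := by
  obtain ⟨heΔ, hcard⟩ := mem_filter.1 he
  obtain ⟨a, b, hab, rfl⟩ := card_eq_two.1 hcard
  unfold Hq
  rw [C4A.sum_facets h hab heΔ (fun σ => ∑ τ' ∈ facets d (sub Δ {a, b}), wt d (σ ∩ τ').card)]
  refine sum_congr rfl fun τ hτ => ?_
  have hτΔ : τ ∈ Δ := (mem_filter.1 hτ).1
  have key : ∀ σ : Finset ℕ, ∑ τ' ∈ facets d (sub Δ {a, b}), wt d (σ ∩ τ').card =
      ∑ τ' ∈ facets d Δ, if {a, b} ⊆ τ' then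
        wt d (σ ∩ C4A.f Δ a τ').card + wt d (σ ∩ C4A.f Δ b τ').card else wt d (σ ∩ τ').card :=
    fun σ => C4A.sum_facets h hab heΔ (fun τ' => wt d (σ ∩ τ').card)
  simp only [key]
  by_cases hs : {a, b} ⊆ τ
  · rw [if_pos hs, ← sum_add_distrib]
    refine sum_congr rfl fun τ' hτ' => ?_
    have hτΔ' : τ' ∈ Δ := (mem_filter.1 hτ').1
    unfold Kq
    rw [if_pos hs]
    by_cases hs' : {a, b} ⊆ τ'
    · rw [if_pos hs', if_pos hs', if_pos hs']
      have ha : a ∈ τ := hs (by simp)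
      have hb : b ∈ τ := hs (by simp)
      have ha' : a ∈ τ' := hs' (by simp)
      have hb' : b ∈ τ' := hs' (by simp)
      rw [C4A.card_same hτΔ ha ha', C4A.card_same hτΔ hb hb', C4A.card_diff hab hτΔ ha ha' hb hb',
        C4A.card_diff hab.symm hτΔ hb hb' ha ha']
      ring
    · rw [if_neg hs', if_neg hs', if_neg hs', C4A.one d hab hτΔ' hs hs']
  · rw [if_neg hs]
    refine sum_congr rfl fun τ' hτ' => ?_
    unfold Kq
    rw [if_neg hs]
    by_cases hs' : {a, b} ⊆ τ'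
    · rw [if_pos hs', if_pos hs', inter_comm τ (C4A.f Δ a τ'), inter_comm τ (C4A.f Δ b τ'),
        C4A.one d hab hτΔ hs' hs, inter_comm τ' τ]
    · rw [if_neg hs', if_neg hs']

end Pool.Agent.T2H44.RS
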