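import Pool.Agent.T2H44.RS.C4

set_option autoImplicit false

/-!
# RS, package C4B: see the header of `C4.lean` (independent of the proof of C4A)
-/

namespace Pool.Agent.T2H44.RS

open Finset

namespace PkgC4B

lemma wt_nonneg (d m : ℕ) : 0 ≤ wt d m := by
  unfold wt
  split_ifs <;> positivity

lemma wt_pred {d : ℕ} (hd : 2 ≤ d) (m : ℕ) : 16 * wt d (m - 1) ≤ wt d m := by
  rcases m with _ | m
  · simp [wt]
  · rw [Nat.add_sub_cancel]
    by_cases h : 2 ≤ m
    · unfold wt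
      rw [if_pos h, if_pos (by omega), pow_succ (4 * (d : ℝ) ^ 2) m]
      have h2 : (2 : ℝ) ≤ d := by exact_mod_cast hd
      have h3 : (16 : ℝ) ≤ 4 * (d : ℝ) ^ 2 := by nlinarith
      have h4 : (0 : ℝ) ≤ (4 * (d : ℝ) ^ 2) ^ m := by positivity
      nlinarith
    · have : wt d m = 0 := by
        unfold wt
        rw [if_neg h]
      rw [this, mul_zero]
      exact wt_nonneg _ _

/-- pointwise bound -/
lemma Kq_le {d : ℕ} (hd : 2 ≤ d) (e τ τ' : Finset ℕ) :
    Kq d e τ τ' ≤ wt d (τ ∩ τ').card * (1 + (if e ⊆ τ then 1 else 0) + (if e ⊆ τ' then 1 else 0) -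
      7 / 8 * (if e ⊆ τ ∩ τ' then 1 else 0)) := by
  have h1 := wt_pred hd (τ ∩ τ').card
  have h2 := wt_nonneg d (τ ∩ τ').card
  have h3 := wt_nonneg d ((τ ∩ τ').card - 1)
  unfold Kq
  simp only [Finset.subset_inter_iff]
  by_cases a1 : e ⊆ τ <;> by_cases a2 : e ⊆ τ'
  · simp only [a1, a2, if_true, and_self]
    linarith
  · simp only [a1, a2, if_true, if_false, and_false]
    split_ifs <;> linarith
  · simp only [a1, a2, if_true, if_false, false_and]
    split_ifs <;> linarith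
  · simp only [a1, a2, if_false, and_self]
    linarith

lemma card_sub {d : ℕ} {Δ : Cx} {τ : Finset ℕ} (hτ : τ ∈ facets d Δ) :
    (((edges Δ).filter fun e => e ⊆ τ).card : ℝ) ≤ (d : ℝ) * (d - 1) / 2 := by
  have h1 : (edges Δ).filter (fun e => e ⊆ τ) ⊆ Finset.powersetCard 2 τ := by
    intro e he
    rw [mem_filter, edges, mem_filter] at he
    rw [mem_powersetCard]
    exact ⟨he.2, he.1.2⟩
  have h2 := Finset.card_le_card h1
  rw [Finset.card_powersetCard] at h2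
  have h3 : τ.card = d := (mem_filter.1 hτ).2
  rw [h3] at h2
  calc (((edges Δ).filter fun e => e ⊆ τ).card : ℝ) ≤ (d.choose 2 : ℕ) := by exact_mod_cast h2
    _ = (d : ℝ) * (d - 1) / 2 := Nat.cast_choose_two ℝ d

end PkgC4B

open PkgC4B in
/-- C4B -/
theorem sum_Kq {d : ℕ} {Δ : Cx} (h : IsPure d Δ) (hd : 2 ≤ d) {τ τ' : Finset ℕ}
    (hτ : τ ∈ facets d Δ) (hτ' : τ' ∈ facets d Δ) :
    ∑ e ∈ edges Δ, Kq d e τ τ' ≤
      ((edges Δ).card + (d : ℝ) * (d - 1) - 1 / 2) * wt d (τ ∩ τ').card := by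
  set W := wt d (τ ∩ τ').card with hW
  have hW0 : 0 ≤ W := wt_nonneg _ _
  have h1 : ∑ e ∈ edges Δ, Kq d e τ τ' ≤ ∑ e ∈ edges Δ, W * (1 + (if e ⊆ τ then 1 else 0) +
      (if e ⊆ τ' then 1 else 0) - 7 / 8 * (if e ⊆ τ ∩ τ' then 1 else 0)) :=
    Finset.sum_le_sum fun e _ => Kq_le hd e τ τ'
  refine h1.trans ?_
  rw [← Finset.mul_sum, Finset.sum_sub_distrib, Finset.sum_add_distrib, Finset.sum_add_distrib,
    ← Finset.mul_sum]
  simp only [Finset.sum_boole, Finset.sum_const, nsmul_eq_mul, mul_one]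
  have h2 := card_sub hτ
  have h3 := card_sub hτ'
  by_cases hm : 2 ≤ (τ ∩ τ').card
  · have h4 : (1 : ℝ) ≤ ((edges Δ).filter fun e => e ⊆ τ ∩ τ').card := by
      obtain ⟨e, he1, he2⟩ := Finset.exists_subset_card_eq hm
      have h5 : e ∈ (edges Δ).filter fun e => e ⊆ τ ∩ τ' := by
        rw [mem_filter, edges, mem_filter]
        refine ⟨⟨h.down τ (mem_filter.1 hτ).1 e (he1.trans inter_subset_left), he2⟩, he1⟩
      have : 0 < ((edges Δ).filter fun e => e ⊆ τ ∩ τ').card := Finset.card_pos.2 ⟨e, h5⟩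
      exact_mod_cast this
    rw [mul_comm]
    refine mul_le_mul_of_nonneg_right ?_ hW0
    linarith
  · have hW2 : W = 0 := by
      rw [hW, wt, if_neg hm]
    rw [hW2, zero_mul, mul_zero]

end Pool.Agent.T2H44.RS
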