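import Pool.Agent.T2H44.RS.C1

set_option autoImplicit false

/-!
# RS, package C6: subdivisions of edges preserve the Eulerian property

Let `w = fresh Δ` and `σ' ∈ sub Δ e`.

Case `σ' = σ ∈ Δ`, `¬ e ⊆ σ`. The members of `sub Δ e` that contain `σ` are (i) the `τ ∈ Δ`, `τ ⊇ σ`, `¬ e ⊆ τ`,
(ii) `insert w ρ`, `ρ ∈ Δ`, `¬ e ⊆ ρ`, `ρ ∪ e ∈ Δ`, `σ ⊆ ρ`. The sum over (i) is `(-1)^d - A`, where
`A = ∑_{τ ∈ Δ, τ ⊇ σ ∪ e} (-1)^|τ|`, and the sum over (ii) is `- ∑_ρ (-1)^|ρ|`. The `ρ` are `τ \ K` with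
`τ = ρ ∪ e ⊇ σ ∪ e` and `∅ ≠ K = e \ ρ ⊆ e \ σ`; for fixed `τ` the sum over `K` of `(-1)^(|τ| - |K|)` is
`(-1)^|τ| (0 - 1)`, because `e \ σ ≠ ∅` (`Finset.sum_powerset_neg_one_pow_card_of_nonempty`). So the sum over
(ii) is `A`, and the total is `(-1)^d`.

Case `σ' = insert w σ`, `σ ∈ Δ`, `¬ e ⊆ σ`, `σ ∪ e ∈ Δ`. The members that contain `σ'` are the `insert w ρ` of
(ii), and the sum is `A`, which is `(-1)^d` because `σ ∪ e ∈ Δ`.

(It is convenient to prove first: for `σ ∈ Δ` with `¬ e ⊆ σ` the sum of `(-1)^|ρ|` over all `ρ ∈ Δ` with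
`σ ⊆ ρ`, `¬ e ⊆ ρ`, `ρ ∪ e ∈ Δ` is `-A`.)
-/

namespace Pool.Agent.T2H44.RS

open Finset

theorem neg_one_pow_sdiff {τ K : Finset ℕ} (h : K ⊆ τ) :
    (-1 : ℤ) ^ (τ \ K).card = (-1) ^ τ.card * (-1) ^ K.card := by
  have h1 : (τ \ K).card + K.card = τ.card := card_sdiff_add_card_eq_card h
  rw [← h1, pow_add, mul_assoc, ← mul_pow]
  simp

theorem sum_new {d : ℕ} {Δ : Cx} (h : IsPure d Δ) {e σ : Finset ℕ} (hne : ¬ e ⊆ σ) :
    ∑ ρ ∈ Δ.filter (fun ρ => (¬ e ⊆ ρ ∧ ρ ∪ e ∈ Δ) ∧ σ ⊆ ρ), (-1 : ℤ) ^ ρ.card =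
      - ∑ τ ∈ Δ.filter (fun τ => σ ∪ e ⊆ τ), (-1 : ℤ) ^ τ.card := by
  rw [← Finset.sum_fiberwise_of_maps_to (t := Δ.filter (fun τ => σ ∪ e ⊆ τ)) (g := fun ρ => ρ ∪ e)]
  · rw [← Finset.sum_neg_distrib]
    refine Finset.sum_congr rfl fun τ hτ => ?_
    rw [mem_filter] at hτ
    have h1 : ∑ ρ ∈ (Δ.filter (fun ρ => (¬ e ⊆ ρ ∧ ρ ∪ e ∈ Δ) ∧ σ ⊆ ρ)).filter
        (fun ρ => ρ ∪ e = τ), (-1 : ℤ) ^ ρ.card =
        ∑ K ∈ (e \ σ).powerset.erase ∅, (-1 : ℤ) ^ τ.card * (-1) ^ K.card := by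
      refine Finset.sum_nbij' (fun ρ => τ \ ρ) (fun K => τ \ K) ?_ ?_ ?_ ?_ ?_
      · intro ρ hρ
        rw [mem_filter, mem_filter] at hρ
        obtain ⟨⟨h2, ⟨h3, h4⟩, h5⟩, rfl⟩ := hρ
        rw [mem_erase, mem_powerset]
        constructor
        · intro h6
          apply h3
          have h7 := sdiff_eq_empty_iff_subset.1 h6
          exact subset_union_right.trans h7
        · intro x hx
          rw [mem_sdiff, mem_union] at hx
          rw [mem_sdiff]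
          exact ⟨hx.1.resolve_left hx.2, fun h8 => hx.2 (h5 h8)⟩
      · intro K hK
        rw [mem_erase, mem_powerset] at hK
        have hKe : K ⊆ e := hK.2.trans sdiff_subset
        have hKτ : K ⊆ τ := hKe.trans (subset_union_right.trans hτ.2)
        rw [mem_filter, mem_filter]
        have h9 : τ \ K ∪ e = τ := by
          ext x
          rw [mem_union, mem_sdiff]
          constructor
          · rintro (h1 | h1)
            · exact h1.1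
            · exact hτ.2 (mem_union_right _ h1)
          · intro h1
            by_cases h2 : x ∈ K
            · exact Or.inr (hKe h2)
            · exact Or.inl ⟨h1, h2⟩
        refine ⟨⟨h.down τ hτ.1 _ sdiff_subset, ⟨?_, ?_⟩, ?_⟩, h9⟩
        · intro h1
          obtain ⟨x, hx⟩ := nonempty_iff_ne_empty.2 hK.1
          exact (mem_sdiff.1 (h1 (hKe hx))).2 hx
        · rw [h9]
          exact hτ.1
        · intro x hx
          rw [mem_sdiff]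
          exact ⟨hτ.2 (mem_union_left _ hx), fun h1 => (mem_sdiff.1 (hK.2 h1)).2 hx⟩
      · intro ρ hρ
        rw [mem_filter, mem_filter] at hρ
        obtain ⟨⟨h2, ⟨h3, h4⟩, h5⟩, rfl⟩ := hρ
        exact Finset.sdiff_sdiff_eq_self subset_union_left
      · intro K hK
        rw [mem_erase, mem_powerset] at hK
        have hKe : K ⊆ e := hK.2.trans sdiff_subset
        have hKτ : K ⊆ τ := hKe.trans (subset_union_right.trans hτ.2)
        exact Finset.sdiff_sdiff_eq_self hKτ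
      · intro ρ hρ
        rw [mem_filter, mem_filter] at hρ
        obtain ⟨⟨h2, ⟨h3, h4⟩, h5⟩, rfl⟩ := hρ
        rw [neg_one_pow_sdiff subset_union_left, ← mul_assoc, ← mul_pow]
        simp
    rw [h1, ← Finset.mul_sum]
    have h2 : (e \ σ).Nonempty := by
      obtain ⟨x, hx, hx2⟩ := not_subset.1 hne
      exact ⟨x, mem_sdiff.2 ⟨hx, hx2⟩⟩
    have h3 := sum_powerset_neg_one_pow_card_of_nonempty h2
    have h4 := Finset.add_sum_erase ((e \ σ).powerset) (fun K => (-1 : ℤ) ^ K.card)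
      (empty_mem_powerset _)
    rw [h3] at h4
    simp only [card_empty, pow_zero] at h4
    have h5 : ∑ K ∈ (e \ σ).powerset.erase ∅, (-1 : ℤ) ^ K.card = -1 := by linarith
    rw [h5]
    ring
  · intro ρ hρ
    rw [mem_filter] at hρ
    exact mem_filter.2 ⟨hρ.2.1.2, union_subset_union_left hρ.2.2⟩

theorem isEul_sub {d : ℕ} {Δ : Cx} (h : IsPure d Δ) (hE : IsEul d Δ) {e : Finset ℕ}
    (he : e ∈ edges Δ) : IsEul d (sub Δ e) := by
  -- the sum over the new faces that contain `insert w σ`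
  have hnew : ∀ σ : Finset ℕ, ¬ e ⊆ σ → ∀ S : Finset (Finset ℕ),
      (∀ τ, τ ∈ S ↔ ∃ ρ ∈ Δ, ((¬ e ⊆ ρ ∧ ρ ∪ e ∈ Δ) ∧ σ ⊆ ρ) ∧ insert (fresh Δ) ρ = τ) →
      ∑ τ ∈ S, (-1 : ℤ) ^ τ.card = ∑ τ ∈ Δ.filter (fun τ => σ ∪ e ⊆ τ), (-1 : ℤ) ^ τ.card := by
    intro σ hσ S hS
    have h1 : S = (Δ.filter (fun ρ => (¬ e ⊆ ρ ∧ ρ ∪ e ∈ Δ) ∧ σ ⊆ ρ)).image
        (insert (fresh Δ)) := by
      ext τ
      rw [hS, mem_image]
      simp only [mem_filter]
      constructor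
      · rintro ⟨ρ, h1, h2, h3⟩
        exact ⟨ρ, ⟨h1, h2⟩, h3⟩
      · rintro ⟨ρ, ⟨h1, h2⟩, h3⟩
        exact ⟨ρ, h1, h2, h3⟩
    rw [h1, Finset.sum_image]
    · have h2 : ∀ ρ ∈ Δ.filter (fun ρ => (¬ e ⊆ ρ ∧ ρ ∪ e ∈ Δ) ∧ σ ⊆ ρ),
          (-1 : ℤ) ^ (insert (fresh Δ) ρ).card = - (-1) ^ ρ.card := by
        intro ρ hρ
        rw [card_insert_of_notMem (fresh_notMem (mem_filter.1 hρ).1), pow_succ]
        ring
      rw [Finset.sum_congr rfl h2, Finset.sum_neg_distrib, sum_new h hσ, neg_neg]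
    · intro ρ hρ ρ' hρ' h3
      have h4 : ρ = (insert (fresh Δ) ρ).erase (fresh Δ) :=
        (erase_insert (fresh_notMem (mem_filter.1 (mem_coe.1 hρ)).1)).symm
      have h5 : ρ' = (insert (fresh Δ) ρ').erase (fresh Δ) :=
        (erase_insert (fresh_notMem (mem_filter.1 (mem_coe.1 hρ')).1)).symm
      rw [h4, h5, h3]
  intro σ hσ
  rcases mem_sub.1 hσ with ⟨h1, h2⟩ | ⟨σ₀, h1, ⟨h2, h3⟩, rfl⟩
  · -- an old face
    have hsplit : (sub Δ e).filter (fun τ => σ ⊆ τ) =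
        ((Δ.filter (fun τ => σ ⊆ τ)).filter (fun τ => ¬ e ⊆ τ)) ∪
        ((sub Δ e).filter (fun τ => σ ⊆ τ)).filter (fun τ => fresh Δ ∈ τ) := by
      ext τ
      rw [mem_union, mem_filter, mem_filter, mem_filter, mem_filter, mem_filter, mem_sub]
      constructor
      · rintro ⟨h4, h5⟩
        rcases h4 with h4 | h4
        · exact Or.inl ⟨⟨h4.1, h5⟩, h4.2⟩
        · refine Or.inr ⟨⟨Or.inr h4, h5⟩, ?_⟩
          obtain ⟨ρ, _, _, h6⟩ := h4
          rw [← h6]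
          exact mem_insert_self _ _
      · rintro (h4 | h4)
        · exact ⟨Or.inl ⟨h4.1.1, h4.2⟩, h4.1.2⟩
        · exact h4.1
    rw [hsplit, Finset.sum_union]
    · have h4 : ∀ τ, τ ∈ ((sub Δ e).filter (fun τ => σ ⊆ τ)).filter (fun τ => fresh Δ ∈ τ) ↔
          ∃ ρ ∈ Δ, ((¬ e ⊆ ρ ∧ ρ ∪ e ∈ Δ) ∧ σ ⊆ ρ) ∧ insert (fresh Δ) ρ = τ := by
        intro τ
        rw [mem_filter, mem_filter, mem_sub]
        constructor
        · rintro ⟨⟨h5 | ⟨ρ, h5, h6, rfl⟩, h7⟩, h8⟩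
          · exact absurd h8 (fresh_notMem h5.1)
          · exact ⟨ρ, h5, ⟨h6, (subset_insert_iff_of_notMem (fresh_notMem h1)).1 h7⟩, rfl⟩
        · rintro ⟨ρ, h5, ⟨h6, h7⟩, rfl⟩
          exact ⟨⟨Or.inr ⟨ρ, h5, h6, rfl⟩, h7.trans (subset_insert _ _)⟩, mem_insert_self _ _⟩
      rw [hnew σ h2 _ h4]
      have h5 : (Δ.filter (fun τ => σ ∪ e ⊆ τ)) =
          (Δ.filter (fun τ => σ ⊆ τ)).filter (fun τ => ¬ ¬ e ⊆ τ) := by
        ext τ
        rw [mem_filter, mem_filter, mem_filter, union_subset_iff, not_not, and_assoc]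
      rw [h5, Finset.sum_filter_add_sum_filter_not]
      exact hE σ h1
    · rw [disjoint_left]
      intro τ h4 h5
      rw [mem_filter, mem_filter] at h4 h5
      exact fresh_notMem h4.1.1 h5.2
  · -- a new face
    rw [hnew σ₀ h2 _ ?_]
    · exact hE _ h3
    · intro τ
      rw [mem_filter, mem_sub]
      constructor
      · rintro ⟨h5 | ⟨ρ, h5, h6, rfl⟩, h7⟩
        · exact absurd (h7 (mem_insert_self _ _)) (fresh_notMem h5.1)
        · refine ⟨ρ, h5, ⟨h6, ?_⟩, rfl⟩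
          intro x hx
          have h8 := h7 (mem_insert_of_mem hx)
          refine (mem_insert.1 h8).resolve_left ?_
          rintro rfl
          exact fresh_notMem h1 hx
      · rintro ⟨ρ, h5, ⟨h6, h7⟩, rfl⟩
        exact ⟨Or.inr ⟨ρ, h5, h6, rfl⟩, insert_subset_insert _ h7⟩

end Pool.Agent.T2H44.RS
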