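import Pool.Agent.T2H44.RS.E0

set_option autoImplicit false

/-!
# RS, package CE: the filtration and the conditional expectations

`fil` is the filtration of the histories, `fil n = σ(e 0, …, e (n-1))`. As the values are in a countable
set, the history is a measurable map to a countable discrete space.

`measurable_run`: a function of the history is measurable (`Measurable.comp`, `comap_measurable`).

`condExp_step`: use `ae_eq_condExp_of_forall_setIntegral_eq`. The history `h_n` takes only finitely many values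
(`e n ω ∈ edges (run …)`), so a set `s ∈ fil n` is a finite disjoint union of the sets `{h_n = t}`, on which
`X n = run Δ₀ t n` is constant, and the integral of `G (X (n+1))` over `{h_n = t}` is
`∑_{a ∈ edges (X n)} G (sub (X n) a) μ(h_n = t, e n = a) = μ(h_n = t) · ∑_a G (sub (X n) a) / |edges (X n)|`.
-/

namespace Pool.Agent.T2H44.RS

open Finset Filter Topology MeasureTheory

/-- the history -/
def hist {Ω : Type} (e : ℕ → Ω → Finset ℕ) (n : ℕ) (ω : Ω) : Fin n → Finset ℕ := fun i => e i ω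

theorem hist_eq_set {Ω : Type} (e : ℕ → Ω → Finset ℕ) (n : ℕ) (t : Fin n → Finset ℕ) :
    {ω | hist e n ω = t} = ⋂ i : Fin n, {ω | e i ω = t i} := by
  ext ω
  simp only [Set.mem_ofPred_eq, Set.mem_iInter, funext_iff, hist]

theorem hist_set_measurable {Ω : Type} {mΩ : MeasurableSpace Ω} {e : ℕ → Ω → Finset ℕ}
    (he : ∀ n a, MeasurableSet {ω | e n ω = a}) (n : ℕ) (t : Fin n → Finset ℕ) :
    MeasurableSet {ω | hist e n ω = t} := by
  rw [hist_eq_set]
  exact MeasurableSet.iInter fun i => he i (t i)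

theorem hist_measurable {Ω : Type} {mΩ : MeasurableSpace Ω} {e : ℕ → Ω → Finset ℕ}
    (he : ∀ n a, MeasurableSet {ω | e n ω = a}) (n : ℕ) :
    MeasurableSpace.comap (hist e n) ⊤ ≤ mΩ := by
  rintro s ⟨A, -, rfl⟩
  have h1 : hist e n ⁻¹' A = ⋃ t ∈ A, {ω | hist e n ω = t} := by
    ext ω
    simp
  rw [h1]
  exact MeasurableSet.biUnion (Set.to_countable A) fun t _ => hist_set_measurable he n t

/-- the filtration generated by `e` -/
def fil {Ω : Type} {mΩ : MeasurableSpace Ω} (e : ℕ → Ω → Finset ℕ)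
    (he : ∀ n a, MeasurableSet {ω | e n ω = a}) : Filtration ℕ mΩ where
  seq n := MeasurableSpace.comap (hist e n) ⊤
  mono' := by
    intro i j hij
    show MeasurableSpace.comap (hist e i) ⊤ ≤ MeasurableSpace.comap (hist e j) ⊤
    rintro s ⟨A, -, rfl⟩
    exact ⟨(fun (t : Fin j → Finset ℕ) (k : Fin i) => t (Fin.castLE hij k)) ⁻¹' A, trivial, rfl⟩
  le' n := hist_measurable he n

/-- `run` depends only on the first `n` edges -/
theorem run_congr (Δ₀ : Cx) {t t' : ℕ → Finset ℕ} : ∀ n : ℕ, (∀ i < n, t i = t' i) →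
    run Δ₀ t n = run Δ₀ t' n
  | 0, _ => rfl
  | n + 1, h => by
    rw [run, run, run_congr Δ₀ n fun i hi => h i (Nat.lt_succ_of_lt hi), h n (Nat.lt_succ_self n)]

/-- extension of a history -/
def exh (n : ℕ) (t : Fin n → Finset ℕ) : ℕ → Finset ℕ := fun i => if h : i < n then t ⟨i, h⟩ else ∅

theorem run_hist {Ω : Type} (e : ℕ → Ω → Finset ℕ) (Δ₀ : Cx) (n : ℕ) (ω : Ω) :
    run Δ₀ (fun i => e i ω) n = run Δ₀ (exh n (hist e n ω)) n :=
  run_congr Δ₀ n fun i hi => by
    unfold exh hist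
    rw [dif_pos hi]

theorem exh_set {Ω : Type} (e : ℕ → Ω → Finset ℕ) (n : ℕ) (t : Fin n → Finset ℕ) :
    {ω | ∀ i < n, e i ω = exh n t i} = {ω | hist e n ω = t} := by
  ext ω
  simp only [Set.mem_ofPred_eq]
  constructor
  · intro h
    funext i
    have := h i i.2
    unfold exh at this
    rw [dif_pos i.2] at this
    exact this
  · rintro rfl i hi
    unfold exh hist
    rw [dif_pos hi]

theorem measurable_run {Ω : Type} {mΩ : MeasurableSpace Ω} {e : ℕ → Ω → Finset ℕ}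
    (he : ∀ n a, MeasurableSet {ω | e n ω = a}) (Δ₀ : Cx) (G : Cx → ℝ) (n : ℕ) :
    StronglyMeasurable[fil e he n] (fun ω => G (run Δ₀ (fun i => e i ω) n)) := by
  have hm : Measurable[fil e he n] (fun ω => G (run Δ₀ (fun i => e i ω) n)) := by
    intro B _
    refine ⟨(fun t : Fin n → Finset ℕ => G (run Δ₀ (exh n t) n)) ⁻¹' B, trivial, ?_⟩
    ext ω
    simp only [Set.mem_preimage]
    rw [← run_hist]
  exact hm.stronglyMeasurable

/-- finitely many complexes are possible at the time `n` -/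
theorem finite_run {Ω : Type} {mΩ : MeasurableSpace Ω} {μ : Measure Ω} {Δ₀ : Cx}
    {e : ℕ → Ω → Finset ℕ} (h : RandomEdges μ Δ₀ e) (n : ℕ) :
    (Set.range fun ω => run Δ₀ (fun i => e i ω) n).Finite := by
  induction n with
  | zero =>
    refine (Set.finite_singleton Δ₀).subset ?_
    rintro _ ⟨ω, rfl⟩
    rfl
  | succ n ih =>
    refine (ih.biUnion fun Δ _ => ((edges Δ).finite_toSet.image (sub Δ))).subset ?_
    rintro _ ⟨ω, rfl⟩
    rw [Set.mem_iUnion₂]
    exact ⟨run Δ₀ (fun i => e i ω) n, ⟨ω, rfl⟩, e n ω, h.mem n ω, rfl⟩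

theorem finite_edge {Ω : Type} {mΩ : MeasurableSpace Ω} {μ : Measure Ω} {Δ₀ : Cx}
    {e : ℕ → Ω → Finset ℕ} (h : RandomEdges μ Δ₀ e) (n : ℕ) : (Set.range (e n)).Finite := by
  refine ((finite_run h n).biUnion fun Δ _ => (edges Δ).finite_toSet).subset ?_
  rintro _ ⟨ω, rfl⟩
  rw [Set.mem_iUnion₂]
  exact ⟨run Δ₀ (fun i => e i ω) n, ⟨ω, rfl⟩, h.mem n ω⟩

theorem finite_hist {Ω : Type} {mΩ : MeasurableSpace Ω} {μ : Measure Ω} {Δ₀ : Cx}
    {e : ℕ → Ω → Finset ℕ} (h : RandomEdges μ Δ₀ e) (n : ℕ) : (Set.range (hist e n)).Finite := by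
  refine (Set.Finite.pi (t := fun i : Fin n => Set.range (e i)) fun i => finite_edge h i).subset ?_
  rintro _ ⟨ω, rfl⟩ i _
  exact ⟨ω, rfl⟩

theorem integrable_run {Ω : Type} {mΩ : MeasurableSpace Ω} {μ : Measure Ω} [IsProbabilityMeasure μ]
    {Δ₀ : Cx} {e : ℕ → Ω → Finset ℕ} (h : RandomEdges μ Δ₀ e) (G : Cx → ℝ) (n : ℕ) :
    Integrable (fun ω => G (run Δ₀ (fun i => e i ω) n)) μ := by
  have h1 : (fun Δ => |G Δ|) '' (Set.range fun ω => run Δ₀ (fun i => e i ω) n) |>.Finite :=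
    (finite_run h n).image _
  obtain ⟨B, hB⟩ := h1.bddAbove
  refine Integrable.of_bound
    ((measurable_run h.meas Δ₀ G n).mono (hist_measurable h.meas n)).aestronglyMeasurable B
    (Filter.Eventually.of_forall fun ω => ?_)
  exact hB ⟨_, ⟨ω, rfl⟩, rfl⟩

/-- the integrals over the set of a history -/
theorem integral_hist {Ω : Type} {mΩ : MeasurableSpace Ω} {μ : Measure Ω} [IsProbabilityMeasure μ]
    {Δ₀ : Cx} {e : ℕ → Ω → Finset ℕ} (h : RandomEdges μ Δ₀ e) (G : Cx → ℝ) (n : ℕ)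
    (t : Fin n → Finset ℕ) :
    ∫ ω in {ω | hist e n ω = t}, (∑ a ∈ edges (run Δ₀ (fun i => e i ω) n),
        G (sub (run Δ₀ (fun i => e i ω) n) a)) / (edges (run Δ₀ (fun i => e i ω) n)).card ∂μ =
      ∫ ω in {ω | hist e n ω = t}, G (run Δ₀ (fun i => e i ω) (n + 1)) ∂μ := by
  obtain ⟨Δ, hΔ⟩ : ∃ Δ : Cx, Δ = run Δ₀ (exh n t) n := ⟨_, rfl⟩
  have hrun : ∀ ω ∈ {ω | hist e n ω = t}, run Δ₀ (fun i => e i ω) n = Δ := by
    intro ω hω
    rw [run_hist, hΔ]
    rw [Set.mem_ofPred_eq] at hω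
    rw [hω]
  have hEm := hist_set_measurable h.meas n t
  have hL : ∫ ω in {ω | hist e n ω = t}, (∑ a ∈ edges (run Δ₀ (fun i => e i ω) n),
      G (sub (run Δ₀ (fun i => e i ω) n) a)) / (edges (run Δ₀ (fun i => e i ω) n)).card ∂μ =
      μ.real {ω | hist e n ω = t} * ((∑ a ∈ edges Δ, G (sub Δ a)) / (edges Δ).card) := by
    rw [setIntegral_congr_fun hEm (g := fun _ => (∑ a ∈ edges Δ, G (sub Δ a)) / (edges Δ).card)
      fun ω hω => by simp only [hrun ω hω]]
    rw [setIntegral_const, smul_eq_mul]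
  have hU : {ω | hist e n ω = t} = ⋃ a ∈ edges Δ, ({ω | hist e n ω = t} ∩ {ω | e n ω = a}) := by
    ext ω
    simp only [Set.mem_iUnion, Set.mem_inter_iff, Set.mem_ofPred_eq, exists_prop]
    constructor
    · intro hω
      refine ⟨e n ω, ?_, hω, rfl⟩
      have := h.mem n ω
      rwa [hrun ω hω] at this
    · rintro ⟨a, -, hω, -⟩
      exact hω
  have hpm : ∀ a, MeasurableSet ({ω | hist e n ω = t} ∩ {ω | e n ω = a}) := fun a =>
    hEm.inter (h.meas n a)
  have hpr : ∀ a ∈ edges Δ, μ.real ({ω | hist e n ω = t} ∩ {ω | e n ω = a}) =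
      μ.real {ω | hist e n ω = t} / (edges Δ).card := by
    intro a ha
    have h1 := h.unif n (exh n t) a (hΔ ▸ ha)
    have h2 : {ω | (∀ i < n, e i ω = exh n t i) ∧ e n ω = a} =
        {ω | hist e n ω = t} ∩ {ω | e n ω = a} := by
      rw [← exh_set e n t]
      rfl
    rw [h2, exh_set, ← hΔ] at h1
    rw [measureReal_def, h1, measureReal_def, ENNReal.toReal_div, ENNReal.toReal_natCast]
  have hR : ∫ ω in {ω | hist e n ω = t}, G (run Δ₀ (fun i => e i ω) (n + 1)) ∂μ =
      ∑ a ∈ edges Δ, μ.real ({ω | hist e n ω = t} ∩ {ω | e n ω = a}) * G (sub Δ a) := by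
    have h1 : ∫ ω in {ω | hist e n ω = t}, G (run Δ₀ (fun i => e i ω) (n + 1)) ∂μ =
        ∫ ω in ⋃ a ∈ edges Δ, ({ω | hist e n ω = t} ∩ {ω | e n ω = a}),
          G (run Δ₀ (fun i => e i ω) (n + 1)) ∂μ := by rw [← hU]
    rw [h1, integral_biUnion_finset (edges Δ) (fun a _ => hpm a) ?_
      (fun a _ => (integrable_run h G (n + 1)).integrableOn)]
    · refine Finset.sum_congr rfl fun a _ => ?_
      rw [setIntegral_congr_fun (hpm a) (g := fun _ => G (sub Δ a)) fun ω hω => ?_]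
      · rw [setIntegral_const, smul_eq_mul]
      · show G (sub (run Δ₀ (fun i => e i ω) n) (e n ω)) = G (sub Δ a)
        rw [hrun ω hω.1, show e n ω = a from hω.2]
    · intro a _ b _ hab
      refine Set.disjoint_left.2 fun ω h1 h2 => hab ?_
      exact (show e n ω = a from h1.2).symm.trans (show e n ω = b from h2.2)
  have hS : ∑ a ∈ edges Δ, μ.real ({ω | hist e n ω = t} ∩ {ω | e n ω = a}) * G (sub Δ a) =
      ∑ a ∈ edges Δ, μ.real {ω | hist e n ω = t} / (edges Δ).card * G (sub Δ a) :=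
    Finset.sum_congr rfl fun a ha => by rw [hpr a ha]
  rw [hL, hR, hS, ← Finset.mul_sum]
  ring

theorem condExp_step {Ω : Type} {mΩ : MeasurableSpace Ω} {μ : Measure Ω} [IsProbabilityMeasure μ]
    {Δ₀ : Cx} {e : ℕ → Ω → Finset ℕ} (h : RandomEdges μ Δ₀ e) (G : Cx → ℝ) (n : ℕ) :
    μ[fun ω => G (run Δ₀ (fun i => e i ω) (n + 1)) | fil e h.meas n] =ᵐ[μ] fun ω =>
      (∑ a ∈ edges (run Δ₀ (fun i => e i ω) n), G (sub (run Δ₀ (fun i => e i ω) n) a)) /
        (edges (run Δ₀ (fun i => e i ω) n)).card := by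
  symm
  have hZi : Integrable (fun ω => (∑ a ∈ edges (run Δ₀ (fun i => e i ω) n),
      G (sub (run Δ₀ (fun i => e i ω) n) a)) / (edges (run Δ₀ (fun i => e i ω) n)).card) μ :=
    integrable_run h (fun Δ => (∑ a ∈ edges Δ, G (sub Δ a)) / (edges Δ).card) n
  refine ae_eq_condExp_of_forall_setIntegral_eq ((fil e h.meas).le n) (integrable_run h G (n + 1))
    (fun s _ _ => hZi.integrableOn) ?_
    (measurable_run h.meas Δ₀ (fun Δ => (∑ a ∈ edges Δ, G (sub Δ a)) / (edges Δ).card)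
      n).aestronglyMeasurable
  rintro s ⟨A, -, rfl⟩ _
  classical
  obtain ⟨T, hT⟩ : ∃ T : Finset (Fin n → Finset ℕ), ∀ t, t ∈ T ↔ t ∈ Set.range (hist e n) ∧ t ∈ A :=
    ⟨(finite_hist h n).toFinset.filter (· ∈ A), fun t => by
      rw [Finset.mem_filter, Set.Finite.mem_toFinset]⟩
  have hs : hist e n ⁻¹' A = ⋃ t ∈ T, {ω | hist e n ω = t} := by
    ext ω
    simp only [Set.mem_preimage, Set.mem_iUnion, Set.mem_ofPred_eq, exists_prop]
    constructor
    · intro hω
      exact ⟨_, (hT _).2 ⟨⟨ω, rfl⟩, hω⟩, rfl⟩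
    · rintro ⟨t, ht, rfl⟩
      exact ((hT _).1 ht).2
  have hd : Set.Pairwise (↑T) (Function.onFun Disjoint fun t => {ω | hist e n ω = t}) := by
    intro t _ t' _ htt
    refine Set.disjoint_left.2 fun ω h1 h2 => htt ?_
    exact (show hist e n ω = t from h1).symm.trans (show hist e n ω = t' from h2)
  rw [hs, integral_biUnion_finset T (fun t _ => hist_set_measurable h.meas n t) hd
    (fun t _ => hZi.integrableOn), integral_biUnion_finset T
    (fun t _ => hist_set_measurable h.meas n t) hd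
    (fun t _ => (integrable_run h G (n + 1)).integrableOn)]
  exact Finset.sum_congr rfl fun t _ => integral_hist h G n t

end Pool.Agent.T2H44.RS
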