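import Pool.Agent.T2H44.RS.Defs
import Pool.Agent.R580.CD.Gam

set_option autoImplicit false

/-!
# RS, package DS: existence of the `γ`-vector, and its form over the real numbers

`exists_gamma`: let `p = ∑_{σ ∈ Δ} X^|σ| = ∑_j nf j Δ X^j`, of degree `≤ d`. Then
`p(-1-X) = ∑_σ (-1)^|σ| (1+X)^|σ| = ∑_σ (-1)^|σ| ∑_{ρ ⊆ σ} X^|ρ| = ∑_ρ X^|ρ| ∑_{σ ⊇ ρ} (-1)^|σ| = (-1)^d p`. By the
starting theorem `Pool.Agent.R580.CD.exists_gam` there is `γ` with `p = Phi d γ`,
`∑_j nf j X^j = ∑_i γ_i (X + X^2)^i (1 + 2X)^(d-2i)`. Substituting `X = t/(1-t)` and multiplying by `(1-t)^d`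
gives `IsGamma` (`X + X^2 = t/(1-t)^2`, `1 + 2X = (1+t)/(1-t)`); in Lean: both sides of `IsGamma` have the same
value at every rational (or real) `t ≠ 1` after mapping the coefficients, so the polynomials are
equal (`Polynomial.eq_of_infinite_eval_eq` and injectivity of `Polynomial.map`).

`gamma_real`: the converse, over `ℝ`: substitute `t = x/(1+x)` in `IsGamma` and multiply by `(1+x)^d`, for all
`x ≠ -1`.
-/

namespace Pool.Agent.T2H44.RS

open Finset

open Polynomial in
theorem face_poly {d : ℕ} {Δ : Cx} (h : IsPure d Δ) :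
    ∑ σ ∈ Δ, (X : ℤ[X]) ^ σ.card = ∑ j ∈ range (d + 1), C ((nf j Δ : ℕ) : ℤ) * X ^ j := by
  rw [← Finset.sum_fiberwise_of_maps_to (t := range (d + 1)) (g := Finset.card)
    (fun σ hσ => Finset.mem_range.2 (Nat.lt_succ_of_le (h.card_le σ hσ)))]
  refine Finset.sum_congr rfl fun j _ => ?_
  rw [Finset.sum_congr rfl fun σ hσ => by rw [(Finset.mem_filter.1 hσ).2], Finset.sum_const,
    nsmul_eq_mul]
  rfl

open Polynomial in
theorem face_poly_symm {d : ℕ} {Δ : Cx} (h : IsPure d Δ) (hE : IsEul d Δ) :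
    (∑ σ ∈ Δ, (X : ℤ[X]) ^ σ.card).comp (-1 - X) = (-1) ^ d * ∑ σ ∈ Δ, (X : ℤ[X]) ^ σ.card := by
  rw [show (∑ σ ∈ Δ, (X : ℤ[X]) ^ σ.card).comp (-1 - X) = ∑ σ ∈ Δ, ((X : ℤ[X]) ^ σ.card).comp (-1 - X) from Polynomial.sum_comp _ _ _]
  have h1 : ∀ σ ∈ Δ, ((X : ℤ[X]) ^ σ.card).comp (-1 - X) =
      ∑ ρ ∈ σ.powerset, (-1) ^ σ.card * X ^ ρ.card := by
    intro σ _
    rw [Polynomial.pow_comp, Polynomial.X_comp, ← Finset.mul_sum]
    have h2 := Finset.sum_pow_mul_eq_add_pow (X : ℤ[X]) 1 σ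
    simp only [one_pow, mul_one] at h2
    rw [h2, ← mul_pow]
    congr 1
    ring
  rw [Finset.sum_congr rfl h1, Finset.sum_comm' (s' := fun ρ => Δ.filter fun σ => ρ ⊆ σ) (t' := Δ),
    Finset.mul_sum]
  · refine Finset.sum_congr rfl fun ρ hρ => ?_
    rw [← Finset.sum_mul]
    congr 1
    have h3 := congrArg (fun z : ℤ => (C z : ℤ[X])) (hE ρ hρ)
    simp only [map_sum, map_pow, map_neg, map_one] at h3
    exact h3
  · intro σ ρ
    rw [Finset.mem_powerset, Finset.mem_filter]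
    exact ⟨fun h4 => ⟨⟨h4.1, h4.2⟩, h.down σ h4.1 ρ h4.2⟩, fun h4 => h4.1⟩

open Polynomial in
theorem exists_gamma {d : ℕ} {Δ : Cx} (h : IsPure d Δ) (hE : IsEul d Δ) : ∃ γ, IsGamma d Δ γ := by
  obtain ⟨γ, hγ, -⟩ := Pool.Agent.R580.CD.exists_gam d (∑ σ ∈ Δ, (X : ℤ[X]) ^ σ.card)
    (Polynomial.natDegree_sum_le_of_forall_le _ _ fun σ hσ => by
      rw [Polynomial.natDegree_X_pow]
      exact h.card_le σ hσ) (face_poly_symm h hE)
  refine ⟨γ, ?_⟩
  rw [face_poly h] at hγ
  unfold Pool.Agent.R580.CD.Phi at hγ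
  unfold IsGamma
  apply Polynomial.map_injective (Int.castRingHom ℚ) Int.cast_injective
  refine Polynomial.eq_of_infinite_eval_eq _ _
    (Set.Infinite.mono ?_ (Set.finite_singleton (1 : ℚ)).infinite_compl)
  intro t ht
  have ht1 : 1 - t ≠ 0 := sub_ne_zero.2 fun h1 => ht h1.symm
  have h2 := congrArg (fun q : ℤ[X] => (q.map (Int.castRingHom ℚ)).eval (t / (1 - t))) hγ
  simp only [Polynomial.map_sum, Polynomial.map_mul, Polynomial.map_pow, Polynomial.map_add,
    Polynomial.map_one, Polynomial.map_ofNat, Polynomial.map_X, Polynomial.map_C,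
    Polynomial.eval_finset_sum, Polynomial.eval_mul, Polynomial.eval_pow, Polynomial.eval_add,
    Polynomial.eval_one, Polynomial.eval_ofNat, Polynomial.eval_X, Polynomial.eval_C] at h2
  rw [Set.mem_setOf_eq]
  simp only [Polynomial.map_sum, Polynomial.map_mul, Polynomial.map_pow, Polynomial.map_add,
    Polynomial.map_sub, Polynomial.map_one, Polynomial.map_X, Polynomial.map_C,
    Polynomial.eval_finset_sum, Polynomial.eval_mul, Polynomial.eval_pow, Polynomial.eval_add,
    Polynomial.eval_sub, Polynomial.eval_one, Polynomial.eval_X, Polynomial.eval_C]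
  have h3 := congrArg (fun z => z * (1 - t) ^ d) h2
  simp only [Finset.sum_mul] at h3
  refine Eq.trans ?_ (h3.trans ?_)
  · refine Finset.sum_congr rfl fun j hj => ?_
    have hj' : j ≤ d := Nat.lt_succ_iff.1 (Finset.mem_range.1 hj)
    have h9 : (1 - t) ^ d = (1 - t) ^ j * (1 - t) ^ (d - j) := by
      rw [← pow_add]
      congr 1
      omega
    rw [h9, div_pow]
    field_simp
  · refine Finset.sum_congr rfl fun i hi => ?_
    have hi' : i ≤ d / 2 := Nat.lt_succ_iff.1 (Finset.mem_range.1 hi)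
    have h9 : (1 - t) ^ d = ((1 - t) ^ 2) ^ i * (1 - t) ^ (d - 2 * i) := by
      rw [← pow_mul, ← pow_add]
      congr 1
      omega
    have h10 : t / (1 - t) + (t / (1 - t)) ^ 2 = t / (1 - t) ^ 2 := by
      field_simp
      ring
    have h11 : 1 + 2 * (t / (1 - t)) = (1 + t) / (1 - t) := by
      field_simp
      ring
    rw [h9, h10, h11, div_pow, div_pow]
    field_simp

open Polynomial in
theorem gamma_real {d : ℕ} {Δ : Cx} {γ : ℕ → ℤ} (hγ : IsGamma d Δ γ) :
    ∑ j ∈ range (d + 1), Polynomial.C (nf j Δ : ℝ) * Polynomial.X ^ j =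
      ∑ i ∈ range (d / 2 + 1), Polynomial.C (γ i : ℝ) * (Polynomial.X + Polynomial.X ^ 2) ^ i *
        (1 + 2 * Polynomial.X) ^ (d - 2 * i) := by
  unfold IsGamma at hγ
  refine Polynomial.eq_of_infinite_eval_eq _ _
    (Set.Infinite.mono ?_ (Set.finite_singleton (-1 : ℝ)).infinite_compl)
  intro x hx
  have hx1 : 1 + x ≠ 0 := fun h1 => hx (by rw [Set.mem_singleton_iff]; linarith)
  have h2 := congrArg (fun q : ℤ[X] => (q.map (Int.castRingHom ℝ)).eval (x / (1 + x))) hγ
  simp only [Polynomial.map_sum, Polynomial.map_mul, Polynomial.map_pow, Polynomial.map_add,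
    Polynomial.map_sub, Polynomial.map_one, Polynomial.map_X, Polynomial.map_C,
    Polynomial.eval_finset_sum, Polynomial.eval_mul, Polynomial.eval_pow, Polynomial.eval_add,
    Polynomial.eval_sub, Polynomial.eval_one, Polynomial.eval_X, Polynomial.eval_C] at h2
  rw [Set.mem_setOf_eq]
  simp only [Polynomial.eval_finset_sum, Polynomial.eval_mul, Polynomial.eval_pow,
    Polynomial.eval_add, Polynomial.eval_one, Polynomial.eval_ofNat, Polynomial.eval_X,
    Polynomial.eval_C]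
  have h3 := congrArg (fun z => z * (1 + x) ^ d) h2
  simp only [Finset.sum_mul] at h3
  refine Eq.trans ?_ (h3.trans ?_)
  · refine Finset.sum_congr rfl fun j hj => ?_
    have hj' : j ≤ d := Nat.lt_succ_iff.1 (Finset.mem_range.1 hj)
    have h8 : 1 - x / (1 + x) = 1 / (1 + x) := by
      field_simp
      ring
    have h9 : (1 + x) ^ d = (1 + x) ^ j * (1 + x) ^ (d - j) := by
      rw [← pow_add]
      congr 1
      omega
    rw [h8, h9, div_pow, div_pow, one_pow]
    field_simp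
    simp only [eq_intCast, Int.cast_natCast]
    ring
  · refine Finset.sum_congr rfl fun i hi => ?_
    have hi' : i ≤ d / 2 := Nat.lt_succ_iff.1 (Finset.mem_range.1 hi)
    have h9 : (1 + x) ^ d = (1 + x) ^ i * (1 + x) ^ i * (1 + x) ^ (d - 2 * i) := by
      rw [← pow_add, ← pow_add]
      congr 1
      omega
    have h10 : 1 + x / (1 + x) = (1 + 2 * x) / (1 + x) := by
      field_simp
      ring
    have h11 : x + x ^ 2 = x * (1 + x) := by ring
    rw [h9, h10, h11, div_pow, div_pow, mul_pow]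
    field_simp
    simp only [eq_intCast]
    ring

end Pool.Agent.T2H44.RS
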