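import Mathlib

set_option autoImplicit false

/-!
# Random edge subdivisions of simplicial complexes: definitions

`MP_19e880_co`, project RS. All complexes are finite families of finite sets of natural numbers.
-/

namespace Pool.Agent.T2H44.RS

open Finset

/-- finite families of finite sets of natural numbers -/
abbrev Cx := Finset (Finset ℕ)

/-- `Δ` is a simplicial complex which is pure of dimension `d - 1`: it contains the empty set, is
closed under subsets, and every face is contained in a face with `d` vertices, and has itself at most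
`d` vertices. -/
structure IsPure (d : ℕ) (Δ : Cx) : Prop where
  empty_mem : ∅ ∈ Δ
  down : ∀ σ ∈ Δ, ∀ τ : Finset ℕ, τ ⊆ σ → τ ∈ Δ
  facet : ∀ σ ∈ Δ, ∃ τ ∈ Δ, σ ⊆ τ ∧ τ.card = d
  card_le : ∀ σ ∈ Δ, σ.card ≤ d

/-- `Δ` is Eulerian of rank `d`: the link of every face `σ` has the Euler characteristic of a sphere of
dimension `d - 1 - |σ|`. -/
def IsEul (d : ℕ) (Δ : Cx) : Prop :=
  ∀ σ ∈ Δ, ∑ τ ∈ Δ.filter (fun τ => σ ⊆ τ), (-1 : ℤ) ^ τ.card = (-1) ^ d

/-- `Δ` is flag: every set of vertices which are pairwise joined by edges is a face. -/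
def IsFlag (Δ : Cx) : Prop :=
  ∀ σ : Finset ℕ, (∀ a ∈ σ, ∀ b ∈ σ, ({a, b} : Finset ℕ) ∈ Δ) → σ ∈ Δ

/-- the edges of `Δ` -/
def edges (Δ : Cx) : Finset (Finset ℕ) := Δ.filter fun σ => σ.card = 2

/-- a natural number which is larger than all the vertices of `Δ` -/
def fresh (Δ : Cx) : ℕ := (Δ.sup id).sup id + 1

/-- The subdivision of the edge `e` of `Δ` with the new vertex `fresh Δ`: the faces which contain `e` are
removed, and for all faces `σ` of the removed faces which do not contain `e` the faces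
`σ ∪ {fresh Δ}` are added. -/
def sub (Δ : Cx) (e : Finset ℕ) : Cx :=
  Δ.filter (fun σ => ¬ e ⊆ σ) ∪
    (Δ.filter fun σ => ¬ e ⊆ σ ∧ σ ∪ e ∈ Δ).image (insert (fresh Δ))

/-- the complex after `n` subdivisions, at the edges `e 0, …, e (n - 1)` -/
def run (Δ : Cx) (e : ℕ → Finset ℕ) : ℕ → Cx
  | 0 => Δ
  | n + 1 => sub (run Δ e n) (e n)

/-- the number of the faces with `i` vertices (`f_{i-1}` in the usual notation) -/
def nf (i : ℕ) (Δ : Cx) : ℕ := (Δ.filter fun σ => σ.card = i).card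

/-- `γ` is the `γ`-vector of `Δ`: `∑ f_{j-1} X^j (1 - X)^(d-j) = ∑ γ_i X^i (1 + X)^(d-2i)`. (The left-hand
side is the `h`-polynomial.) -/
def IsGamma (d : ℕ) (Δ : Cx) (γ : ℕ → ℤ) : Prop :=
  ∑ j ∈ range (d + 1), Polynomial.C ((nf j Δ : ℕ) : ℤ) * Polynomial.X ^ j *
      (1 - Polynomial.X) ^ (d - j)
    = ∑ i ∈ range (d / 2 + 1), Polynomial.C (γ i) * Polynomial.X ^ i *
      (1 + Polynomial.X) ^ (d - 2 * i)

/-- `(d + i - 2)! / ((d - i)! i! (i - 1)!)` for `1 ≤ i ≤ d`, the limit of `nf i (Δ_n) / n`. (It is the coefficient of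
`x^i` in `x (1 + x)` times the `f`-polynomial of the simplicial associahedron of dimension `d - 3`.) -/
noncomputable def phi (d i : ℕ) : ℝ :=
  if i = 0 then 0 else ((d + i - 2).factorial : ℝ) /
    ((d - i).factorial * i.factorial * (i - 1).factorial)

/-- the limit of `γ_i(Δ_n) / n`: `C(d - 2, 2 i - 2) · Catalan(i - 1)` for `i ≥ 1` -/
def gam (d i : ℕ) : ℕ := if i = 0 then 0 else (d - 2).choose (2 * i - 2) * catalan (i - 1)

/-! ## Auxiliary definitions -/

/-- the facets -/
def facets (d : ℕ) (Δ : Cx) : Finset (Finset ℕ) := Δ.filter fun σ => σ.card = d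

/-- the number of the faces with `i` vertices which contain `e` -/
def up (i : ℕ) (Δ : Cx) (e : Finset ℕ) : ℕ := (Δ.filter fun σ => σ.card = i ∧ e ⊆ σ).card

/-- the weight of a pair of facets with `m` common vertices -/
def wt (d m : ℕ) : ℝ := if 2 ≤ m then (4 * (d : ℝ) ^ 2) ^ m else 0

/-- the total weight of all pairs of facets with a common edge -/
def Hq (d : ℕ) (Δ : Cx) : ℝ := ∑ τ ∈ facets d Δ, ∑ τ' ∈ facets d Δ, wt d (τ ∩ τ').card

/-- the Lyapunov function -/
def Vq (d : ℕ) (Δ : Cx) : ℝ := (nf d Δ : ℝ) ^ 2 + 4 * Hq d Δ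

end Pool.Agent.T2H44.RS
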