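import Pool.Agent.T2H44.RS.C2
import Pool.Agent.T2H44.RS.C3
import Pool.Agent.T2H44.RS.C4B
import Pool.Agent.T2H44.RS.CE
import Pool.Agent.T2H44.RS.A1
import Pool.Agent.T2H44.RS.A2
import Pool.Agent.T2H44.RS.A3

set_option autoImplicit false

/-!
# RS: assembly of the limit theorem for the face numbers
-/

namespace Pool.Agent.T2H44.RS

open Finset Filter Topology MeasureTheory

theorem card_edges (Δ : Cx) : (edges Δ).card = nf 2 Δ := rfl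

theorem avg_nf {d : ℕ} {Δ : Cx} (h : IsPure d Δ) (hd : 2 ≤ d) {i : ℕ} (hi : 1 ≤ i) :
    (∑ a ∈ edges Δ, (nf i (sub Δ a) : ℝ)) / (edges Δ).card = nf i Δ +
      ((i.choose 2 : ℝ) * nf i Δ + ((i + 1).choose 2 : ℝ) * nf (i + 1) Δ) / nf 2 Δ := by
  obtain ⟨i, rfl⟩ : ∃ j, i = j + 1 := ⟨i - 1, by omega⟩
  have hE : (0 : ℝ) < nf 2 Δ := by
    have := one_le_nf h hd
    exact_mod_cast this
  have h1 : (∑ a ∈ edges Δ, (nf (i + 1) (sub Δ a) : ℝ)) = (nf 2 Δ : ℝ) * nf (i + 1) Δ +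
      (((i + 1).choose 2 : ℝ) * nf (i + 1) Δ + ((i + 1 + 1).choose 2 : ℝ) * nf (i + 1 + 1) Δ) := by
    rw [Finset.sum_congr rfl fun a ha => by rw [nf_succ_sub h ha i]]
    have h2 := sum_up h (i + 1)
    have h3 := sum_up h (i + 1 + 1)
    have h2' : (∑ a ∈ edges Δ, (up (i + 1) Δ a : ℝ)) = ((i + 1).choose 2 : ℝ) * nf (i + 1) Δ := by
      exact_mod_cast h2
    have h3' : (∑ a ∈ edges Δ, (up (i + 2) Δ a : ℝ)) =
        ((i + 1 + 1).choose 2 : ℝ) * nf (i + 1 + 1) Δ := by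
      exact_mod_cast h3
    simp only [Nat.cast_add]
    rw [Finset.sum_add_distrib, Finset.sum_add_distrib, h2', h3', Finset.sum_const, nsmul_eq_mul,
      card_edges]
    ring
  rw [h1, card_edges]
  field_simp

theorem sum_sq_le {d : ℕ} {Δ : Cx} (h : IsPure d Δ) (hd : 2 ≤ d) {i : ℕ} (hi : 1 ≤ i) :
    ∑ a ∈ edges Δ, ((nf i (sub Δ a) : ℝ) - nf i Δ) ^ 2 ≤ 4 ^ (d + 1) * Hq d Δ := by
  obtain ⟨i, rfl⟩ : ∃ j, i = j + 1 := ⟨i - 1, by omega⟩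
  have h1 : ∀ a ∈ edges Δ, ((nf (i + 1) (sub Δ a) : ℝ) - nf (i + 1) Δ) ^ 2 ≤
      4 ^ (d + 1) * (up d Δ a : ℝ) ^ 2 := by
    intro a ha
    rw [nf_succ_sub h ha i]
    have h2 : (up (i + 1) Δ a : ℝ) ≤ 2 ^ d * up d Δ a := by
      exact_mod_cast up_le h a (i + 1)
    have h3 : (up (i + 2) Δ a : ℝ) ≤ 2 ^ d * up d Δ a := by
      exact_mod_cast up_le h a (i + 2)
    have h4 : (0 : ℝ) ≤ up (i + 1) Δ a := Nat.cast_nonneg _
    have h5 : (0 : ℝ) ≤ up (i + 2) Δ a := Nat.cast_nonneg _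
    have h6 : (4 : ℝ) ^ (d + 1) * (up d Δ a : ℝ) ^ 2 = (2 ^ d * up d Δ a + 2 ^ d * up d Δ a) ^ 2 := by
      rw [show (4 : ℝ) = 2 ^ 2 by norm_num, ← pow_mul]
      ring
    rw [h6]
    push_cast
    apply pow_le_pow_left₀ <;> linarith
  refine (Finset.sum_le_sum h1).trans ?_
  rw [← Finset.mul_sum]
  exact mul_le_mul_of_nonneg_left (sum_up_sq h hd) (by positivity)

theorem nf_top_sub {d : ℕ} {Δ : Cx} (h : IsPure d Δ) (hd : 2 ≤ d) {a : Finset ℕ}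
    (ha : a ∈ edges Δ) : nf d (sub Δ a) = nf d Δ + up d Δ a := by
  obtain ⟨i, rfl⟩ : ∃ j, d = j + 1 := ⟨d - 1, by omega⟩
  rw [nf_succ_sub h ha i, up_eq_zero h (show i + 1 < i + 2 by omega), add_zero]

theorem sum_Hq_le {d : ℕ} {Δ : Cx} (h : IsPure d Δ) (hd : 2 ≤ d) :
    ∑ a ∈ edges Δ, Hq d (sub Δ a) ≤ (nf 2 Δ + (d : ℝ) * (d - 1) - 1 / 2) * Hq d Δ := by
  rw [Finset.sum_congr rfl fun a ha => Hq_sub h hd ha, Finset.sum_comm]
  unfold Hq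
  rw [Finset.mul_sum]
  refine Finset.sum_le_sum fun τ hτ => ?_
  rw [Finset.sum_comm, Finset.mul_sum]
  exact Finset.sum_le_sum fun τ' hτ' => sum_Kq h hd hτ hτ'

theorem sum_Vq_le {d : ℕ} {Δ : Cx} (h : IsPure d Δ) (hd : 2 ≤ d) :
    ∑ a ∈ edges Δ, Vq d (sub Δ a) ≤ (nf 2 Δ + (d : ℝ) * (d - 1)) * Vq d Δ - Hq d Δ := by
  unfold Vq
  rw [Finset.sum_add_distrib, ← Finset.mul_sum]
  have h1 := sum_Hq_le h hd
  have h2 : ∑ a ∈ edges Δ, (nf d (sub Δ a) : ℝ) ^ 2 ≤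
      (nf 2 Δ + (d : ℝ) * (d - 1)) * (nf d Δ : ℝ) ^ 2 + Hq d Δ := by
    rw [Finset.sum_congr rfl fun a ha => by rw [nf_top_sub h hd ha]]
    have h3 : (∑ a ∈ edges Δ, (up d Δ a : ℝ)) = (d.choose 2 : ℝ) * nf d Δ := by
      exact_mod_cast sum_up h d
    have h4 : (d.choose 2 : ℝ) = d * (d - 1) / 2 := Nat.cast_choose_two ℝ d
    have h5 := sum_up_sq h hd
    have h6 : ∑ a ∈ edges Δ, ((nf d Δ + up d Δ a : ℕ) : ℝ) ^ 2 =
        (nf 2 Δ : ℝ) * (nf d Δ : ℝ) ^ 2 + 2 * nf d Δ * (∑ a ∈ edges Δ, (up d Δ a : ℝ)) +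
          ∑ a ∈ edges Δ, (up d Δ a : ℝ) ^ 2 := by
      rw [Finset.mul_sum, ← card_edges, ← nsmul_eq_mul, ← Finset.sum_const, ← Finset.sum_add_distrib,
        ← Finset.sum_add_distrib]
      refine Finset.sum_congr rfl fun a _ => ?_
      push_cast
      ring
    rw [h6, h3, h4]
    nlinarith [h5]
  nlinarith [h1, h2]

section Process

variable {Ω : Type} {mΩ : MeasurableSpace Ω} {μ : Measure Ω} {Δ₀ : Cx} {e : ℕ → Ω → Finset ℕ}

/-- the complex at the time `n` -/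
abbrev cx (Δ₀ : Cx) (e : ℕ → Ω → Finset ℕ) (n : ℕ) (ω : Ω) : Cx := run Δ₀ (fun i => e i ω) n

theorem pure_cx {d : ℕ} (h : IsPure d Δ₀) (he : RandomEdges μ Δ₀ e) (n : ℕ) (ω : Ω) :
    IsPure d (cx Δ₀ e n ω) := by
  induction n with
  | zero => exact h
  | succ n ih => exact isPure_sub ih (he.mem n ω)

theorem bdd_cx (he : RandomEdges μ Δ₀ e) (G : Cx → ℝ) (n : ℕ) :
    ∃ B : ℝ, ∀ ω, |G (cx Δ₀ e n ω)| ≤ B := by
  have h1 := (finite_run he n).image fun Δ => |G Δ|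
  obtain ⟨B, hB⟩ := h1.bddAbove
  exact ⟨B, fun ω => hB ⟨_, ⟨ω, rfl⟩, rfl⟩⟩

theorem integrable_cx [IsProbabilityMeasure μ] (he : RandomEdges μ Δ₀ e) (G : Cx → ℝ) (n : ℕ) :
    Integrable (fun ω => G (cx Δ₀ e n ω)) μ := by
  obtain ⟨B, hB⟩ := bdd_cx he G n
  exact Integrable.of_bound ((measurable_run he.meas Δ₀ G n).mono
    ((fil e he.meas).le n)).aestronglyMeasurable B (ae_of_all _ fun ω => hB ω)

theorem nf_le_card (i : ℕ) (Δ : Cx) : nf i Δ ≤ Δ.card := Finset.card_filter_le _ _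

theorem card_pos_edges {d : ℕ} {Δ : Cx} (h : IsPure d Δ) (hd : 2 ≤ d) : (0 : ℝ) < nf 2 Δ := by
  have := one_le_nf h hd
  exact_mod_cast this

/-- the constant -/
noncomputable def CC (d : ℕ) : ℝ := 4 ^ (d + 1) + 2 ^ d + 1 + 4 * (4 * (d : ℝ) ^ 2) ^ d

theorem sys {d : ℕ} (hd : 2 ≤ d) (h : IsPure d Δ₀) [IsProbabilityMeasure μ]
    (he : RandomEdges μ Δ₀ e) :
    Sys d μ (fil e he.meas) (fun i n ω => (nf i (cx Δ₀ e n ω) : ℝ))
      (fun n ω => Hq d (cx Δ₀ e n ω)) (fun n ω => Vq d (cx Δ₀ e n ω)) (CC d) where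
  adF i n := measurable_run he.meas Δ₀ (fun Δ => (nf i Δ : ℝ)) n
  adH n := measurable_run he.meas Δ₀ (fun Δ => Hq d Δ) n
  adV n := measurable_run he.meas Δ₀ (fun Δ => Vq d Δ) n
  bdd n := by
    obtain ⟨B1, h1⟩ := bdd_cx he (fun Δ => (Δ.card : ℝ)) n
    obtain ⟨B2, h2⟩ := bdd_cx he (fun Δ => Hq d Δ) n
    obtain ⟨B3, h3⟩ := bdd_cx he (fun Δ => Vq d Δ) n
    refine ⟨max B1 (max B2 B3), fun ω => ⟨fun i => ?_, ?_, ?_⟩⟩
    · have h4 : (nf i (cx Δ₀ e n ω) : ℝ) ≤ ((cx Δ₀ e n ω).card : ℝ) := by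
        exact_mod_cast nf_le_card i _
      rw [abs_of_nonneg (Nat.cast_nonneg _)]
      exact (h4.trans (le_abs_self _)).trans ((h1 ω).trans (le_max_left _ _))
    · exact (h2 ω).trans ((le_max_left _ _).trans (le_max_right _ _))
    · exact (h3 ω).trans ((le_max_right _ _).trans (le_max_right _ _))
  one_le i _ hi n ω := by
    exact_mod_cast one_le_nf (pure_cx h he n ω) hi
  top i hi n ω := by
    exact_mod_cast nf_eq_zero (pure_cx h he n ω) hi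
  vert n ω := by
    induction n with
    | zero => simp
    | succ n ih =>
      have h1 := nf_succ_sub (pure_cx h he n ω) (he.mem n ω) 0
      have h2 : up (0 + 1) (cx Δ₀ e n ω) (e n ω) = 0 := by
        unfold up
        rw [Finset.card_eq_zero, Finset.filter_eq_empty_iff]
        rintro σ _ ⟨h3, h4⟩
        have h5 := Finset.card_le_card h4
        have h6 : (e n ω).card = 2 := (Finset.mem_filter.1 (he.mem n ω)).2
        omega
      have h3 : up (0 + 2) (cx Δ₀ e n ω) (e n ω) = 1 := by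
        unfold up
        rw [Finset.card_eq_one]
        refine ⟨e n ω, ?_⟩
        have h6 := Finset.mem_filter.1 (he.mem n ω)
        ext σ
        rw [Finset.mem_filter, Finset.mem_singleton]
        constructor
        · rintro ⟨_, h7, h8⟩
          exact (Finset.eq_of_subset_of_card_le h8 (by rw [h7, h6.2])).symm
        · rintro rfl
          exact ⟨h6.1, h6.2, subset_rfl⟩
      rw [h2, h3] at h1
      have h4 : nf 1 (cx Δ₀ e (n + 1) ω) = nf 1 (cx Δ₀ e n ω) + 1 := h1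
      rw [h4]
      push_cast
      rw [ih]
      ring
  le_top i n ω := by
    have h1 : (nf i (cx Δ₀ e n ω) : ℝ) ≤ 2 ^ d * nf d (cx Δ₀ e n ω) := by
      exact_mod_cast nf_le (pure_cx h he n ω) i
    have h2 : (2 : ℝ) ^ d ≤ CC d := by
      unfold CC
      have : (0 : ℝ) ≤ 4 ^ (d + 1) := by positivity
      have : (0 : ℝ) ≤ 4 * (4 * (d : ℝ) ^ 2) ^ d := by positivity
      linarith
    exact h1.trans (mul_le_mul_of_nonneg_right h2 (Nat.cast_nonneg _))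
  H_nonneg n ω := Hq_nonneg d _
  V_ge n ω := by
    have := Hq_nonneg d (cx Δ₀ e n ω)
    show _ ≤ Vq d _
    unfold Vq
    linarith
  V_le n ω := by
    have h1 := Hq_le (pure_cx h he n ω) hd
    show Vq d _ ≤ _
    unfold Vq CC
    have h2 : (0 : ℝ) ≤ (nf d (cx Δ₀ e n ω) : ℝ) ^ 2 := by positivity
    have h3 : (0 : ℝ) ≤ (4 : ℝ) ^ (d + 1) := by positivity
    have h4 : (0 : ℝ) ≤ (2 : ℝ) ^ d := by positivity
    nlinarith [mul_nonneg h3 h2, mul_nonneg h4 h2]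
  mean i hi n := by
    refine (condExp_step he (fun Δ => (nf i Δ : ℝ)) n).trans (ae_of_all _ fun ω => ?_)
    exact avg_nf (pure_cx h he n ω) hd hi
  var i hi n := by
    set ℱ := fil e he.meas with hℱ
    have hm1 := measurable_run he.meas Δ₀ (fun Δ => (nf i Δ : ℝ)) n
    obtain ⟨B, hB⟩ := bdd_cx he (fun Δ => (nf i Δ : ℝ)) n
    have hi1 := integrable_cx he (fun Δ => (nf i Δ : ℝ)) (n + 1)
    have hi0 := integrable_cx he (fun Δ => (nf i Δ : ℝ) ^ 2) n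
    have hi2 := integrable_cx he (fun Δ => (nf i Δ : ℝ) ^ 2) (n + 1)
    have hprod : Integrable ((fun ω => (-2 : ℝ) * nf i (cx Δ₀ e n ω)) *
        fun ω => (nf i (cx Δ₀ e (n + 1) ω) : ℝ)) μ := by
      refine hi1.bdd_mul (c := 2 * B) ?_ ?_
      · exact ((hm1.const_mul (-2)).mono (ℱ.le n)).aestronglyMeasurable
      · refine ae_of_all _ fun ω => ?_
        rw [norm_mul, Real.norm_eq_abs, Real.norm_eq_abs, abs_neg, abs_two]
        exact mul_le_mul_of_nonneg_left (hB ω) (by norm_num)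
    have e1 : (fun ω => ((nf i (cx Δ₀ e (n + 1) ω) : ℝ) - nf i (cx Δ₀ e n ω)) ^ 2) =
        ((fun ω => (nf i (cx Δ₀ e (n + 1) ω) : ℝ) ^ 2) +
          ((fun ω => (-2 : ℝ) * nf i (cx Δ₀ e n ω)) * fun ω => (nf i (cx Δ₀ e (n + 1) ω) : ℝ))) +
          fun ω => (nf i (cx Δ₀ e n ω) : ℝ) ^ 2 := by
      funext ω
      simp only [Pi.add_apply, Pi.mul_apply]
      ring
    have c1 := condExp_add (m := ℱ n) (hi2.add hprod) hi0
    have c2 := condExp_add (m := ℱ n) hi2 hprod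
    have c3 := condExp_mul_of_stronglyMeasurable_left (m := ℱ n) (hm1.const_mul (-2)) hprod hi1
    have c4 : μ[fun ω => (nf i (cx Δ₀ e n ω) : ℝ) ^ 2 | ℱ n] =
        fun ω => (nf i (cx Δ₀ e n ω) : ℝ) ^ 2 :=
      condExp_of_stronglyMeasurable (ℱ.le n)
        (measurable_run he.meas Δ₀ (fun Δ => (nf i Δ : ℝ) ^ 2) n) hi0
    have c5 := condExp_step he (fun Δ => (nf i Δ : ℝ) ^ 2) n
    have c6 := condExp_step he (fun Δ => (nf i Δ : ℝ)) n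
    show μ[fun ω => ((nf i (cx Δ₀ e (n + 1) ω) : ℝ) - nf i (cx Δ₀ e n ω)) ^ 2 | ℱ n] ≤ᵐ[μ] _
    rw [e1]
    filter_upwards [c1, c2, c3, c5, c6] with ω k1 k2 k3 k5 k6
    rw [k1, Pi.add_apply, k2, Pi.add_apply, k3, Pi.mul_apply, c4, k5, k6]
    have hp := pure_cx h he n ω
    have hE := card_pos_edges hp hd
    have h7 := sum_sq_le hp hd hi
    have h8 : ∑ a ∈ edges (cx Δ₀ e n ω), ((nf i (sub (cx Δ₀ e n ω) a) : ℝ) - nf i (cx Δ₀ e n ω)) ^ 2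
        = ∑ a ∈ edges (cx Δ₀ e n ω), (nf i (sub (cx Δ₀ e n ω) a) : ℝ) ^ 2 -
          2 * nf i (cx Δ₀ e n ω) * ∑ a ∈ edges (cx Δ₀ e n ω), (nf i (sub (cx Δ₀ e n ω) a) : ℝ) +
          nf 2 (cx Δ₀ e n ω) * (nf i (cx Δ₀ e n ω) : ℝ) ^ 2 := by
      rw [Finset.mul_sum, ← card_edges, ← nsmul_eq_mul, ← Finset.sum_const,
        ← Finset.sum_sub_distrib, ← Finset.sum_add_distrib]
      exact Finset.sum_congr rfl fun a _ => by ring
    rw [h8] at h7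
    rw [card_edges]
    have h9 : (∑ a ∈ edges (cx Δ₀ e n ω), (nf i (sub (cx Δ₀ e n ω) a) : ℝ) ^ 2) /
        (nf 2 (cx Δ₀ e n ω) : ℝ) + -2 * (nf i (cx Δ₀ e n ω) : ℝ) *
        ((∑ a ∈ edges (cx Δ₀ e n ω), (nf i (sub (cx Δ₀ e n ω) a) : ℝ)) /
        (nf 2 (cx Δ₀ e n ω) : ℝ)) + (nf i (cx Δ₀ e n ω) : ℝ) ^ 2 =
        (∑ a ∈ edges (cx Δ₀ e n ω), (nf i (sub (cx Δ₀ e n ω) a) : ℝ) ^ 2 -
          2 * nf i (cx Δ₀ e n ω) * ∑ a ∈ edges (cx Δ₀ e n ω), (nf i (sub (cx Δ₀ e n ω) a) : ℝ) +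
          nf 2 (cx Δ₀ e n ω) * (nf i (cx Δ₀ e n ω) : ℝ) ^ 2) / (nf 2 (cx Δ₀ e n ω) : ℝ) := by
      field_simp
      ring
    rw [h9]
    refine div_le_div_of_nonneg_right (h7.trans ?_) hE.le
    refine mul_le_mul_of_nonneg_right ?_ (Hq_nonneg d _)
    unfold CC
    have : (0 : ℝ) ≤ 2 ^ d := by positivity
    have : (0 : ℝ) ≤ 4 * (4 * (d : ℝ) ^ 2) ^ d := by positivity
    linarith
  Vstep n := by
    refine ((condExp_step he (fun Δ => Vq d Δ) n).trans_le (ae_of_all _ fun ω => ?_))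
    have hp := pure_cx h he n ω
    have hE := card_pos_edges hp hd
    have h1 := sum_Vq_le hp hd
    show (∑ a ∈ edges (cx Δ₀ e n ω), Vq d (sub (cx Δ₀ e n ω) a)) / _ ≤ _
    rw [card_edges, div_le_iff₀ hE]
    have h2 : ((1 + (d : ℝ) * (d - 1) / (nf 2 (cx Δ₀ e n ω) : ℝ)) * Vq d (cx Δ₀ e n ω) -
        Hq d (cx Δ₀ e n ω) / (nf 2 (cx Δ₀ e n ω) : ℝ)) * (nf 2 (cx Δ₀ e n ω) : ℝ) =
        (nf 2 (cx Δ₀ e n ω) + (d : ℝ) * (d - 1)) * Vq d (cx Δ₀ e n ω) - Hq d (cx Δ₀ e n ω) := by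
      field_simp
    rw [h2]
    exact h1

/-- **The limit of the face numbers.** -/
theorem limit_nf {d : ℕ} (hd : 2 ≤ d) (h : IsPure d Δ₀) [IsProbabilityMeasure μ]
    (he : RandomEdges μ Δ₀ e) :
    ∀ᵐ ω ∂μ, ∀ i, 1 ≤ i → i ≤ d →
      Tendsto (fun n : ℕ => (nf i (cx Δ₀ e n ω) : ℝ) / n) atTop (𝓝 (phi d i)) := by
  have hs := sys hd h he
  have h1 := top_limit hd hs
  have h2 : ∀ᵐ ω ∂μ, ∀ i, 1 ≤ i → ∃ l, Tendsto (fun n => ∑ j ∈ range n,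
      noise d (fun i n ω => (nf i (cx Δ₀ e n ω) : ℝ)) i j ω) atTop (𝓝 l) := by
    rw [ae_all_iff]
    intro i
    by_cases hi : 1 ≤ i
    · filter_upwards [noise_limit hd hs i hi] with ω hω _
      exact hω
    · exact ae_of_all _ fun ω h3 => absurd h3 hi
  filter_upwards [h1, h2] with ω k1 k2
  obtain ⟨z, hz, hlim⟩ := k1
  exact final_limit hd (fun i n => (nf i (cx Δ₀ e n ω) : ℝ)) (CC d) z hz
    (fun i hi hid n => hs.one_le i hi hid n ω) (fun i hi n => hs.top i hi n ω)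
    (fun n => hs.vert n ω) (fun i n => hs.le_top i n ω) hlim (fun i hi _ => k2 i hi)

end Process

end Pool.Agent.T2H44.RS
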