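import Pool.Agent.T2H44.RS.Defs

set_option autoImplicit false

/-!
# RS: random edge subdivisions
-/

namespace Pool.Agent.T2H44.RS

open Finset Filter Topology MeasureTheory

/-- `e 0, e 1, …` are random edges for successive subdivisions of `Δ₀`: `e n` is an edge of the complex
`Δ_n` obtained after the first `n` subdivisions, and given the first `n` edges it is uniformly
distributed on the edges of `Δ_n`: for all `t 0, …, t (n - 1)` and all edges `a` of the complex
`run Δ₀ t n` the event `e 0 = t 0, …, e (n - 1) = t (n - 1), e n = a` has the probability of the event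
`e 0 = t 0, …, e (n - 1) = t (n - 1)` divided by the number of the edges of `run Δ₀ t n`. -/
structure RandomEdges {Ω : Type} {mΩ : MeasurableSpace Ω} (μ : Measure Ω) (Δ₀ : Cx)
    (e : ℕ → Ω → Finset ℕ) : Prop where
  meas : ∀ n a, MeasurableSet {ω | e n ω = a}
  mem : ∀ n ω, e n ω ∈ edges (run Δ₀ (fun i => e i ω) n)
  unif : ∀ (n : ℕ) (t : ℕ → Finset ℕ), ∀ a ∈ edges (run Δ₀ t n),
    μ {ω | (∀ i < n, e i ω = t i) ∧ e n ω = a} =
      μ {ω | ∀ i < n, e i ω = t i} / (edges (run Δ₀ t n)).card

end Pool.Agent.T2H44.RS
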