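import Pool.Agent.T2H44.RS.Defs

set_option autoImplicit false

/-!
# RS, package GL: limits of `γ`-vectors

For `i ≤ d / 2` the coefficient of `X^i` of `(X + X^2)^l (1 + 2X)^(d-2l)` is `1` for `l = i` and `0` for `l > i`.
So `γ i n = f i n - ∑_{l < i} γ l n · c(l, i)`, and the same recursion holds for `g` and `φ`. Strong induction
on `i`. (See `coeff_Phi` in `Pool/Agent/R580/CD/Gam.lean` for integer coefficients.)
-/

namespace Pool.Agent.T2H44.RS

open Finset Filter Topology

namespace PkgGL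

/-- the coefficient of `X^i` of `(X + X^2)^l (1 + 2X)^(d-2l)` -/
noncomputable def cf (d l i : ℕ) : ℝ :=
  ((Polynomial.X + Polynomial.X ^ 2) ^ l *
    (1 + 2 * Polynomial.X) ^ (d - 2 * l) : Polynomial ℝ).coeff i

theorem cf_eq (d l i : ℕ) : cf d l i =
    if l ≤ i then ((1 + Polynomial.X) ^ l * (1 + 2 * Polynomial.X) ^ (d - 2 * l) :
      Polynomial ℝ).coeff (i - l) else 0 := by
  unfold cf
  have h : ((Polynomial.X + Polynomial.X ^ 2) ^ l *
    (1 + 2 * Polynomial.X) ^ (d - 2 * l) : Polynomial ℝ) =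
      Polynomial.X ^ l * ((1 + Polynomial.X) ^ l * (1 + 2 * Polynomial.X) ^ (d - 2 * l)) := by
    rw [← mul_assoc, ← mul_pow]
    congr 2
    ring
  rw [h, Polynomial.coeff_X_pow_mul']

theorem cf_self (d i : ℕ) : cf d i i = 1 := by
  rw [cf_eq, if_pos le_rfl, Nat.sub_self, Polynomial.coeff_zero_eq_eval_zero]
  simp

theorem cf_lt (d : ℕ) {l i : ℕ} (h : i < l) : cf d l i = 0 := by
  rw [cf_eq, if_neg (by omega)]

theorem coeff_rec (d : ℕ) (a b : ℕ → ℝ)
    (h : ∑ j ∈ range (d + 1), Polynomial.C (b j) * Polynomial.X ^ j =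
      ∑ i ∈ range (d / 2 + 1), Polynomial.C (a i) * (Polynomial.X + Polynomial.X ^ 2) ^ i *
        (1 + 2 * Polynomial.X) ^ (d - 2 * i)) {i : ℕ} (hi : i ≤ d / 2) :
    b i = ∑ l ∈ range i, a l * cf d l i + a i := by
  have h1 := congrArg (fun p => Polynomial.coeff p i) h
  simp only [Polynomial.finsetSum_coeff, mul_assoc, Polynomial.coeff_C_mul,
    Polynomial.coeff_X_pow, mul_ite, mul_one, mul_zero] at h1
  rw [Finset.sum_ite_eq, if_pos (mem_range.2 (by omega))] at h1
  rw [h1]
  have h2 : ∑ l ∈ range (i + 1), a l * cf d l i = ∑ l ∈ range (d / 2 + 1), a l * cf d l i := by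
    refine Finset.sum_subset (fun x hx => ?_) fun l _ hl => ?_
    · rw [mem_range] at *
      omega
    · rw [cf_lt d (by rw [mem_range] at hl; omega), mul_zero]
  rw [sum_range_succ, cf_self, mul_one] at h2
  exact h2.symm

end PkgGL

open PkgGL

theorem gamma_limit (d : ℕ) (f γ : ℕ → ℕ → ℝ) (φ g : ℕ → ℝ)
    (hf : ∀ n, ∑ j ∈ range (d + 1), Polynomial.C (f j n) * Polynomial.X ^ j =
      ∑ i ∈ range (d / 2 + 1), Polynomial.C (γ i n) * (Polynomial.X + Polynomial.X ^ 2) ^ i *
        (1 + 2 * Polynomial.X) ^ (d - 2 * i))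
    (hφ : ∑ j ∈ range (d + 1), Polynomial.C (φ j) * Polynomial.X ^ j =
      ∑ i ∈ range (d / 2 + 1), Polynomial.C (g i) * (Polynomial.X + Polynomial.X ^ 2) ^ i *
        (1 + 2 * Polynomial.X) ^ (d - 2 * i))
    (hlim : ∀ j ≤ d, Tendsto (fun n : ℕ => f j n / n) atTop (𝓝 (φ j))) :
    ∀ i ≤ d / 2, Tendsto (fun n : ℕ => γ i n / n) atTop (𝓝 (g i)) := by
  intro i
  induction i using Nat.strong_induction_on with
  | _ i ih =>
    intro hi
    have h1 : g i = φ i - ∑ l ∈ range i, g l * cf d l i := by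
      have := coeff_rec d g φ hφ hi
      linarith
    have h2 : (fun n : ℕ => γ i n / n) =
        fun n : ℕ => f i n / n - ∑ l ∈ range i, γ l n / n * cf d l i := by
      funext n
      have := coeff_rec d (fun i => γ i n) (fun j => f j n) (hf n) hi
      have e : ∑ l ∈ range i, γ l n / n * cf d l i = (∑ l ∈ range i, γ l n * cf d l i) / n := by
        rw [Finset.sum_div]
        exact Finset.sum_congr rfl fun l _ => by ring
      rw [e, this]
      ring
    rw [h1, h2]
    refine (hlim i (by omega)).sub (tendsto_finsetSum _ fun l hl => ?_)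
    rw [mem_range] at hl
    exact (ih l hl (by omega)).mul_const _

end Pool.Agent.T2H44.RS
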