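import Pool.Agent.T2H44.RS.Defs

set_option autoImplicit false

/-!
# RS, package ID: the `γ`-vector of the limit polynomial

Both sides `F` of `phi_eq_gam` satisfy `x (1 + x) F'' = d (d - 1) F`, `F(0) = 0`, `F'(0) = 1`, and a polynomial
with these properties is unique: its coefficients satisfy `F_0 = 0`, `F_1 = 1`,
`j (j + 1) F_{j+1} = (d (d - 1) - j (j - 1)) F_j`.

Left-hand side: `phi d (j+1) · j (j + 1) = (d - j)(d + j - 1) phi d j` for `1 ≤ j ≤ d` (with `phi d (d+1)`
replaced by `0`), and `(d - j)(d + j - 1) = d (d - 1) - j (j - 1)`.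

Right-hand side: let `T_i = (x + x^2)^i (1 + 2x)^(d-2i)`. Then
`x (1 + x) T_i'' = 4 (d-2i)(d-2i-1) T_{i+1} + 2 i (2d-4i+1) T_i + i (i-1) T_{i-1}`
(for `2 i ≤ d`; the coefficient of `T_{i+1}` is zero if `2 i + 2 > d`), and the numbers `g_i = gam d i` satisfy
`4 (d-2i+2)(d-2i+1) g_{i-1} + 2 i (2d-4i+1) g_i + (i+1) i g_{i+1} = d (d-1) g_i` for `i ≥ 1`, because
`i (i+1) g_{i+1} = (d-2i)(d-2i-1) g_i` for `i ≥ 1` (`(i + 2) catalan (i + 1) = 2 (2 i + 1) catalan i`, e.g. from
`catalan_eq_centralBinom_div` and `Nat.succ_mul_centralBinom_succ`); the sum is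
`(2 i (i-1) ... )`: `4 (d-2i+2)(d-2i+1) g_{i-1} = 4 i (i-1) g_i`, and
`4 i (i-1) + 2 i (2d-4i+1) + (d-2i)(d-2i-1) = d (d-1)`.

Any other proof is fine, e.g. comparing values via `F(x) = (1+2x)^d G(x(1+x)/(1+2x)^2)`, or a direct induction.
-/

namespace Pool.Agent.T2H44.RS

open Finset

namespace PkgID

open Polynomial

/-- `x + x^2` -/
noncomputable def u : ℝ[X] := X + X ^ 2
/-- `1 + 2 x` -/
noncomputable def v : ℝ[X] := 1 + 2 * X

lemma du : derivative u = v := by
  unfold u v
  simp only [derivative_add, derivative_X, derivative_X_pow]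
  norm_num
  rfl

lemma dv : derivative v = 2 := by
  unfold v
  rw [derivative_add, derivative_one, derivative_mul, derivative_X]
  simp

lemma vv : v ^ 2 = 1 + 4 * u := by
  unfold u v
  ring

lemma uX : X * (1 + X) = u := by
  unfold u
  ring

lemma dpu (n : ℕ) : derivative (u ^ (n + 1)) = ((n : ℝ[X]) + 1) * u ^ n * v := by
  rw [derivative_pow_succ, du]
  simp

lemma dpv (n : ℕ) : derivative (v ^ (n + 1)) = 2 * ((n : ℝ[X]) + 1) * v ^ n := by
  rw [derivative_pow_succ, dv]
  simp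
  ring

lemma ode (i m : ℕ) : X * (1 + X) * derivative (derivative (u ^ i * v ^ m)) =
    ((i : ℝ[X]) * ((i : ℝ[X]) - 1)) * (u ^ (i - 1) * v ^ (m + 2)) +
      (2 * (i : ℝ[X]) * (2 * (m : ℝ[X]) + 1)) * (u ^ i * v ^ m) +
        (4 * (m : ℝ[X]) * ((m : ℝ[X]) - 1)) * (u ^ (i + 1) * v ^ (m - 2)) := by
  have hn : ∀ n : ℕ, derivative ((n : ℝ[X])) = 0 := fun n => derivative_natCast
  have h2 : derivative (2 : ℝ[X]) = 0 := derivative_ofNat 2
  have e2 : ∀ n : ℕ, n + 1 + 1 - 2 = n := fun n => rfl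
  rw [uX]
  rcases i with _ | _ | i <;> rcases m with _ | _ | m
  all_goals
    simp only [derivative_mul, derivative_add, derivative_one, dpu, dpv, du, dv, hn, h2,
      pow_zero, zero_add, pow_one, Nat.cast_zero, Nat.cast_one, Nat.cast_add, derivative_zero,
      Nat.add_sub_cancel, e2]
  all_goals ring

/-- recursion for the Catalan numbers -/
lemma cat_rec (a : ℕ) : ((a : ℝ) + 2) * (catalan (a + 1) : ℝ) = 2 * (2 * a + 1) * catalan a := by
  have h1 := succ_mul_catalan_eq_centralBinom a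
  have h2 := succ_mul_catalan_eq_centralBinom (a + 1)
  have h3 := Nat.succ_mul_centralBinom_succ a
  have g1 : ((a : ℝ) + 1) * catalan a = Nat.centralBinom a := by exact_mod_cast h1
  have g2 : ((a : ℝ) + 1 + 1) * catalan (a + 1) = Nat.centralBinom (a + 1) := by exact_mod_cast h2
  have g3 : ((a : ℝ) + 1) * Nat.centralBinom (a + 1) = 2 * (2 * a + 1) * Nat.centralBinom a := by
    exact_mod_cast h3
  have hne : ((a : ℝ) + 1) ≠ 0 := by positivity
  apply mul_left_cancel₀ hne
  rw [← g1, ← g2] at g3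
  linarith

lemma choose_rec (e b : ℕ) (h : b ≤ e) : (e.choose (b + 2) : ℝ) * (((b : ℝ) + 2) * (b + 1)) =
    e.choose b * ((e - b : ℝ) * (e - b - 1)) := by
  have h1 := Nat.choose_succ_right_eq e (b + 1)
  have h2 := Nat.choose_succ_right_eq e b
  have g2 : (e.choose (b + 1) : ℝ) * (b + 1) = e.choose b * (e - b) := by
    have : ((e.choose (b + 1) * (b + 1) : ℕ) : ℝ) = ((e.choose b * (e - b) : ℕ) : ℝ) := by rw [h2]
    push_cast [Nat.cast_sub h] at this
    exact this
  rcases Nat.eq_or_lt_of_le h with rfl | hlt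
  · rw [Nat.choose_eq_zero_of_lt (by omega)]
    simp
  · have g1 : (e.choose (b + 2) : ℝ) * (b + 2) = e.choose (b + 1) * (e - b - 1) := by
      have : ((e.choose (b + 1 + 1) * (b + 1 + 1) : ℕ) : ℝ) =
          ((e.choose (b + 1) * (e - (b + 1)) : ℕ) : ℝ) := by rw [h1]
      push_cast [Nat.cast_sub (show b + 1 ≤ e by omega)] at this
      calc (e.choose (b + 2) : ℝ) * (b + 2) = e.choose (b + 1 + 1) * (b + 1 + 1) := by ring
        _ = _ := by rw [this]; ring
    calc (e.choose (b + 2) : ℝ) * (((b : ℝ) + 2) * (b + 1)) =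
        (e.choose (b + 2) * (b + 2)) * (b + 1) := by ring
      _ = (e.choose (b + 1) * (b + 1)) * (e - b - 1) := by rw [g1]; ring
      _ = _ := by rw [g2]; ring

/-- recursion for `gam` -/
lemma gam_rec {d : ℕ} (hd : 2 ≤ d) (i : ℕ) (hi : 2 * i ≤ d) :
    ((i : ℝ) * (i + 1)) * (gam d (i + 1) : ℝ) = (((d - 2 * i : ℕ) : ℝ) * (((d - 2 * i : ℕ) : ℝ) - 1)) *
      gam d i := by
  rcases i with _ | a
  · simp [gam]
  · obtain ⟨e, rfl⟩ : ∃ e, d = e + 2 := ⟨d - 2, by omega⟩
    have h1 := cat_rec a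
    have h2 := choose_rec e (2 * a) (by omega)
    have e1 : (gam (e + 2) (a + 1 + 1) : ℝ) = e.choose (2 * a + 2) * catalan (a + 1) := by
      unfold gam
      rw [if_neg (by omega)]
      push_cast
      congr 2
    have e2 : (gam (e + 2) (a + 1) : ℝ) = e.choose (2 * a) * catalan a := by
      unfold gam
      rw [if_neg (by omega)]
      push_cast
      congr 2
    rw [e1, e2, Nat.cast_sub hi]
    push_cast at h2 ⊢
    have h3 : (((a : ℝ) + 1) * (a + 1 + 1)) * (e.choose (2 * a + 2) * catalan (a + 1)) =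
        (a + 1) * e.choose (2 * a + 2) * (((a : ℝ) + 2) * catalan (a + 1)) := by ring
    rw [h3, h1]
    calc ((a : ℝ) + 1) * e.choose (2 * a + 2) * (2 * (2 * a + 1) * catalan a) =
        (e.choose (2 * a + 2) * ((2 * a + 2) * (2 * a + 1))) * catalan a := by ring
      _ = _ := by rw [h2]; ring

lemma gam_zero_of {d i : ℕ} (hd : 2 ≤ d) (h : d < 2 * i) : gam d i = 0 := by
  unfold gam
  split_ifs
  · rfl
  · rw [Nat.choose_eq_zero_of_lt (by omega), zero_mul]

/-- the right-hand side -/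
noncomputable def G (d : ℕ) : ℝ[X] :=
  ∑ i ∈ range (d / 2 + 1), (gam d i : ℝ[X]) * (u ^ i * v ^ (d - 2 * i))

lemma G_ode {d : ℕ} (hd : 2 ≤ d) : X * (1 + X) * derivative (derivative (G d)) =
    ((d : ℝ[X]) * ((d : ℝ[X]) - 1)) * G d := by
  have hg : ∀ i, 2 * i ≤ d → ((i : ℝ[X]) * (i + 1)) * (gam d (i + 1) : ℝ[X]) =
      (((d - 2 * i : ℕ) : ℝ[X]) * (((d - 2 * i : ℕ) : ℝ[X]) - 1)) * gam d i := by
    intro i hi
    have := congrArg (C : ℝ → ℝ[X]) (gam_rec hd i hi)
    simpa using this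
  have hn : ∀ n : ℕ, derivative ((n : ℝ[X])) = 0 := fun n => derivative_natCast
  have e0 : derivative (derivative (G d)) = ∑ i ∈ range (d / 2 + 1),
      (gam d i : ℝ[X]) * derivative (derivative (u ^ i * v ^ (d - 2 * i))) := by
    unfold G
    rw [derivative_sum, derivative_sum]
    refine Finset.sum_congr rfl fun i _ => ?_
    rw [derivative_mul, hn, zero_mul, zero_add, derivative_mul, hn, zero_mul, zero_add]
  rw [e0, Finset.mul_sum]
  set n := d / 2 with hnd
  have hle : ∀ i ∈ range (n + 1), 2 * i ≤ d := by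
    intro i hi
    rw [Finset.mem_range] at hi
    omega
  set T : ℕ → ℝ[X] := fun i => u ^ i * v ^ (d - 2 * i) with hT
  -- the three sums
  have e1 : ∀ i ∈ range (n + 1), X * (1 + X) * ((gam d i : ℝ[X]) *
      derivative (derivative (u ^ i * v ^ (d - 2 * i)))) =
      (gam d i : ℝ[X]) * (((i : ℝ[X]) * ((i : ℝ[X]) - 1)) * (u ^ (i - 1) * v ^ (d - 2 * i + 2))) +
      (gam d i : ℝ[X]) * ((2 * (i : ℝ[X]) * (2 * ((d - 2 * i : ℕ) : ℝ[X]) + 1)) * T i) +
      (gam d i : ℝ[X]) * ((4 * ((d - 2 * i : ℕ) : ℝ[X]) * (((d - 2 * i : ℕ) : ℝ[X]) - 1)) *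
        (u ^ (i + 1) * v ^ (d - 2 * i - 2))) := by
    intro i _
    rw [show X * (1 + X) * ((gam d i : ℝ[X]) * derivative (derivative (u ^ i * v ^ (d - 2 * i)))) =
      (gam d i : ℝ[X]) * (X * (1 + X) * derivative (derivative (u ^ i * v ^ (d - 2 * i)))) by ring,
      ode]
    simp only [hT]
    ring
  rw [Finset.sum_congr rfl e1, Finset.sum_add_distrib, Finset.sum_add_distrib]
  have hzero : (gam d (n + 1) : ℝ[X]) = 0 := by
    rw [gam_zero_of hd (by omega)]
    simp
  have s1 : ∑ i ∈ range (n + 1), (gam d i : ℝ[X]) * (((i : ℝ[X]) * ((i : ℝ[X]) - 1)) *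
      (u ^ (i - 1) * v ^ (d - 2 * i + 2))) =
      ∑ i ∈ range (n + 1), (gam d i : ℝ[X]) * ((((d - 2 * i : ℕ) : ℝ[X]) *
        (((d - 2 * i : ℕ) : ℝ[X]) - 1)) * T i) := by
    rw [Finset.sum_range_succ']
    have r1 : ∑ i ∈ range (n + 1), (gam d i : ℝ[X]) * ((((d - 2 * i : ℕ) : ℝ[X]) *
        (((d - 2 * i : ℕ) : ℝ[X]) - 1)) * T i) =
        ∑ i ∈ range (n + 1), ((i : ℝ[X]) * (i + 1)) * (gam d (i + 1) : ℝ[X]) * T i := by
      refine Finset.sum_congr rfl fun i hi => ?_
      rw [hg i (hle i hi)]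
      ring
    rw [r1, Finset.sum_range_succ, hzero]
    simp only [Nat.cast_zero, zero_mul, mul_zero, add_zero]
    refine Finset.sum_congr rfl fun i hi => ?_
    rw [Finset.mem_range] at hi
    have h3 : d - 2 * (i + 1) + 2 = d - 2 * i := by omega
    simp only [hT, Nat.add_sub_cancel, h3]
    push_cast
    ring
  have s3 : ∑ i ∈ range (n + 1), (gam d i : ℝ[X]) * ((4 * ((d - 2 * i : ℕ) : ℝ[X]) *
      (((d - 2 * i : ℕ) : ℝ[X]) - 1)) * (u ^ (i + 1) * v ^ (d - 2 * i - 2))) =
      ∑ i ∈ range (n + 1), (gam d i : ℝ[X]) * ((4 * (i : ℝ[X]) * ((i : ℝ[X]) - 1)) * T i) := by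
    have r1 : ∑ i ∈ range (n + 1), (gam d i : ℝ[X]) * ((4 * ((d - 2 * i : ℕ) : ℝ[X]) *
      (((d - 2 * i : ℕ) : ℝ[X]) - 1)) * (u ^ (i + 1) * v ^ (d - 2 * i - 2))) =
        ∑ i ∈ range (n + 1), 4 * (((i : ℝ[X]) * (i + 1)) * (gam d (i + 1) : ℝ[X])) *
          (u ^ (i + 1) * v ^ (d - 2 * i - 2)) := by
      refine Finset.sum_congr rfl fun i hi => ?_
      rw [hg i (hle i hi)]
      ring
    rw [r1, Finset.sum_range_succ, hzero, Finset.sum_range_succ' (fun i => (gam d i : ℝ[X]) *
      ((4 * (i : ℝ[X]) * ((i : ℝ[X]) - 1)) * T i))]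
    simp only [Nat.cast_zero, zero_mul, mul_zero, add_zero]
    refine Finset.sum_congr rfl fun i hi => ?_
    have h3 : d - 2 * (i + 1) = d - 2 * i - 2 := by omega
    simp only [hT, h3]
    push_cast
    ring
  rw [s1, s3, ← Finset.sum_add_distrib, ← Finset.sum_add_distrib]
  unfold G
  rw [Finset.mul_sum]
  refine Finset.sum_congr rfl fun i hi => ?_
  have hi' := hle i hi
  have hc : ((d - 2 * i : ℕ) : ℝ[X]) = (d : ℝ[X]) - 2 * i := by
    rw [Nat.cast_sub hi']
    push_cast
    ring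
  simp only [hT, hc]
  ring

/-- coefficients of a solution of the differential equation -/
lemma coeff_rec (P : ℝ[X]) (c : ℝ) (h : X * (1 + X) * derivative (derivative P) = C c * P) (k : ℕ) :
    P.coeff (k + 2) * ((k + 2) * (k + 1)) + P.coeff (k + 1) * ((k + 1) * k) = c * P.coeff (k + 1) := by
  have h1 : (X * (1 + X) * derivative (derivative P)).coeff (k + 1) = (C c * P).coeff (k + 1) := by
    rw [h]
  rw [show X * (1 + X) * derivative (derivative P) =
    X * derivative (derivative P) + X * (X * derivative (derivative P)) by ring, coeff_add,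
    coeff_X_mul, coeff_X_mul, coeff_C_mul, coeff_derivative, coeff_derivative] at h1
  have h2 : (X * derivative (derivative P)).coeff k = P.coeff (k + 1) * ((k + 1) * k) := by
    rcases k with _ | l
    · simp
    · rw [coeff_X_mul, coeff_derivative, coeff_derivative]
      push_cast
      ring
  rw [h2] at h1
  rw [← h1]
  push_cast
  ring

lemma phi_rec {d k : ℕ} (hk : k + 2 ≤ d) :
    phi d (k + 2) * ((k + 2) * (k + 1)) = ((d - (k + 1)) * (d + k)) * phi d (k + 1) := by
  obtain ⟨m, rfl⟩ : ∃ m, d = m + k + 2 := ⟨d - (k + 2), by omega⟩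
  unfold phi
  rw [if_neg (by omega), if_neg (by omega)]
  have h1 : m + k + 2 + (k + 2) - 2 = (m + 2 * k + 1) + 1 := by omega
  have h2 : m + k + 2 - (k + 2) = m := by omega
  have h3 : k + 2 - 1 = k + 1 := by omega
  have h4 : m + k + 2 + (k + 1) - 2 = m + 2 * k + 1 := by omega
  have h5 : m + k + 2 - (k + 1) = m + 1 := by omega
  have h6 : k + 1 - 1 = k := by omega
  rw [h1, h2, h3, h4, h5, h6, Nat.factorial_succ (m + 2 * k + 1), Nat.factorial_succ (k + 1),
    Nat.factorial_succ k, Nat.factorial_succ m]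
  have f1 : ((m.factorial : ℕ) : ℝ) ≠ 0 := by exact_mod_cast Nat.factorial_ne_zero _
  have f2 : ((k.factorial : ℕ) : ℝ) ≠ 0 := by exact_mod_cast Nat.factorial_ne_zero _
  have f3 : ((m : ℝ) + 1) ≠ 0 := by positivity
  have f4 : ((k : ℝ) + 1) ≠ 0 := by positivity
  have f5 : ((k : ℝ) + 1 + 1) ≠ 0 := by positivity
  push_cast
  field_simp
  ring

end PkgID

open PkgID in
theorem phi_eq_gam {d : ℕ} (hd : 2 ≤ d) :
    ∑ j ∈ range (d + 1), Polynomial.C (phi d j) * Polynomial.X ^ j =
      ∑ i ∈ range (d / 2 + 1), Polynomial.C (gam d i : ℝ) *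
        (Polynomial.X + Polynomial.X ^ 2) ^ i * (1 + 2 * Polynomial.X) ^ (d - 2 * i) := by
  have hG : ∑ i ∈ range (d / 2 + 1), Polynomial.C (gam d i : ℝ) *
        (Polynomial.X + Polynomial.X ^ 2) ^ i * (1 + 2 * Polynomial.X) ^ (d - 2 * i) = G d := by
    unfold G u v
    refine Finset.sum_congr rfl fun i _ => ?_
    rw [Polynomial.C_eq_natCast, mul_assoc]
  rw [hG]
  have hc : ∀ j, (∑ j ∈ range (d + 1), Polynomial.C (phi d j) * Polynomial.X ^ j).coeff j =
      if j ≤ d then phi d j else 0 := by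
    intro j
    rw [Polynomial.finsetSum_coeff]
    simp only [Polynomial.coeff_C_mul_X_pow]
    rw [Finset.sum_ite_eq]
    simp only [Finset.mem_range, Nat.lt_succ_iff]
  have hrec := coeff_rec (G d) ((d : ℝ) * (d - 1)) (by
    rw [G_ode hd]
    simp)
  have h0 : (G d).coeff 0 = 0 := by
    unfold G
    rw [Polynomial.finsetSum_coeff]
    refine Finset.sum_eq_zero fun i _ => ?_
    rcases i with _ | i
    · simp [gam]
    · rw [← Polynomial.C_eq_natCast, Polynomial.coeff_C_mul, pow_succ]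
      have : (u ^ i * u * v ^ (d - 2 * (i + 1))) =
          Polynomial.X * (u ^ i * (1 + Polynomial.X) * v ^ (d - 2 * (i + 1))) := by
        rw [show u ^ i * u * v ^ (d - 2 * (i + 1)) = u * (u ^ i * v ^ (d - 2 * (i + 1))) by ring,
          ← uX]
        ring
      rw [this, Polynomial.mul_coeff_zero, Polynomial.coeff_X_zero, zero_mul, mul_zero]
  have h1 : (G d).coeff 1 = 1 := by
    unfold G
    rw [Polynomial.finsetSum_coeff, Finset.sum_eq_single 1]
    · have : gam d 1 = 1 := by simp [gam]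
      rw [this, Nat.cast_one, one_mul, pow_one, ← uX,
        show Polynomial.X * (1 + Polynomial.X) * v ^ (d - 2 * 1) =
          Polynomial.X * ((1 + Polynomial.X) * v ^ (d - 2 * 1)) by ring, Polynomial.coeff_X_mul,
        Polynomial.mul_coeff_zero]
      unfold v
      rw [Polynomial.coeff_zero_eq_eval_zero, Polynomial.coeff_zero_eq_eval_zero]
      simp
    · intro i _ hi
      rcases i with _ | _ | i
      · simp [gam]
      · exact absurd rfl hi
      · rw [← Polynomial.C_eq_natCast, Polynomial.coeff_C_mul]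
        have : (u ^ (i + 1 + 1) * v ^ (d - 2 * (i + 1 + 1))) =
            Polynomial.X * (Polynomial.X * ((1 + Polynomial.X) ^ 2 * (u ^ i * v ^ (d - 2 * (i + 1 + 1))))) := by
          rw [show u ^ (i + 1 + 1) * v ^ (d - 2 * (i + 1 + 1)) =
            u ^ 2 * (u ^ i * v ^ (d - 2 * (i + 1 + 1))) by ring]
          have hu2 : u ^ 2 = (Polynomial.X * (1 + Polynomial.X)) ^ 2 := by rw [uX]
          rw [hu2]
          ring
        rw [this, Polynomial.coeff_X_mul, Polynomial.mul_coeff_zero, Polynomial.coeff_X_zero,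
          zero_mul, mul_zero]
    · intro h
      exact absurd (Finset.mem_range.2 (by omega)) h
  have key : ∀ j, (G d).coeff j = if j ≤ d then phi d j else 0 := by
    intro j
    induction j using Nat.strong_induction_on with
    | _ j ih =>
      rcases j with _ | _ | k
      · rw [h0, if_pos (Nat.zero_le _)]
        simp [phi]
      · rw [h1, if_pos (by omega)]
        have hf : (((d - 1).factorial : ℕ) : ℝ) ≠ 0 := by exact_mod_cast Nat.factorial_ne_zero _
        unfold phi
        rw [if_neg (by omega), show d + (0 + 1) - 2 = d - 1 by omega]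
        simp [hf]
      · have h2 := hrec k
        rw [ih (k + 1) (by omega)] at h2
        have hne : (((k : ℝ) + 2) * (k + 1)) ≠ 0 := by positivity
        apply mul_right_cancel₀ hne
        by_cases hk : k + 2 ≤ d
        · rw [if_pos (by omega)] at h2
          rw [if_pos (by omega)]
          have h3 := phi_rec hk
          rw [show k + 1 + 1 = k + 2 from rfl, h3]
          linarith
        · rw [if_neg (by omega), zero_mul]
          by_cases hk2 : k + 1 ≤ d
          · have hkd : d = k + 1 := by omega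
            rw [if_pos hk2] at h2
            have h4 : (d : ℝ) = k + 1 := by exact_mod_cast hkd
            rw [h4] at h2
            rw [show k + 1 + 1 = k + 2 from rfl]
            linarith
          · rw [if_neg hk2] at h2
            rw [show k + 1 + 1 = k + 2 from rfl]
            linarith
  ext j
  rw [hc, key]

/-- all the limits `C(d-2, 2i-2) catalan (i-1)` with `1 ≤ i ≤ d / 2` are positive -/
theorem gam_pos {d i : ℕ} (hi : 1 ≤ i) (hid : i ≤ d / 2) : 0 < gam d i := by
  unfold gam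
  rw [if_neg (by omega)]
  refine Nat.mul_pos (Nat.choose_pos (by omega)) ?_
  have h1 := succ_mul_catalan_eq_centralBinom (i - 1)
  have h2 := Nat.centralBinom_pos (i - 1)
  rw [← h1] at h2
  exact Nat.pos_of_mul_pos_left h2

end Pool.Agent.T2H44.RS
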