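import Pool.Agent.T2H44.RS.RR

set_option autoImplicit false

/-!
# RS, package RR2: see the header of `RR.lean` (RR1 is used with its sorry)
-/

namespace Pool.Agent.T2H44.RS

open Finset Filter Topology

/-- RR2 -/
theorem real_rooted {d : ℕ} (hd : 2 ≤ d) (f : ℕ → ℕ → ℝ) (h0 : ∀ n, f 0 n = 1)
    (h1 : ∀ n, ∑ j ∈ range (d + 1), f j n * (-1) ^ j = (-1) ^ d)
    (hlim : ∀ j, 1 ≤ j → j ≤ d → Tendsto (fun n : ℕ => f j n / n) atTop (𝓝 (phi d j))) :
    ∀ᶠ n in atTop, ∃ s : Finset ℝ, s.card = d ∧ ∀ x ∈ s, -1 < x ∧ x < 0 ∧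
      ∑ j ∈ range (d + 1), f j n * x ^ j = 0 := by
  obtain ⟨y, hy1, hy2, hy3⟩ := exists_signs hd
  -- all the limits
  have hlim' : ∀ j, j ≤ d → Tendsto (fun n : ℕ => f j n / n) atTop (𝓝 (phi d j)) := by
    intro j hj
    rcases Nat.eq_zero_or_pos j with h | h
    · subst h
      have : phi d 0 = 0 := by unfold phi; rw [if_pos rfl]
      rw [this]
      simp_rw [h0]
      exact tendsto_one_div_atTop_nhds_zero_nat
    · exact hlim j h hj
  have hpt : ∀ x : ℝ, Tendsto (fun n : ℕ => (∑ j ∈ range (d + 1), f j n * x ^ j) / n) atTop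
      (𝓝 (∑ j ∈ range (d + 1), phi d j * x ^ j)) := by
    intro x
    have h2 : (fun n : ℕ => (∑ j ∈ range (d + 1), f j n * x ^ j) / n) =
        fun n : ℕ => ∑ j ∈ range (d + 1), f j n / n * x ^ j := by
      funext n
      rw [Finset.sum_div]
      exact Finset.sum_congr rfl fun j _ => by ring
    rw [h2]
    refine tendsto_finsetSum _ fun j hj => ?_
    exact (hlim' j (by rw [mem_range] at hj; omega)).mul_const _
  have hev : ∀ᶠ n : ℕ in atTop, ∀ k ∈ Finset.Icc 1 (d - 1),
      0 < (-1 : ℝ) ^ (d - k) * ∑ j ∈ range (d + 1), f j n * y k ^ j := by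
    rw [Filter.eventually_all_finset]
    intro k hk
    rw [Finset.mem_Icc] at hk
    have h2 := (hpt (y k)).const_mul ((-1 : ℝ) ^ (d - k))
    filter_upwards [h2.eventually (lt_mem_nhds (hy3 k hk.1 hk.2)), eventually_gt_atTop 0]
      with n hn hn0
    have hn1 : (0 : ℝ) < n := by exact_mod_cast hn0
    rw [← mul_div_assoc] at hn
    have := mul_pos hn hn1
    rwa [div_mul_cancel₀ _ hn1.ne'] at this
  filter_upwards [hev] with n hn
  set G : ℝ → ℝ := fun x => ∑ j ∈ range (d + 1), f j n * x ^ j with hG
  have hGc : Continuous G := by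
    refine continuous_finsetSum _ fun j _ => ?_
    fun_prop
  set w : ℕ → ℝ := fun k => if k = 0 then -1 else if k = d then 0 else y k with hw
  have hw0 : w 0 = -1 := by simp [hw]
  have hwd : w d = 0 := by
    have : d ≠ 0 := by omega
    simp [hw, this]
  have hwy : ∀ k, 1 ≤ k → k ≤ d - 1 → w k = y k := by
    intro k h1 h2
    simp only [hw]
    rw [if_neg (by omega), if_neg (by omega)]
  have hsign : ∀ k, k ≤ d → 0 < (-1 : ℝ) ^ (d - k) * G (w k) := by
    intro k hk
    rcases Nat.eq_zero_or_pos k with h | h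
    · subst h
      rw [hw0]
      simp only [hG]
      rw [h1 n, Nat.sub_zero, ← mul_pow]
      norm_num
    · rcases hk.eq_or_lt with h2 | h2
      · subst h2
        rw [hwd]
        have : G 0 = 1 := by
          simp only [hG]
          rw [Finset.sum_range_succ']
          simp [h0]
        rw [this]
        simp
      · rw [hwy k h (by omega)]
        exact hn k (Finset.mem_Icc.2 ⟨h, by omega⟩)
  have hstep : ∀ k, k < d → w k < w (k + 1) := by
    intro k hk
    rcases Nat.eq_zero_or_pos k with h | h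
    · subst h
      rw [hw0, zero_add, hwy 1 le_rfl (by omega)]
      exact (hy1 1 le_rfl (by omega)).1
    · rw [hwy k h (by omega)]
      rcases (Nat.succ_le_of_lt hk).eq_or_lt with h2 | h2
      · have : k + 1 = d := h2
        rw [this, hwd]
        exact (hy1 k h (by omega)).2
      · rw [hwy (k + 1) (by omega) (by omega)]
        exact hy2 k h (by omega)
  have hmono : ∀ k, k ≤ d → ∀ j, j ≤ k → w j ≤ w k := by
    intro k
    induction k with
    | zero =>
      intro _ j hj
      rw [Nat.le_zero.1 hj]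
    | succ k ih =>
      intro hk j hj
      rcases hj.eq_or_lt with h | h
      · rw [h]
      · exact (ih (by omega) j (by omega)).trans (hstep k (by omega)).le
  have hroot : ∀ k, ∃ r : ℝ, k < d → w k < r ∧ r < w (k + 1) ∧ G r = 0 := by
    intro k
    by_cases hk : k < d
    · have s1 := hsign k hk.le
      have s2 := hsign (k + 1) hk
      have e1 : (-1 : ℝ) ^ (d - k) = -(-1) ^ (d - (k + 1)) := by
        rw [show d - k = d - (k + 1) + 1 by omega, pow_succ]
        ring
      have hc : ContinuousOn (fun x => (-1 : ℝ) ^ (d - k) * G x) (Set.Icc (w k) (w (k + 1))) :=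
        (continuous_const.mul hGc).continuousOn
      have := intermediate_value_Ioo' (hstep k hk).le hc
      obtain ⟨r, hr, hr0⟩ := this (show (0 : ℝ) ∈ Set.Ioo _ _ from ⟨by
        show (-1 : ℝ) ^ (d - k) * G (w (k + 1)) < 0
        rw [e1]
        linarith, s1⟩)
      refine ⟨r, fun _ => ⟨hr.1, hr.2, ?_⟩⟩
      rcases mul_eq_zero.1 hr0 with h | h
      · exact absurd h (pow_ne_zero _ (by norm_num))
      · exact h
    · exact ⟨0, fun h => absurd h hk⟩
  choose r hr using hroot
  refine ⟨(range d).image r, ?_, ?_⟩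
  · rw [Finset.card_image_of_injOn, card_range]
    intro a ha b hb hab
    rw [Finset.coe_range, Set.mem_Iio] at ha hb
    by_contra hne
    have key : ∀ a b, a < b → b < d → r a < r b := by
      intro a b hab hb
      have h2 := (hr a (by omega)).2.1
      have h3 := (hr b hb).1
      have h4 := hmono b (by omega) (a + 1) (by omega)
      linarith
    rcases Nat.lt_or_gt_of_ne hne with h | h
    · have := key a b h hb
      rw [hab] at this
      exact lt_irrefl _ this
    · have := key b a h ha
      rw [hab] at this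
      exact lt_irrefl _ this
  · intro x hx
    obtain ⟨k, hk, rfl⟩ := mem_image.1 hx
    rw [mem_range] at hk
    obtain ⟨h2, h3, h4⟩ := hr k hk
    have h5 := hmono k hk.le 0 (Nat.zero_le _)
    have h6 := hmono d le_rfl (k + 1) hk
    rw [hw0] at h5
    rw [hwd] at h6
    exact ⟨by linarith, by linarith, h4⟩

end Pool.Agent.T2H44.RS
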