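import Pool.Agent.T2H44.RS.Drift
import Pool.Agent.T2H44.RS.C6
import Pool.Agent.T2H44.RS.DS
import Pool.Agent.T2H44.RS.ID
import Pool.Agent.T2H44.RS.GL
import Pool.Agent.T2H44.RS.RR2

set_option autoImplicit false

/-!
# RS: assembly of the limit theorem for the `γ`-vectors
-/

namespace Pool.Agent.T2H44.RS

open Finset Filter Topology MeasureTheory

theorem nf_zero_pure {d : ℕ} {Δ : Cx} (h : IsPure d Δ) : nf 0 Δ = 1 := by
  unfold nf
  rw [Finset.card_eq_one]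
  refine ⟨∅, ?_⟩
  ext σ
  rw [Finset.mem_filter, Finset.mem_singleton, Finset.card_eq_zero]
  exact ⟨fun h => h.2, fun h' => ⟨h' ▸ h.empty_mem, h'⟩⟩

/-- `γ_0 = 1` -/
theorem gamma_zero {d : ℕ} {Δ : Cx} (h : IsPure d Δ) {γ : ℕ → ℤ} (hγ : IsGamma d Δ γ) :
    γ 0 = 1 := by
  have h1 := congrArg (Polynomial.eval 0) hγ
  rw [Polynomial.eval_finset_sum, Polynomial.eval_finset_sum,
    Finset.sum_eq_single_of_mem 0 (Finset.mem_range.2 (by omega)),
    Finset.sum_eq_single_of_mem 0 (Finset.mem_range.2 (by omega))] at h1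
  · simp [nf_zero_pure h] at h1
    exact h1.symm
  · intro i _ hi
    simp [hi]
  · intro i _ hi
    simp [hi]

/-- the Euler relation at `-1` -/
theorem euler_nf {d : ℕ} {Δ : Cx} (h : IsPure d Δ) (hE : IsEul d Δ) :
    ∑ j ∈ range (d + 1), (nf j Δ : ℝ) * (-1) ^ j = (-1) ^ d := by
  have h1 := hE ∅ h.empty_mem
  rw [Finset.filter_true_of_mem (fun τ _ => Finset.empty_subset τ)] at h1
  have h2 : ∑ j ∈ range (d + 1), (nf j Δ : ℤ) * (-1) ^ j = (-1) ^ d := by
    rw [← h1, ← Finset.sum_fiberwise_of_maps_to (t := range (d + 1)) (g := Finset.card)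
      (fun σ hσ => Finset.mem_range.2 (Nat.lt_succ_of_le (h.card_le σ hσ)))]
    refine Finset.sum_congr rfl fun j _ => ?_
    rw [Finset.sum_congr rfl fun σ hσ => by rw [(Finset.mem_filter.1 hσ).2], Finset.sum_const,
      nsmul_eq_mul]
    rfl
  exact_mod_cast h2

section Process

variable {Ω : Type} {mΩ : MeasurableSpace Ω} {μ : Measure Ω} {Δ₀ : Cx} {e : ℕ → Ω → Finset ℕ}

theorem eul_cx {d : ℕ} (h : IsPure d Δ₀) (hE : IsEul d Δ₀) (he : RandomEdges μ Δ₀ e) (n : ℕ)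
    (ω : Ω) : IsEul d (cx Δ₀ e n ω) := by
  induction n with
  | zero => exact hE
  | succ n ih => exact isEul_sub (pure_cx h he n ω) ih (he.mem n ω)

theorem flag_cx {d : ℕ} (h : IsPure d Δ₀) (hF : IsFlag Δ₀) (he : RandomEdges μ Δ₀ e) (n : ℕ)
    (ω : Ω) : IsFlag (cx Δ₀ e n ω) := by
  induction n with
  | zero => exact hF
  | succ n ih => exact isFlag_sub (pure_cx h he n ω).down ih (he.mem n ω)

/-- the deterministic part of the theorem on `γ`-vectors -/
theorem gamma_of_limits {d : ℕ} (hd : 2 ≤ d) (D : ℕ → Cx) (hP : ∀ n, IsPure d (D n))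
    (hE : ∀ n, IsEul d (D n))
    (hlim : ∀ i, 1 ≤ i → i ≤ d → Tendsto (fun n : ℕ => (nf i (D n) : ℝ) / n) atTop (𝓝 (phi d i))) :
    (∀ n, ∃ γ, IsGamma d (D n) γ) ∧
    (∀ γ : ℕ → ℕ → ℤ, (∀ n, IsGamma d (D n) (γ n)) → ∀ i, i ≤ d / 2 →
      Tendsto (fun n : ℕ => (γ n i : ℝ) / n) atTop (𝓝 (gam d i))) ∧
    (∀ᶠ n in atTop, ∀ γ, IsGamma d (D n) γ → ∀ i ≤ d / 2, 0 < γ i) ∧
    ∀ᶠ n in atTop, ∃ s : Finset ℝ, s.card = d ∧ ∀ t ∈ s, t < 0 ∧
      ∑ j ∈ range (d + 1), (nf j (D n) : ℝ) * t ^ j * (1 - t) ^ (d - j) = 0 := by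
  have hex : ∀ n, ∃ γ, IsGamma d (D n) γ := fun n => exists_gamma (hP n) (hE n)
  have hlim' : ∀ j ≤ d, Tendsto (fun n : ℕ => (nf j (D n) : ℝ) / n) atTop (𝓝 (phi d j)) := by
    intro j hj
    rcases Nat.eq_zero_or_pos j with rfl | h0
    · have h1 : (fun n : ℕ => (nf 0 (D n) : ℝ) / n) = fun n : ℕ => (1 : ℝ) / n := by
        funext n
        rw [nf_zero_pure (hP n), Nat.cast_one]
      rw [h1]
      have h2 : phi d 0 = 0 := by simp [phi]
      rw [h2]
      exact tendsto_one_div_atTop_nhds_zero_nat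
    · exact hlim j h0 hj
  have hgam : ∀ γ : ℕ → ℕ → ℤ, (∀ n, IsGamma d (D n) (γ n)) → ∀ i, i ≤ d / 2 →
      Tendsto (fun n : ℕ => (γ n i : ℝ) / n) atTop (𝓝 (gam d i)) := by
    intro γ hγ
    exact gamma_limit d (fun j n => (nf j (D n) : ℝ)) (fun i n => (γ n i : ℝ)) (phi d)
      (fun i => (gam d i : ℝ)) (fun n => gamma_real (hγ n)) (phi_eq_gam hd) hlim'
  refine ⟨hex, hgam, ?_, ?_⟩
  · have hch : ∀ n, ∃ γ, IsGamma d (D n) γ ∧
        ((∃ γ', IsGamma d (D n) γ' ∧ ∃ i ≤ d / 2, γ' i ≤ 0) → ∃ i ≤ d / 2, γ i ≤ 0) := by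
      intro n
      by_cases h : ∃ γ', IsGamma d (D n) γ' ∧ ∃ i ≤ d / 2, γ' i ≤ 0
      · obtain ⟨γ', h1, h2⟩ := h
        exact ⟨γ', h1, fun _ => h2⟩
      · obtain ⟨γ', h1⟩ := hex n
        exact ⟨γ', h1, fun h2 => absurd h2 h⟩
    choose γ hγ hbad using hch
    have h1 : ∀ᶠ n in atTop, ∀ i ∈ Finset.Icc 1 (d / 2), 0 < γ n i := by
      rw [Filter.eventually_all_finset]
      intro i hi
      rw [Finset.mem_Icc] at hi
      have h2 := hgam γ hγ i hi.2
      have h3 : (0 : ℝ) < gam d i := by exact_mod_cast gam_pos hi.1 hi.2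
      filter_upwards [h2.eventually (lt_mem_nhds h3)] with n hn
      by_contra h4
      have h5 : (γ n i : ℝ) ≤ 0 := by exact_mod_cast not_lt.1 h4
      exact absurd hn (not_lt.2 (div_nonpos_of_nonpos_of_nonneg h5 (Nat.cast_nonneg n)))
    filter_upwards [h1] with n hn
    intro γ' hγ' i hi
    by_contra hcon
    obtain ⟨j, hj, hj2⟩ := hbad n ⟨γ', hγ', i, hi, not_lt.1 hcon⟩
    rcases Nat.eq_zero_or_pos j with h0 | h0
    · subst h0
      rw [gamma_zero (hP n) (hγ n)] at hj2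
      exact absurd hj2 (by norm_num)
    · exact absurd (hn j (Finset.mem_Icc.2 ⟨h0, hj⟩)) (not_lt.2 hj2)
  · have h1 := real_rooted hd (fun j n => (nf j (D n) : ℝ))
      (fun n => by simp [nf_zero_pure (hP n)]) (fun n => euler_nf (hP n) (hE n)) hlim
    filter_upwards [h1] with n hn
    obtain ⟨s, hs, hs2⟩ := hn
    refine ⟨s.image fun x => x / (1 + x), ?_, ?_⟩
    · rw [Finset.card_image_of_injOn, hs]
      intro x hx y hy hxy
      have h2 := hs2 x hx
      have h3 := hs2 y hy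
      have h4 : 1 + x ≠ 0 := by linarith [h2.1]
      have h5 : 1 + y ≠ 0 := by linarith [h3.1]
      have h6 : x / (1 + x) = y / (1 + y) := hxy
      rw [div_eq_div_iff h4 h5] at h6
      linarith
    · intro t ht
      obtain ⟨x, hx, rfl⟩ := Finset.mem_image.1 ht
      obtain ⟨h2, h3, h4⟩ := hs2 x hx
      have h5 : 0 < 1 + x := by linarith
      refine ⟨div_neg_of_neg_of_pos h3 h5, ?_⟩
      have h6 : ∀ j ∈ range (d + 1), (nf j (D n) : ℝ) * (x / (1 + x)) ^ j *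
          (1 - x / (1 + x)) ^ (d - j) = (nf j (D n) : ℝ) * x ^ j * ((1 + x) ^ d)⁻¹ := by
        intro j hj
        have h7 : j ≤ d := Nat.lt_succ_iff.1 (Finset.mem_range.1 hj)
        have h8 : 1 - x / (1 + x) = 1 / (1 + x) := by
          field_simp
          ring
        rw [h8, div_pow, div_pow, one_pow]
        have h9 : (1 + x) ^ d = (1 + x) ^ j * (1 + x) ^ (d - j) := by
          rw [← pow_add]
          congr 1
          omega
        rw [h9]
        field_simp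
      rw [Finset.sum_congr rfl h6, ← Finset.sum_mul]
      have h10 : ∑ j ∈ range (d + 1), (nf j (D n) : ℝ) * x ^ j = 0 := h4
      rw [h10, zero_mul]

end Process

end Pool.Agent.T2H44.RS
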