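import Pool.Agent.T2H44.RS.Defs

set_option autoImplicit false

/-!
# RS: definitions for the probabilistic part
-/

namespace Pool.Agent.T2H44.RS

open Finset Filter Topology MeasureTheory

/-- The properties of the processes `F i n = nf i Δ_n`, `H n = Hq d Δ_n`, `V n = Vq d Δ_n` which are used in the
probabilistic part; `c = C(d, 2)`, `F 2 n` is the number of edges. -/
structure Sys {Ω : Type} {mΩ : MeasurableSpace Ω} (d : ℕ) (μ : Measure Ω) (ℱ : Filtration ℕ mΩ)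
    (F : ℕ → ℕ → Ω → ℝ) (H V : ℕ → Ω → ℝ) (C : ℝ) : Prop where
  adF : ∀ i n, StronglyMeasurable[ℱ n] (F i n)
  adH : ∀ n, StronglyMeasurable[ℱ n] (H n)
  adV : ∀ n, StronglyMeasurable[ℱ n] (V n)
  bdd : ∀ n, ∃ B : ℝ, ∀ ω, (∀ i, |F i n ω| ≤ B) ∧ |H n ω| ≤ B ∧ |V n ω| ≤ B
  one_le : ∀ i, 1 ≤ i → i ≤ d → ∀ n ω, 1 ≤ F i n ω
  top : ∀ i, d < i → ∀ n ω, F i n ω = 0
  vert : ∀ n ω, F 1 n ω = F 1 0 ω + n
  le_top : ∀ i n ω, F i n ω ≤ C * F d n ω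
  H_nonneg : ∀ n ω, 0 ≤ H n ω
  V_ge : ∀ n ω, F d n ω ^ 2 ≤ V n ω
  V_le : ∀ n ω, V n ω ≤ C * F d n ω ^ 2
  mean : ∀ i, 1 ≤ i → ∀ n, μ[F i (n + 1) | ℱ n] =ᵐ[μ] fun ω => F i n ω +
    ((i.choose 2 : ℝ) * F i n ω + ((i + 1).choose 2 : ℝ) * F (i + 1) n ω) / F 2 n ω
  var : ∀ i, 1 ≤ i → ∀ n, μ[fun ω => (F i (n + 1) ω - F i n ω) ^ 2 | ℱ n] ≤ᵐ[μ]
    fun ω => C * H n ω / F 2 n ω
  Vstep : ∀ n, μ[V (n + 1) | ℱ n] ≤ᵐ[μ] fun ω =>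
    (1 + (d : ℝ) * (d - 1) / F 2 n ω) * V n ω - H n ω / F 2 n ω

/-- `∏_{j < n} (1 + C(d, 2) / F 2 j)`; `Pr d F (n + 1)` is `ℱ n`-measurable -/
noncomputable def Pr {Ω : Type} (d : ℕ) (F : ℕ → ℕ → Ω → ℝ) (n : ℕ) (ω : Ω) : ℝ :=
  ∏ j ∈ range n, (1 + (d.choose 2 : ℝ) / F 2 j ω)

/-- the normalised martingale differences -/
noncomputable def noise {Ω : Type} (d : ℕ) (F : ℕ → ℕ → Ω → ℝ) (i n : ℕ) (ω : Ω) : ℝ :=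
  (F i (n + 1) ω - F i n ω -
    ((i.choose 2 : ℝ) * F i n ω + ((i + 1).choose 2 : ℝ) * F (i + 1) n ω) / F 2 n ω) /
    Pr d F (n + 1) ω

end Pool.Agent.T2H44.RS
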