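import Pool.Agent.T2H44.RS.Defs

set_option autoImplicit false

/-!
# RS, packages RR1 and RR2: real zeros

**RR1** `exists_signs`. Let `P = ∑ phi d i X^i`. Since
`(d-1)! P = D^(d-2) ((X + X^2)^(d-1))` (coefficients: `C(d-1, i-1) (d+i-2)! / i!`), it is enough to find the
points for `D^m (X + X^2)^n`, `m < n`: by induction on `m` and the mean value theorem, there are `m + 1` points
in `(-1, 0)` at which the signs alternate, the first one being `(-1)^n`.

**RR2** `real_rooted`. For the points `y k` of RR1: the sign of `F_n(y k)` is eventually `(-1)^(d-k)` since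
`F_n(y k)/n → P(y k)` (`f 0 n / n → 0`). `F_n(0) = 1 > 0`, `F_n(-1) = (-1)^d`. By the intermediate value theorem there
is a zero in each of the `d` intervals `(-1, y 1), (y 1, y 2), …, (y (d-1), 0)`.
-/

namespace Pool.Agent.T2H44.RS

open Finset Filter Topology

namespace RR1

open Polynomial

/-- the iterated derivatives -/
noncomputable def Q (n m : ℕ) : ℝ[X] := derivative^[m] ((X ^ 2 + X) ^ n)

lemma Q_succ (n m : ℕ) : Q n (m + 1) = derivative (Q n m) := by
  simp [Q, Function.iterate_succ_apply']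

lemma Q_zero_at {n m : ℕ} (h : m < n) : (Q n m).eval 0 = 0 ∧ (Q n m).eval (-1) = 0 := by
  have h1 : (X ^ 2 + X : ℝ[X]) ^ (n - m) ∣ Q n m :=
    Polynomial.pow_sub_dvd_iterate_derivative_of_pow_dvd m (dvd_refl _)
  obtain ⟨q, hq⟩ := h1
  have hnm : n - m ≠ 0 := by omega
  constructor
  · rw [hq]; simp [hnm]
  · rw [hq]; simp [hnm]

/-- mean value theorem -/
lemma mvt (p : ℝ[X]) {a b : ℝ} (hab : a < b) : ∃ c, a < c ∧ c < b ∧
    (derivative p).eval c * (b - a) = p.eval b - p.eval a := by
  obtain ⟨c, hc, h⟩ := exists_hasDerivAt_eq_slope (fun x => p.eval x) (fun x => (derivative p).eval x)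
    hab p.continuous.continuousOn (fun x _ => p.hasDerivAt x)
  refine ⟨c, hc.1, hc.2, ?_⟩
  have hne : b - a ≠ 0 := (sub_pos.2 hab).ne'
  rw [h, div_mul_cancel₀ _ hne]

lemma signs (n : ℕ) : ∀ m : ℕ, m < n → ∃ y : ℕ → ℝ,
    (∀ k, k ≤ m → -1 < y k ∧ y k < 0) ∧ (∀ k, k + 1 ≤ m → y k < y (k + 1)) ∧
    ∀ k, k ≤ m → 0 < (-1 : ℝ) ^ (n + k) * (Q n m).eval (y k) := by
  intro m
  induction m with
  | zero =>
    intro hn
    refine ⟨fun _ => -1 / 2, fun k _ => by norm_num, fun k hk => by omega, fun k hk => ?_⟩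
    obtain rfl : k = 0 := by omega
    simp only [Q, Function.iterate_zero, id_eq, eval_pow, eval_add, eval_X, add_zero]
    rw [← mul_pow]
    positivity
  | succ m ih =>
    intro hn
    obtain ⟨y, h1, h2, h3⟩ := ih (by omega)
    obtain ⟨z0, zm⟩ := Q_zero_at (n := n) (m := m) (by omega)
    -- the points between -1 and y 0, between y k and y (k+1), between y m and 0
    obtain ⟨c0, c0a, c0b, c0e⟩ := mvt (Q n m) (h1 0 (by omega)).1
    obtain ⟨cm, cma, cmb, cme⟩ := mvt (Q n m) (h1 m le_rfl).2
    have hmid : ∀ k, ∃ c, k + 1 ≤ m → y k < c ∧ c < y (k + 1) ∧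
        (derivative (Q n m)).eval c * (y (k + 1) - y k) =
          (Q n m).eval (y (k + 1)) - (Q n m).eval (y k) := by
      intro k
      by_cases hk : k + 1 ≤ m
      · obtain ⟨c, h⟩ := mvt (Q n m) (h2 k hk)
        exact ⟨c, fun _ => h⟩
      · exact ⟨0, fun h => absurd h hk⟩
    choose c hc using hmid
    let z : ℕ → ℝ := fun k => if k = 0 then c0 else if k ≤ m then c (k - 1) else cm
    have hz0 : z 0 = c0 := by simp [z]
    have hzmid : ∀ k, 1 ≤ k → k ≤ m → z k = c (k - 1) := by
      intro k h h'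
      have : k ≠ 0 := by omega
      simp [z, this, h']
    have hzm : z (m + 1) = cm := by simp [z]
    -- each `z k` is between `y (k-1)` and `y k`
    have hlt : ∀ k, k ≤ m → z k < y k := by
      intro k hk
      rcases Nat.eq_zero_or_pos k with rfl | h
      · rw [hz0]; exact c0b
      · rw [hzmid k h hk]
        have := (hc (k - 1) (by omega)).2.1
        rwa [Nat.sub_add_cancel h] at this
    have hgt : ∀ k, k ≤ m → y k < z (k + 1) := by
      intro k hk
      rcases Nat.lt_or_ge k m with h | h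
      · rw [hzmid (k + 1) (by omega) (by omega)]
        exact (hc k (by omega)).1
      · obtain rfl : k = m := by omega
        rw [hzm]; exact cma
    refine ⟨z, ?_, ?_, ?_⟩
    · intro k hk
      constructor
      · rcases Nat.eq_zero_or_pos k with rfl | h
        · rw [hz0]; exact c0a
        · have a := hgt (k - 1) (by omega)
          rw [Nat.sub_add_cancel h] at a
          exact (h1 (k - 1) (by omega)).1.trans a
      · rcases Nat.lt_or_ge m k with h | h
        · obtain rfl : k = m + 1 := by omega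
          rw [hzm]; exact cmb
        · exact (hlt k h).trans (h1 k h).2
    · intro k hk
      exact (hlt k (by omega)).trans (hgt k (by omega))
    · intro k hk
      rw [Q_succ]
      rcases Nat.eq_zero_or_pos k with rfl | h
      · rw [hz0]
        have a := h3 0 (by omega)
        rw [zm] at c0e
        have hp : 0 < y 0 - -1 := by linarith [(h1 0 (by omega)).1]
        have : 0 < ((-1 : ℝ) ^ (n + 0) * (derivative (Q n m)).eval c0) * (y 0 - -1) := by
          rw [mul_assoc, c0e]; simpa using a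
        exact (mul_pos_iff_of_pos_right hp).1 this
      · rcases Nat.lt_or_ge m k with h' | h'
        · obtain rfl : k = m + 1 := by omega
          rw [hzm]
          have a := h3 m le_rfl
          rw [z0] at cme
          have hp : 0 < 0 - y m := by linarith [(h1 m le_rfl).2]
          have : 0 < ((-1 : ℝ) ^ (n + (m + 1)) * (derivative (Q n m)).eval cm) * (0 - y m) := by
            rw [mul_assoc, cme, ← add_assoc, pow_succ]
            linarith
          exact (mul_pos_iff_of_pos_right hp).1 this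
        · rw [hzmid k h h']
          obtain ⟨j, rfl⟩ : ∃ j, k = j + 1 := ⟨k - 1, by omega⟩
          rw [Nat.add_sub_cancel]
          obtain ⟨ca, cb, ce⟩ := hc j h'
          have a := h3 j (by omega)
          have b := h3 (j + 1) h'
          have hp : 0 < y (j + 1) - y j := by linarith
          have : 0 < ((-1 : ℝ) ^ (n + (j + 1)) * (derivative (Q n m)).eval (c j)) *
              (y (j + 1) - y j) := by
            rw [mul_assoc, ce, mul_sub]
            have e : (-1 : ℝ) ^ (n + (j + 1)) = -(-1) ^ (n + j) := by rw [← add_assoc, pow_succ]; ring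
            rw [e] at b ⊢
            linarith
          exact (mul_pos_iff_of_pos_right hp).1 this

lemma eval_Q (e : ℕ) (x : ℝ) : (Q (e + 1) e).eval x =
    ((e + 1).factorial : ℝ) * ∑ j ∈ range (e + 2 + 1), phi (e + 2) j * x ^ j := by
  have hpow : (X ^ 2 + X : ℝ[X]) ^ (e + 1) =
      ∑ i ∈ range (e + 1 + 1), ((e + 1).choose i : ℝ[X]) * X ^ (e + 1 + i) := by
    rw [add_pow]
    refine Finset.sum_congr rfl fun i hi => ?_
    have : i ≤ e + 1 := by have := Finset.mem_range.1 hi; omega
    rw [← pow_mul, ← pow_add, mul_comm]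
    congr 2
    omega
  have h0 : phi (e + 2) 0 = 0 := by simp [phi]
  have hR : ((e + 1).factorial : ℝ) * ∑ j ∈ range (e + 2 + 1), phi (e + 2) j * x ^ j =
      ∑ i ∈ range (e + 1 + 1), ((e + 1).factorial : ℝ) * (phi (e + 2) (i + 1) * x ^ (i + 1)) := by
    rw [Finset.sum_range_succ', h0, zero_mul, add_zero, Finset.mul_sum]
  rw [hR, Q, hpow, Polynomial.iterate_derivative_sum, Polynomial.eval_finsetSum]
  refine Finset.sum_congr rfl fun i hi => ?_
  have hi' : i ≤ e + 1 := by have := Finset.mem_range.1 hi; omega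
  have h1 : derivative^[e] (((e + 1).choose i : ℝ[X]) * X ^ (e + 1 + i)) =
      ((e + 1).choose i : ℝ[X]) * derivative^[e] (X ^ (e + 1 + i)) := by
    have := Polynomial.iterate_derivative_smul (((e + 1).choose i : ℕ) : ℝ) (X ^ (e + 1 + i) : ℝ[X]) e
    rw [Polynomial.smul_eq_C_mul, Polynomial.smul_eq_C_mul] at this
    simpa using this
  rw [h1, Polynomial.iterate_derivative_X_pow_eq_smul]
  have h2 : e + 1 + i - e = i + 1 := by omega
  rw [h2]
  simp only [eval_mul, eval_natCast, eval_smul, eval_pow, eval_X, nsmul_eq_mul, smul_eq_mul]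
  have h3 : ((e + 1 + i).descFactorial e : ℝ) * (i + 1).factorial = (e + 1 + i).factorial := by
    have := Nat.factorial_mul_descFactorial (n := e + 1 + i) (k := e) (by omega)
    rw [h2] at this
    rw [mul_comm]
    exact_mod_cast this
  have h4 : ((e + 1).choose i : ℝ) * (i.factorial * (e + 1 - i).factorial) = (e + 1).factorial := by
    have := Nat.choose_mul_factorial_mul_factorial hi'
    rw [mul_assoc] at this
    exact_mod_cast this
  have h5 : phi (e + 2) (i + 1) = ((e + 1 + i).factorial : ℝ) /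
      ((e + 1 - i).factorial * (i + 1).factorial * i.factorial) := by
    have a : e + 2 + (i + 1) - 2 = e + 1 + i := by omega
    have b : e + 2 - (i + 1) = e + 1 - i := by omega
    simp [phi, a, b]
  rw [h5, ← h3, ← h4]
  have p1 : ((i + 1).factorial : ℝ) ≠ 0 := by positivity
  have p2 : (i.factorial : ℝ) ≠ 0 := by positivity
  have p3 : ((e + 1 - i).factorial : ℝ) ≠ 0 := by positivity
  field_simp

end RR1

/-- RR1 -/
theorem exists_signs {d : ℕ} (hd : 2 ≤ d) : ∃ y : ℕ → ℝ,
    (∀ k, 1 ≤ k → k ≤ d - 1 → -1 < y k ∧ y k < 0) ∧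
    (∀ k, 1 ≤ k → k + 1 ≤ d - 1 → y k < y (k + 1)) ∧
    ∀ k, 1 ≤ k → k ≤ d - 1 → 0 < (-1 : ℝ) ^ (d - k) * ∑ j ∈ range (d + 1), phi d j * y k ^ j := by
  obtain ⟨e, rfl⟩ : ∃ e, d = e + 2 := ⟨d - 2, by omega⟩
  obtain ⟨y, h1, h2, h3⟩ := RR1.signs (e + 1) e (by omega)
  refine ⟨fun k => y (k - 1), fun k ha hb => h1 _ (by omega), fun k ha hb => ?_, fun k ha hb => ?_⟩
  · obtain ⟨j, rfl⟩ : ∃ j, k = j + 1 := ⟨k - 1, by omega⟩
    simpa using h2 j (by omega)
  · obtain ⟨j, rfl⟩ : ∃ j, k = j + 1 := ⟨k - 1, by omega⟩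
    have a := h3 j (by omega)
    rw [RR1.eval_Q] at a
    simp only [Nat.add_sub_cancel]
    have hs : (-1 : ℝ) ^ (e + 1 + j) = (-1) ^ (e + 2 - (j + 1)) := by
      have : e + 1 + j = (e + 2 - (j + 1)) + 2 * j := by omega
      rw [this, pow_add, pow_mul]; simp
    rw [hs] at a
    have hp : (0 : ℝ) < (e + 1).factorial := by positivity
    have : (0 : ℝ) < (e + 1).factorial * ((-1) ^ (e + 2 - (j + 1)) *
        ∑ i ∈ range (e + 2 + 1), phi (e + 2) i * y j ^ i) := by
      linarith
    exact (mul_pos_iff_of_pos_left hp).1 this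

end Pool.Agent.T2H44.RS
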